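import Pool.Agent.Work.MP_9dede5_an.Bd.B01

/-! Bundle of small proof modules (one section per former module). -/

section

/-!
Item B3: a sequence on the curve approaching a given point from a prescribed side.
-/

universe u

namespace NAO

open Filter Topology

theorem itemB3 (h1 : SRay.{u}) : SCur.{u} := by
  intro X _ _ p d ζ₀ σ hp hd hz hσ
  have hζ : ζ₀ ≠ 0 := by
    rintro rfl
    rw [zero_smul, add_zero] at hz
    linarith
  have hσ1 : σ * σ = 1 := by rcases hσ with h | h <;> rw [h] <;> norm_num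
  set θ : ℕ → ℝ := fun k => Real.pi / (k + 2) with hθ
  have hθ0 : ∀ k, 0 < θ k := fun k => by
    simp only [hθ]
    have := Real.pi_pos
    positivity
  have hθ1 : ∀ k, θ k < Real.pi := fun k => by
    simp only [hθ]
    rw [div_lt_iff₀ (by positivity)]
    have := Real.pi_pos
    have hk : (0 : ℝ) ≤ k := Nat.cast_nonneg k
    nlinarith
  set rot : ℕ → ℂ := fun k => Complex.exp ((σ * θ k : ℝ) * Complex.I) with hrot
  have hrotn : ∀ k, rot k ≠ 0 := fun k => Complex.exp_ne_zero _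
  have hv : ∀ k, (rot k * ζ₀) • d ≠ 0 := fun k => smul_ne_zero (mul_ne_zero (hrotn k) hζ) hd
  choose r hr0 hr1 hr2 using fun k => h1 X p ((rot k * ζ₀) • d) hp (hv k)
  have hrlim : Tendsto rot atTop (𝓝 1) := by
    have h2 : Tendsto θ atTop (𝓝 0) := by
      simp only [hθ]
      refine Tendsto.div_atTop tendsto_const_nhds ?_
      exact tendsto_atTop_add_const_right _ _ tendsto_natCast_atTop_atTop
    have h3 : Tendsto (fun k => Complex.exp ((σ * θ k : ℝ) * Complex.I)) atTop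
        (𝓝 (Complex.exp ((σ * 0 : ℝ) * Complex.I))) := by
      refine (Complex.continuous_exp.tendsto _).comp ?_
      refine Tendsto.mul_const _ ?_
      exact (Complex.continuous_ofReal.tendsto _).comp (h2.const_mul σ)
    have h4 : Complex.exp ((σ * 0 : ℝ) * Complex.I) = 1 := by simp
    rw [h4] at h3
    exact h3
  have hcont : ∀ a : ℝ, Tendsto (fun k => ‖p + (a : ℂ) • (rot k * ζ₀) • d‖) atTop
      (𝓝 ‖p + (a : ℂ) • ζ₀ • d‖) := by
    intro a
    have h2 : Tendsto (fun k => ‖p + (a : ℂ) • (rot k * ζ₀) • d‖) atTop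
        (𝓝 ‖p + (a : ℂ) • (1 * ζ₀) • d‖) :=
      (tendsto_const_nhds.add (((hrlim.mul_const ζ₀).smul_const d).const_smul (a : ℂ))).norm
    rwa [one_mul] at h2
  -- the ray through the given point
  obtain ⟨r₀, hr00, hr01, hr02⟩ := h1 X p (ζ₀ • d) hp (smul_ne_zero hζ hd)
  have hr0eq : r₀ = 1 := by
    have h2 := hr02 1 zero_le_one
    rw [Complex.ofReal_one, one_smul, hz] at h2
    rcases lt_trichotomy r₀ 1 with h | h | h
    · exact absurd (h2.2 h) (lt_irrefl _)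
    · exact h
    · exact absurd (h2.1 h) (lt_irrefl _)
  rw [hr0eq] at hr02
  have hr : Tendsto r atTop (𝓝 1) := by
    refine tendsto_order.2 ⟨fun a ha => ?_, fun a ha => ?_⟩
    · have ha' : max a 0 < 1 := max_lt ha one_pos
      have h2 := (hr02 (max a 0) (le_max_right _ _)).1 ha'
      filter_upwards [(hcont (max a 0)).eventually_lt_const h2] with k hk
      refine (le_max_left a 0).trans_lt ?_
      by_contra hcon
      push Not at hcon
      rcases hcon.lt_or_eq with h | h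
      · have := (hr2 k (max a 0) (le_max_right _ _)).2 h
        linarith
      · have h3 := hr1 k
        rw [h] at h3
        linarith
    · have ha0 : 0 ≤ a := by linarith
      have h2 := (hr02 a ha0).2 ha
      filter_upwards [(hcont a).eventually_const_lt h2] with k hk
      by_contra hcon
      push Not at hcon
      rcases hcon.lt_or_eq with h | h
      · have := (hr2 k a ha0).1 h
        linarith
      · have h3 := hr1 k
        rw [← h] at h3
        linarith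
  refine ⟨fun k => (r k : ℂ) * (rot k * ζ₀), fun k => ?_, fun k => ?_, ?_⟩
  · have := hr1 k
    rwa [smul_smul] at this
  · have h2 : (r k : ℂ) * (rot k * ζ₀) / ζ₀ = (r k : ℂ) * rot k := by
      field_simp
    simp only [h2]
    rw [Complex.im_ofReal_mul, hrot]
    simp only [Complex.exp_ofReal_mul_I_im]
    have h3 : σ * Real.sin (σ * θ k) = Real.sin (θ k) := by
      rcases hσ with h | h <;> rw [h]
      · simp
      · rw [neg_one_mul (θ k), Real.sin_neg]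
        ring
    have h4 : σ * (r k * Real.sin (σ * θ k)) = r k * Real.sin (θ k) := by
      rw [← h3]; ring
    rw [h4]
    exact mul_pos (hr0 k) (Real.sin_pos_of_pos_of_lt_pi (hθ0 k) (hθ1 k))
  · have h2 : Tendsto (fun k => (r k : ℂ) * (rot k * ζ₀)) atTop
        (𝓝 (((1 : ℝ) : ℂ) * (1 * ζ₀))) :=
      ((Complex.continuous_ofReal.tendsto _).comp hr).mul (hrlim.mul_const ζ₀)
    simpa using h2

end NAO

end

section

/-!
B4: normals along a sequence on a curve: first order information.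
-/

universe u

namespace NAO

open Filter Topology

theorem B4_re_le {X : Type u} [NormedAddCommGroup X] [NormedSpace ℂ X] {ψ : X →L[ℂ] ℂ} {y : X}
    (hψ : ‖ψ‖ ≤ 1) (hy : ‖y‖ = 1) : (ψ y).re ≤ 1 := by
  have h1 := ψ.le_opNorm y
  rw [hy, mul_one] at h1
  exact (Complex.re_le_norm _).trans (h1.trans hψ)

theorem B4_tendsto {X : Type u} [NormedAddCommGroup X] [NormedSpace ℂ X]
    {ψ : ℕ → X →L[ℂ] ℂ} {ψ₀ : X →L[ℂ] ℂ} {y : ℕ → X} {y₀ : X} (h : Tendsto ψ atTop (𝓝 ψ₀))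
    (hy : Tendsto y atTop (𝓝 y₀)) : Tendsto (fun k => ψ k (y k)) atTop (𝓝 (ψ₀ y₀)) :=
  (isBoundedBilinearMap_apply.continuous.tendsto (ψ₀, y₀)).comp (h.prodMk_nhds hy)

/-- The elementary estimate behind the last assertion. -/
theorem B4_est (n m u : ℂ) (D ε σ : ℝ) (hσ : σ = 1 ∨ σ = -1) (hD : 0 < D)
    (hP : 0 < m.re) (hu : ‖u‖ = ‖n‖ * D) (ha : |u.re| ≤ ε * D) (he0 : 0 ≤ ε)
    (he1 : ε ≤ ‖n‖ / 2) (he2 : ε * (|m.im| + 1) ≤ ‖n‖ / 2 * m.re) (hn : 0 < ‖n‖)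
    (hs : 0 < σ * (u.im * m.re - u.re * m.im)) : ‖n‖ / 2 * D ≤ σ * u.im := by
  have h1 : u.re ^ 2 + u.im ^ 2 = (‖n‖ * D) ^ 2 := by
    rw [← hu, ← Complex.normSq_eq_norm_sq, Complex.normSq_apply]
    ring
  have h2 : u.re ^ 2 ≤ (ε * D) ^ 2 := by
    rw [← sq_abs u.re]
    exact pow_le_pow_left₀ (abs_nonneg _) ha 2
  have h3 : (ε * D) ^ 2 ≤ (‖n‖ / 2 * D) ^ 2 :=
    pow_le_pow_left₀ (by positivity) (mul_le_mul_of_nonneg_right he1 hD.le) 2
  have hσ2 : σ ^ 2 = 1 := by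
    rcases hσ with rfl | rfl <;> norm_num
  have hσa : |σ| = 1 := by
    rcases hσ with rfl | rfl <;> simp
  have h4 : -(‖n‖ / 2 * D) * m.re < σ * u.im * m.re := by
    have h5 : |σ * (u.re * m.im)| ≤ ε * D * (|m.im| + 1) := by
      rw [abs_mul, hσa, one_mul, abs_mul]
      calc |u.re| * |m.im| ≤ (ε * D) * |m.im| := mul_le_mul_of_nonneg_right ha (abs_nonneg _)
        _ ≤ ε * D * (|m.im| + 1) := by
            apply mul_le_mul_of_nonneg_left _ (by positivity)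
            linarith
    have h6 : ε * D * (|m.im| + 1) ≤ ‖n‖ / 2 * D * m.re := by
      have := mul_le_mul_of_nonneg_right he2 hD.le
      nlinarith
    have h7 := (abs_le.1 h5).1
    nlinarith
  have h8 : -(‖n‖ / 2 * D) < σ * u.im := lt_of_mul_lt_mul_right h4 hP.le
  by_contra h9
  push Not at h9
  have h10 : (σ * u.im) ^ 2 < (‖n‖ / 2 * D) ^ 2 := sq_lt_sq' h8 h9
  have h11 : (σ * u.im) ^ 2 = u.im ^ 2 := by rw [mul_pow, hσ2, one_mul]
  have h12 : 0 < (‖n‖ * D) ^ 2 := by positivity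
  nlinarith

theorem itemB4 : SNor.{u} := by
  intro X _ _ _ p d ζ₀ σ ζ hp h₀ hσ hk him hlim
  have hdual : ∀ k, ∃ ψ : X →L[ℂ] ℂ, Nm ψ (p + ζ k • d) := by
    intro k
    obtain ⟨ψ, h1, h2⟩ := exists_dual_vector ℂ (p + ζ k • d) (by rw [hk k]; exact one_ne_zero)
    exact ⟨ψ, h1.le, by rw [h2, hk k]; norm_num⟩
  choose ψ' hψ' using hdual
  have : ProperSpace (X →L[ℂ] ℂ) := FiniteDimensional.proper ℂ _
  obtain ⟨ψ₀, hψ₀, φ, hφ, hconv⟩ := (isCompact_closedBall (0 : X →L[ℂ] ℂ) 1).tendsto_subseq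
    (x := ψ') (fun k => by rw [mem_closedBall_zero_iff]; exact (hψ' k).1)
  rw [mem_closedBall_zero_iff] at hψ₀
  have hζφ : Tendsto (fun k => ζ (φ k)) atTop (𝓝 ζ₀) := hlim.comp hφ.tendsto_atTop
  have hy : Tendsto (fun k => p + ζ (φ k) • d) atTop (𝓝 (p + ζ₀ • d)) :=
    tendsto_const_nhds.add (hζφ.smul_const d)
  have hψ₀y : ψ₀ (p + ζ₀ • d) = 1 := by
    have h1 : Tendsto (fun k => (ψ' (φ k)) (p + ζ (φ k) • d)) atTop (𝓝 (ψ₀ (p + ζ₀ • d))) :=
      B4_tendsto hconv hy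
    have h2 : (fun k => (ψ' (φ k)) (p + ζ (φ k) • d)) = fun _ => (1 : ℂ) := by
      funext k
      exact (hψ' (φ k)).2
    rw [h2] at h1
    exact tendsto_nhds_unique h1 tendsto_const_nhds
  set n : ℂ := ψ₀ d with hn
  have hsum : ψ₀ p + ζ₀ * n = 1 := by
    rw [← hψ₀y, map_add, map_smul, smul_eq_mul]
  have hpp : (ψ₀ p).re < 1 := by
    have h1 := ψ₀.le_opNorm p
    have h2 : ‖ψ₀ p‖ ≤ 1 * ‖p‖ := h1.trans (mul_le_mul_of_nonneg_right hψ₀ (norm_nonneg _))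
    exact lt_of_le_of_lt ((Complex.re_le_norm _).trans h2) (by linarith)
  have hP : 0 < (ζ₀ * n).re := by
    have := congrArg Complex.re hsum
    rw [Complex.add_re, Complex.one_re] at this
    linarith
  have hm0 : ζ₀ * n ≠ 0 := by
    intro h
    rw [h] at hP
    simp at hP
  have hn0 : n ≠ 0 := right_ne_zero_of_mul hm0
  have hζ0 : ζ₀ ≠ 0 := left_ne_zero_of_mul hm0
  have hne : ∀ k, ζ k ≠ ζ₀ := by
    intro k h
    have := him k
    rw [h, div_self hζ0] at this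
    simp at this
  have hle : ∀ k, (n * (ζ (φ k) - ζ₀)).re ≤ 0 := by
    intro k
    have h1 := B4_re_le hψ₀ (hk (φ k))
    have h2 : ψ₀ (p + ζ (φ k) • d) = 1 + n * (ζ (φ k) - ζ₀) := by
      rw [map_add, map_smul, smul_eq_mul, ← hsum]
      ring
    rw [h2, Complex.add_re, Complex.one_re] at h1
    linarith
  -- the values on `d`
  have hnk : Tendsto (fun k => ψ' (φ k) d) atTop (𝓝 n) := B4_tendsto hconv tendsto_const_nhds
  have heps : Tendsto (fun k => ‖n - ψ' (φ k) d‖) atTop (𝓝 0) := by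
    have h1 : Tendsto (fun k => n - ψ' (φ k) d) atTop (𝓝 (n - n)) := tendsto_const_nhds.sub hnk
    rw [sub_self] at h1
    simpa using h1.norm
  have hge : ∀ k, -(‖n - ψ' (φ k) d‖ * ‖ζ (φ k) - ζ₀‖) ≤ (n * (ζ (φ k) - ζ₀)).re := by
    intro k
    have h1 := B4_re_le (hψ' (φ k)).1 h₀
    have h2 : ψ' (φ k) (p + ζ₀ • d) = 1 - ψ' (φ k) d * (ζ (φ k) - ζ₀) := by
      rw [← (hψ' (φ k)).2, map_add, map_smul, smul_eq_mul, map_add, map_smul, smul_eq_mul]
      ring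
    rw [h2, Complex.sub_re, Complex.one_re] at h1
    have h3 : n * (ζ (φ k) - ζ₀) =
        ψ' (φ k) d * (ζ (φ k) - ζ₀) + (n - ψ' (φ k) d) * (ζ (φ k) - ζ₀) := by ring
    have h4 : -(‖n - ψ' (φ k) d‖ * ‖ζ (φ k) - ζ₀‖) ≤
        ((n - ψ' (φ k) d) * (ζ (φ k) - ζ₀)).re := by
      rw [← norm_mul]
      exact (abs_le.1 (Complex.abs_re_le_norm _)).1
    rw [h3, Complex.add_re]
    linarith
  have hD : ∀ k, 0 < ‖ζ (φ k) - ζ₀‖ := fun k => norm_pos_iff.2 (sub_ne_zero.2 (hne _))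
  refine ⟨φ, fun k => ψ' (φ k), ψ₀, hφ, fun k => hψ' (φ k), ⟨hψ₀, hψ₀y⟩, hn0,
    fun k => hne (φ k), hle, ?_, ?_⟩
  · have h1 : Tendsto (fun k => -‖n - ψ' (φ k) d‖) atTop (𝓝 0) := by
      simpa using heps.neg
    refine tendsto_of_tendsto_of_tendsto_of_le_of_le h1 tendsto_const_nhds ?_ ?_
    · intro k
      show -‖n - ψ' (φ k) d‖ ≤ (n * (ζ (φ k) - ζ₀)).re / ‖ζ (φ k) - ζ₀‖
      rw [le_div_iff₀ (hD k)]
      have := hge k
      linarith
    · intro k
      exact div_nonpos_of_nonpos_of_nonneg (hle k) (norm_nonneg _)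
  · have hnp : 0 < ‖n‖ := norm_pos_iff.2 hn0
    set ε₀ : ℝ := min (‖n‖ / 2) (‖n‖ / 2 * (ζ₀ * n).re / (|(ζ₀ * n).im| + 1)) with hε₀
    have hε₀p : 0 < ε₀ := lt_min (by positivity) (by positivity)
    have hev : ∀ᶠ k in atTop, ‖n - ψ' (φ k) d‖ < ε₀ := heps.eventually_lt_const hε₀p
    filter_upwards [hev] with k hk1
    apply B4_est n (ζ₀ * n) (n * (ζ (φ k) - ζ₀)) ‖ζ (φ k) - ζ₀‖ ‖n - ψ' (φ k) d‖ σ hσ (hD k) hP
    · rw [norm_mul]
    · rw [abs_le]
      exact ⟨hge k, (hle k).trans (by positivity)⟩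
    · exact norm_nonneg _
    · exact hk1.le.trans (min_le_left _ _)
    · have h1 := hk1.le.trans (min_le_right _ _)
      rwa [le_div_iff₀ (by positivity)] at h1
    · exact hnp
    · have h1 := him (φ k)
      have h2 : ζ (φ k) / ζ₀ = 1 + n * (ζ (φ k) - ζ₀) / (ζ₀ * n) := by
        field_simp
        ring
      rw [h2, Complex.add_im, Complex.one_im, zero_add, Complex.div_im] at h1
      have h3 : 0 < Complex.normSq (ζ₀ * n) := Complex.normSq_pos.2 hm0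
      have h4 : (n * (ζ (φ k) - ζ₀)).im * (ζ₀ * n).re / Complex.normSq (ζ₀ * n) -
          (n * (ζ (φ k) - ζ₀)).re * (ζ₀ * n).im / Complex.normSq (ζ₀ * n) =
          ((n * (ζ (φ k) - ζ₀)).im * (ζ₀ * n).re - (n * (ζ (φ k) - ζ₀)).re * (ζ₀ * n).im) /
            Complex.normSq (ζ₀ * n) := by ring
      rw [h4, ← mul_div_assoc] at h1
      exact (div_pos_iff_of_pos_right h3).1 h1

end NAO

end

section

/-!
Item B5 (MP_9dede5_an): the numerical estimate behind (LP).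
-/

universe u

namespace NAO

open Filter Topology

/-- The pointwise estimate. -/
theorem b5_pt (e Er Ei ωr γ Q D a β b wi C : ℝ) (he : 0 < e) (hEr : 0 < Er) (hωr : 0 < ωr)
    (hγ : 0 < γ) (hQ : 0 < Q) (hD : 0 ≤ D) (ha : 0 ≤ a) (hβ : 0 < β) (haβ : a ≤ β)
    (hb : |b| = β) (hwi : |wi| = γ) (hbw : b * wi = β * γ)
    (hC : C = |Ei| / Er + (ωr + γ) / γ)
    (hX1 : (C ^ 2 + 1) * (D * Er + Q * β * γ) ≤ e)
    (hX2 : 2 * (D * Er + Q * β * γ) + Q * a * ωr ≤ 2 * e) :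
    Real.sqrt ((e - D * Er - Q * (a * ωr + b * wi)) ^ 2 +
      (-(D * Ei) + Q * (b * ωr - a * wi)) ^ 2) ≤ e - (D * Er + Q * β * γ) / 2 := by
  set X : ℝ := D * Er + Q * β * γ with hX
  have hX0 : 0 < X := by positivity
  have hC0 : 0 ≤ C := by rw [hC]; positivity
  have hXe : X ≤ e := by nlinarith [sq_nonneg C]
  have hre1 : e - D * Er - Q * (a * ωr + b * wi) ≤ e - X := by
    rw [hbw, hX]
    have : 0 ≤ Q * (a * ωr) := by positivity
    nlinarith
  have hre2 : -(e - X) ≤ e - D * Er - Q * (a * ωr + b * wi) := by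
    rw [hbw]
    have : e - D * Er - Q * (a * ωr + β * γ) = e - X - Q * a * ωr := by rw [hX]; ring
    rw [this]
    linarith
  have him : |-(D * Ei) + Q * (b * ωr - a * wi)| ≤ C * X := by
    have e1 : |-(D * Ei) + Q * (b * ωr - a * wi)| ≤ D * |Ei| + Q * (β * ωr + a * γ) := by
      refine (abs_add_le _ _).trans ?_
      rw [abs_neg, abs_mul, abs_mul, abs_of_nonneg hD, abs_of_pos hQ]
      have : |b * ωr - a * wi| ≤ β * ωr + a * γ := by
        refine (abs_sub _ _).trans ?_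
        rw [abs_mul, abs_mul, abs_of_pos hωr, abs_of_nonneg ha, hb, hwi]
      have := mul_le_mul_of_nonneg_left this hQ.le
      linarith
    refine e1.trans ?_
    have e2 : D * |Ei| = |Ei| / Er * (D * Er) := by field_simp
    have e3 : Q * (β * ωr + a * γ) ≤ (ωr + γ) / γ * (Q * β * γ) := by
      have : (ωr + γ) / γ * (Q * β * γ) = Q * (β * ωr + β * γ) := by field_simp
      rw [this]
      have := mul_le_mul_of_nonneg_right haβ hγ.le
      have := mul_le_mul_of_nonneg_left this hQ.le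
      nlinarith
    have f1 : 0 ≤ |Ei| / Er := by positivity
    have f2 : 0 ≤ (ωr + γ) / γ := by positivity
    have f3 : 0 ≤ D * Er := by positivity
    have f4 : 0 ≤ Q * β * γ := by positivity
    rw [hC, hX, e2]
    nlinarith [mul_nonneg f1 f4, mul_nonneg f2 f3]
  have hsq1 : (e - D * Er - Q * (a * ωr + b * wi)) ^ 2 ≤ (e - X) ^ 2 := by
    rw [sq_le_sq, abs_of_nonneg (by linarith : 0 ≤ e - X), abs_le]
    exact ⟨hre2, hre1⟩
  have hsq2 : (-(D * Ei) + Q * (b * ωr - a * wi)) ^ 2 ≤ (C * X) ^ 2 := by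
    rw [sq_le_sq, abs_of_nonneg (mul_nonneg hC0 hX0.le)]
    exact him
  rw [show e - X / 2 = Real.sqrt ((e - X / 2) ^ 2) from
    (Real.sqrt_sq (by linarith)).symm]
  apply Real.sqrt_le_sqrt
  have : (e - X) ^ 2 + (C * X) ^ 2 ≤ (e - X / 2) ^ 2 := by
    have h2 : (C ^ 2 + 1) * X * X ≤ e * X := mul_le_mul_of_nonneg_right hX1 hX0.le
    nlinarith [sq_nonneg X]
  linarith

theorem itemB5 : SEst := by
  intro c e R T₀ σ κ E ω T s u he hc hR hT₀ hκ hσ hE hωr hωi hT hTle hs0 hs hu hure huo hui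
  have hσ2 : σ * σ = 1 := by rcases hσ with h | h <;> rw [h] <;> norm_num
  have hσabs : |σ| = 1 := by rcases hσ with h | h <;> rw [h] <;> norm_num
  have hc' : 0 < 1 - c := by linarith
  set γ : ℝ := σ * ω.im with hγ
  set C : ℝ := |E.im| / E.re + (ω.re + γ) / γ with hC
  have tre : Tendsto (fun k => (u k).re) atTop (𝓝 0) := by
    have := (Complex.continuous_re.tendsto 0).comp hu
    rw [Complex.zero_re] at this
    exact this
  have tim : Tendsto (fun k => (u k).im) atTop (𝓝 0) := by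
    have := (Complex.continuous_im.tendsto 0).comp hu
    rw [Complex.zero_im] at this
    exact this
  have tX : Tendsto (fun k => (T₀ - T k) * E.re + T k * R * (σ * (u k).im) * γ) atTop (𝓝 0) := by
    have h1 : Tendsto (fun k => (T₀ - T k) * E.re + T k * R * (σ * (u k).im) * γ) atTop
        (𝓝 ((T₀ - T₀) * E.re + T₀ * R * (σ * 0) * γ)) :=
      ((tendsto_const_nhds.sub hT).mul_const _).add
        (((hT.mul_const R).mul (tim.const_mul σ)).mul_const γ)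
    simpa using h1
  have tY : Tendsto (fun k => T k * R * (-(u k).re) * ω.re) atTop (𝓝 0) := by
    have h1 : Tendsto (fun k => T k * R * (-(u k).re) * ω.re) atTop
        (𝓝 (T₀ * R * (-0) * ω.re)) :=
      ((hT.mul_const R).mul tre.neg).mul_const _
    simpa using h1
  have tR : Tendsto (fun k => R * (-(u k).re) / (1 - c)) atTop (𝓝 0) := by
    have h1 : Tendsto (fun k => R * (-(u k).re) / (1 - c)) atTop (𝓝 (R * (-0) / (1 - c))) :=
      (tre.neg.const_mul R).div_const _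
    simpa using h1
  have ev1 : ∀ᶠ k in atTop, (C ^ 2 + 1) *
      ((T₀ - T k) * E.re + T k * R * (σ * (u k).im) * γ) ≤ e := by
    have h1 := tX.const_mul (C ^ 2 + 1)
    rw [mul_zero] at h1
    filter_upwards [h1.eventually_lt_const he] with k hk using hk.le
  have ev2 : ∀ᶠ k in atTop, 2 * ((T₀ - T k) * E.re + T k * R * (σ * (u k).im) * γ) +
      T k * R * (-(u k).re) * ω.re ≤ 2 * e := by
    have h1 := (tX.const_mul 2).add tY
    rw [mul_zero, add_zero] at h1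
    filter_upwards [h1.eventually_lt_const (by linarith : 0 < 2 * e)] with k hk using hk.le
  have ev3 : ∀ᶠ k in atTop, R * (-(u k).re) / (1 - c) < 1 :=
    tR.eventually_lt_const one_pos
  have ev4 : ∀ᶠ k in atTop, T₀ / 2 < T k := hT.eventually_const_lt (by linarith)
  have ev5 : ∀ᶠ k in atTop, -κ < (u k).re / s k :=
    huo.eventually_const_lt (by linarith)
  have hq : 0 < (1 - c) * (T₀ * γ * κ / 4) := by positivity
  have ev6 : ∀ᶠ k in atTop, -((1 - c) * (T₀ * γ * κ / 4)) < (u k).re / s k :=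
    huo.eventually_const_lt (by linarith)
  filter_upwards [ev1, ev2, ev3, ev4, ev5, ev6, hui] with k k1 k2 k3 k4 k5 k6 k7
  refine ⟨k3.le, ?_⟩
  have hsk := hs0 k
  have ha0 : 0 ≤ -(u k).re := by linarith [hure k]
  have hTk : 0 < T k := by linarith
  have hβ : 0 < σ * (u k).im := lt_of_lt_of_le (mul_pos hκ hsk) k7
  have a1 : -(u k).re < κ * s k := by
    rw [lt_div_iff₀ hsk] at k5
    linarith
  have a2 : -(u k).re < (1 - c) * (T₀ * γ * κ / 4) * s k := by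
    rw [lt_div_iff₀ hsk] at k6
    linarith
  have hbabs : |(u k).im| = σ * (u k).im := by
    rw [← abs_of_pos hβ, abs_mul, hσabs, one_mul]
  have hwabs : |ω.im| = γ := by
    rw [← abs_of_pos hωi, hγ, abs_mul, hσabs, one_mul]
  have hbw : (u k).im * ω.im = σ * (u k).im * γ := by
    rw [hγ]
    calc (u k).im * ω.im = (σ * σ) * ((u k).im * ω.im) := by rw [hσ2, one_mul]
      _ = σ * (u k).im * (σ * ω.im) := by ring
  have key := b5_pt e E.re E.im ω.re γ (T k * R) (T₀ - T k) (-(u k).re) (σ * (u k).im)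
    (u k).im ω.im C he hE hωr hωi (mul_pos hTk hR) (by linarith [hTle k]) ha0 hβ
    (by linarith) hbabs hwabs hbw hC k1 k2
  have hnorm : ‖(e : ℂ) - ((T₀ - T k : ℝ) : ℂ) * E + ((T k * R : ℝ) : ℂ) * (ω * u k)‖ =
      Real.sqrt ((e - (T₀ - T k) * E.re -
        T k * R * (-(u k).re * ω.re + (u k).im * ω.im)) ^ 2 +
      (-((T₀ - T k) * E.im) + T k * R * ((u k).im * ω.re - -(u k).re * ω.im)) ^ 2) := by
    rw [Complex.norm_eq_sqrt_sq_add_sq]
    congr 1
    have hre : ((e : ℂ) - ((T₀ - T k : ℝ) : ℂ) * E + ((T k * R : ℝ) : ℂ) * (ω * u k)).re =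
        e - (T₀ - T k) * E.re - T k * R * (-(u k).re * ω.re + (u k).im * ω.im) := by
      rw [Complex.add_re, Complex.sub_re, Complex.re_ofReal_mul, Complex.re_ofReal_mul,
        Complex.ofReal_re, Complex.mul_re]
      ring
    have him : ((e : ℂ) - ((T₀ - T k : ℝ) : ℂ) * E + ((T k * R : ℝ) : ℂ) * (ω * u k)).im =
        -((T₀ - T k) * E.im) + T k * R * ((u k).im * ω.re - -(u k).re * ω.im) := by
      rw [Complex.add_im, Complex.sub_im, Complex.im_ofReal_mul, Complex.im_ofReal_mul,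
        Complex.ofReal_im, Complex.mul_im]
      ring
    rw [hre, him]
  rw [hnorm]
  have h5 : R * (-(u k).re) / (1 - c) <
      ((T₀ - T k) * E.re + T k * R * (σ * (u k).im) * γ) / 2 := by
    have b1 : R * (-(u k).re) / (1 - c) < R * (T₀ * γ * κ / 4) * s k := by
      rw [div_lt_iff₀ hc']
      have := mul_lt_mul_of_pos_left a2 hR
      linarith
    have b2 : T₀ / 2 * R * (κ * s k) * γ ≤ T k * R * (σ * (u k).im) * γ := by
      have c1 : T₀ / 2 * R ≤ T k * R := mul_le_mul_of_nonneg_right k4.le hR.le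
      have c2 : T₀ / 2 * R * (κ * s k) ≤ T k * R * (σ * (u k).im) :=
        mul_le_mul c1 k7 (mul_pos hκ hsk).le (mul_pos hTk hR).le
      exact mul_le_mul_of_nonneg_right c2 hωi.le
    have b3 : 0 ≤ (T₀ - T k) * E.re := mul_nonneg (by linarith [hTle k]) hE.le
    linarith
  linarith

end NAO

end

section

/-!
B6. (LP): on every complex affine line in the slice the phase is real somewhere.
-/

universe u

namespace NAO

open Filter Topology

theorem itemB6 (h1 : SRay.{u}) (h3 : SS.{u}) (h4 : SPos.{u}) (h5 : SCur.{u})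
    (h6 : SNor.{u}) (h7 : SEst) : SLP.{u} := by
  intro X _ _ _ c e H w f T Om hw hf fw F p d fp np hd fd
  have hfy : ∀ ζ : ℂ, f (p + ζ • d) = (e : ℂ) := fun ζ => by simp [fp, fd]
  -- the compact curve
  set Gam : Set ℂ := {ζ : ℂ | ‖p + ζ • d‖ = 1} with hGam
  have hcl : IsClosed Gam := isClosed_eq (by fun_prop) continuous_const
  have hdn : 0 < ‖d‖ := norm_pos_iff.mpr hd
  have hbd : Bornology.IsBounded Gam := by
    rw [isBounded_iff_forall_norm_le]
    refine ⟨2 / ‖d‖, fun ζ hζ => ?_⟩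
    rw [le_div_iff₀ hdn]
    have h : ‖ζ • d‖ ≤ ‖p + ζ • d‖ + ‖p‖ := by
      have := norm_sub_le (p + ζ • d) p
      simpa using this
    rw [norm_smul] at h
    have : ‖p + ζ • d‖ = 1 := hζ
    linarith
  have hcp : IsCompact Gam := Metric.isCompact_of_isClosed_isBounded hcl hbd
  obtain ⟨r, _, hr, _⟩ := h1 X p d np hd
  have hne : Gam.Nonempty := ⟨(r : ℂ), hr⟩
  have hcont : ContinuousOn (fun ζ : ℂ => T (p + ζ • d)) Gam := by
    refine F.contT.comp (f := fun ζ : ℂ => p + ζ • d) ?_ ?_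
    · exact (by fun_prop : Continuous fun ζ : ℂ => p + ζ • d).continuousOn
    · intro ζ hζ
      exact ⟨hζ, hfy ζ⟩
  obtain ⟨ζ₀, hζ₀, hmax⟩ := hcp.exists_isMaxOn hne hcont
  have h0 : ‖p + ζ₀ • d‖ = 1 := hζ₀
  by_cases him : (Om (p + ζ₀ • d)).im = 0
  · exact ⟨ζ₀, h0, him⟩
  exfalso
  obtain ⟨σ, hσ, hσim⟩ : ∃ σ : ℝ, (σ = 1 ∨ σ = -1) ∧ 0 < σ * (Om (p + ζ₀ • d)).im := by
    rcases lt_or_gt_of_ne him with h | h
    · exact ⟨-1, Or.inr rfl, by linarith⟩
    · exact ⟨1, Or.inl rfl, by linarith⟩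
  obtain ⟨ζ, hζ1, hζ2, hζ3⟩ := h5 X p d ζ₀ σ np hd h0 hσ
  obtain ⟨φ, ψ, ψ₀, hφ, hψ, hψ₀, hψ₀d, hζne, hre, hrt, him2⟩ :=
    h6 X p d ζ₀ σ ζ np h0 hσ hζ1 hζ2 hζ3
  set y₀ : X := p + ζ₀ • d with hy₀
  have hAl := F.al y₀ h0 (hfy ζ₀)
  have hOm := F.om y₀ h0 (hfy ζ₀)
  have hT0 := F.tpos y₀ h0 (hfy ζ₀)
  set T₀ : ℝ := T y₀ with hT₀
  set x₀ : X := (c : ℂ) • w + (T₀ : ℂ) • (y₀ - (e : ℂ) • w) with hx₀
  obtain ⟨g, R, hg, hR, hgR⟩ := h3 X c e H w f x₀ y₀ T₀⁻¹ hAl ψ₀ hψ₀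
  set ω : ℂ := Om y₀ with hω
  obtain ⟨hE, hωre⟩ := h4 X c e H w f x₀ y₀ T₀⁻¹ hAl ω hOm g hg
  have hgx0 : ω * g x₀ = (e : ℂ) := hOm.eq g hg
  have hgd : g d = (R : ℂ) * ψ₀ d := hgR d fd
  -- the sequences
  set z : ℕ → ℂ := fun k => ζ (φ k) with hz
  have hzt : Tendsto z atTop (𝓝 ζ₀) := hζ3.comp hφ.tendsto_atTop
  set u : ℕ → ℂ := fun k => ψ₀ d * (z k - ζ₀) with hu
  set s : ℕ → ℝ := fun k => ‖z k - ζ₀‖ with hs
  set Tk : ℕ → ℝ := fun k => T (p + z k • d) with hTk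
  have hz1 : ∀ k, ‖p + z k • d‖ = 1 := fun k => hζ1 (φ k)
  have hsub : Tendsto (fun k => z k - ζ₀) atTop (𝓝 0) := by
    have := hzt.sub_const ζ₀
    simpa using this
  have hut : Tendsto u atTop (𝓝 0) := by
    have := hsub.const_mul (ψ₀ d)
    simpa using this
  have hst : Tendsto s atTop (𝓝 0) := by
    have := hsub.norm
    simpa using this
  have hspos : ∀ k, 0 < s k := fun k => norm_pos_iff.mpr (sub_ne_zero.mpr (hζne k))
  have hTt : Tendsto Tk atTop (𝓝 T₀) := by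
    have hw' : Tendsto z atTop (𝓝[Gam] ζ₀) :=
      tendsto_nhdsWithin_iff.mpr ⟨hzt, Eventually.of_forall fun k => hz1 k⟩
    exact (hcont ζ₀ hζ₀).tendsto.comp hw'
  have hTle : ∀ k, Tk k ≤ T₀ := fun k => hmax (hz1 k)
  have hκ : 0 < ‖ψ₀ d‖ / 2 := by
    have := norm_pos_iff.mpr hψ₀d
    linarith
  have hfin := h7 c e R T₀ σ (‖ψ₀ d‖ / 2) (ω * ((c : ℂ) - (e : ℂ) * g w)) ω Tk s u
    H.par.e0 H.par.c1 hR hT0 hκ hσ hE hωre hσim hTt hTle hspos hst hut hre hrt him2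
  obtain ⟨k, hτ1, hlt⟩ := hfin.exists
  have huk : (u k).re ≤ 0 := hre k
  have hc1 : 0 < 1 - c := by linarith [H.par.c1]
  set τ : ℝ := R * (-(u k).re) / (1 - c) with hτ
  have hτ0 : 0 ≤ τ := by
    apply div_nonneg _ hc1.le
    exact mul_nonneg hR.le (by linarith)
  have hτeq : τ * (1 - c) = - (R * (u k).re) := by
    rw [hτ]; field_simp
  set yk : X := p + z k • d with hyk
  set xk : X := (c : ℂ) • w + (Tk k : ℂ) • (yk - (e : ℂ) • w) with hxk
  have hAlk := F.al yk (hz1 k) (hfy (z k))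
  have hyk2 : yk = y₀ + (z k - ζ₀) • d := by
    rw [hyk, hy₀, sub_smul]; abel
  have hgyk : g yk = (c : ℂ) + (R : ℂ) * u k := by
    rw [hyk2, map_add, map_smul, hgd, hg.2.1, smul_eq_mul, hu]; ring
  have hgxk : ω * g xk = (e : ℂ) - ((T₀ - Tk k : ℝ) : ℂ) * (ω * ((c : ℂ) - (e : ℂ) * g w))
      + ((Tk k * R : ℝ) : ℂ) * (ω * u k) := by
    have a1 : g xk = (c : ℂ) * g w + (Tk k : ℂ) * (((c : ℂ) + (R : ℂ) * u k) - (e : ℂ) * g w) := by
      rw [hxk, map_add, map_smul, map_smul, map_sub, map_smul, hgyk]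
      simp only [smul_eq_mul]
    have a2 : g x₀ = (c : ℂ) * g w + (T₀ : ℂ) * ((c : ℂ) - (e : ℂ) * g w) := by
      rw [hx₀, map_add, map_smul, map_smul, map_sub, map_smul, hg.2.1]
      simp only [smul_eq_mul]
    push_cast
    linear_combination ω * a1 + hgx0 - ω * a2
  have hnx : ‖g xk‖ + τ < e := by
    have : ‖g xk‖ = ‖ω * g xk‖ := by rw [norm_mul, hOm.nrm, one_mul]
    rw [this, hgxk]
    exact hlt
  -- the modified functional
  obtain ⟨hψk1, hψk2⟩ := hψ k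
  set g' : X →L[ℂ] ℂ := ((1 - τ : ℝ) : ℂ) • g + (τ : ℂ) • ψ k with hg'
  have h1τ : 0 ≤ 1 - τ := by linarith
  have hg'n : ‖g'‖ ≤ 1 := by
    calc ‖g'‖ ≤ ‖((1 - τ : ℝ) : ℂ) • g‖ + ‖(τ : ℂ) • ψ k‖ := norm_add_le _ _
      _ = (1 - τ) * ‖g‖ + τ * ‖ψ k‖ := by
          rw [norm_smul, norm_smul, Complex.norm_real, Complex.norm_real, Real.norm_of_nonneg h1τ,
            Real.norm_of_nonneg hτ0]
      _ ≤ (1 - τ) * 1 + τ * 1 := by
          gcongr
          exact hg.1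
      _ = 1 := by ring
  have hg'y : c ≤ ‖g' yk‖ := by
    have e1 : g' yk = ((1 - τ : ℝ) : ℂ) * ((c : ℂ) + (R : ℂ) * u k) + (τ : ℂ) := by
      simp only [hg', ContinuousLinearMap.add_apply, ContinuousLinearMap.smul_apply, smul_eq_mul]
      have : ψ k yk = 1 := hψk2
      rw [hgyk, this, mul_one]
    have e2 : (g' yk).re = (1 - τ) * (c + R * (u k).re) + τ := by
      rw [e1]
      simp [Complex.add_re, Complex.mul_re]
    have e3 : c ≤ (g' yk).re := by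
      rw [e2]
      nlinarith [mul_nonneg hτ0 (mul_nonneg hR.le (neg_nonneg.mpr huk))]
    exact e3.trans (Complex.re_le_norm _)
  have hk1 := H.k1 w f xk yk (Tk k)⁻¹ hAlk g' hg'n hg'y
  have hg'x : ‖g' xk‖ ≤ ‖g xk‖ + τ := by
    have e1 : g' xk = ((1 - τ : ℝ) : ℂ) * g xk + (τ : ℂ) * ψ k xk := by
      simp only [hg', ContinuousLinearMap.add_apply, ContinuousLinearMap.smul_apply, smul_eq_mul]
    have hx1 : ‖xk‖ = 1 := hAlk.nx
    have e2 : ‖ψ k xk‖ ≤ 1 := by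
      calc ‖ψ k xk‖ ≤ ‖ψ k‖ * ‖xk‖ := (ψ k).le_opNorm _
        _ ≤ 1 * 1 := by rw [hx1]; gcongr
        _ = 1 := one_mul 1
    calc ‖g' xk‖ ≤ ‖((1 - τ : ℝ) : ℂ) * g xk‖ + ‖(τ : ℂ) * ψ k xk‖ := by
          rw [e1]; exact norm_add_le _ _
      _ = (1 - τ) * ‖g xk‖ + τ * ‖ψ k xk‖ := by
          rw [norm_mul, norm_mul, Complex.norm_real, Complex.norm_real, Real.norm_of_nonneg h1τ,
            Real.norm_of_nonneg hτ0]
      _ ≤ 1 * ‖g xk‖ + τ * 1 := by
          gcongr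
          linarith
      _ = ‖g xk‖ + τ := by ring
  linarith

end NAO

end

section

/-!
# Item B7: Theorem A, the phase is trivial.
-/

universe u

namespace NAO

open Filter Topology

namespace ItemB7

/-- A nonzero vector killed by two functionals in dimension at least three. -/
theorem exists_ker_two {X : Type u} [NormedAddCommGroup X] [NormedSpace ℂ X]
    [FiniteDimensional ℂ X] (h3 : 3 ≤ Module.finrank ℂ X) (f g : X →L[ℂ] ℂ) :
    ∃ d : X, d ≠ 0 ∧ f d = 0 ∧ g d = 0 := by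
  have hker := LinearMap.ker_ne_bot_of_finrank_lt
    (f := ((f : X →ₗ[ℂ] ℂ).prod (g : X →ₗ[ℂ] ℂ))) (by
      rw [Module.finrank_prod, Module.finrank_self]
      omega)
  obtain ⟨d, hd, hd0⟩ := (Submodule.ne_bot_iff _).1 hker
  rw [LinearMap.mem_ker] at hd
  have h1 : (f d, g d) = ((0 : ℂ), (0 : ℂ)) := hd
  rw [Prod.mk.injEq] at h1
  exact ⟨d, hd0, h1.1, h1.2⟩

/-- A norming functional. -/
theorem exists_nm {X : Type u} [NormedAddCommGroup X] [NormedSpace ℂ X] (y : X) (hy : ‖y‖ = 1) :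
    ∃ ψ : X →L[ℂ] ℂ, Nm ψ y := by
  have hne : ‖y‖ ≠ 0 := by
    rw [hy]
    exact one_ne_zero
  obtain ⟨ψ, h1, h2⟩ := exists_dual_vector ℂ y hne
  refine ⟨ψ, h1.le, ?_⟩
  rw [h2, hy]
  norm_num

end ItemB7

open ItemB7 in
theorem itemB7 (h1 : SAlB.{u}) (h1' : SAlT.{u}) (h2 : SFib.{u}) (h3 : SLP.{u}) (h4 : SFC.{u})
    (h5 : SPos.{u}) : SThmA.{u} := by
  intro X _ _ _ c e hdim hK w f x y L hAl g hg
  have hpar := hK.par
  have he0 := hpar.e0
  have hec := hpar.ec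
  have hc1 := hpar.c1
  have he1 : e < 1 := hec.trans hc1
  obtain ⟨-, hfy, -⟩ := h1 X c e hpar w f x y L hAl
  obtain ⟨T, Om, hF⟩ := h2 X c e hK w f hAl.nw hAl.nf hAl.fw
  -- identify the aligned point
  obtain ⟨T0, hT0, -, huniq⟩ := h1' X c e hpar w f y hAl.nw hAl.nf hAl.fw hAl.ny hfy
  have hLne : (L : ℂ) ≠ 0 := by exact_mod_cast hAl.pos.ne'
  have hx : (c : ℂ) • w + ((L⁻¹ : ℝ) : ℂ) • (y - (e : ℂ) • w) = x := by
    have hy := hAl.yeq
    have : y - (e : ℂ) • w = (L : ℂ) • (x - (c : ℂ) • w) := by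
      rw [hy, add_sub_cancel_left]
    rw [this, smul_smul, Complex.ofReal_inv, inv_mul_cancel₀ hLne, one_smul, add_sub_cancel]
  have hL0 : L⁻¹ = T0 := by
    refine huniq L⁻¹ (inv_pos.2 hAl.pos) ?_
    rw [hx]
    exact hAl.nx
  have hTy : T y = T0 := huniq (T y) (hF.tpos y hAl.ny hfy) (hF.al y hAl.ny hfy).nx
  have hOm : IsOm c e x y (Om y) := by
    have := hF.om y hAl.ny hfy
    rw [hTy, ← hL0, hx] at this
    exact this
  obtain ⟨ψ, hψ⟩ := exists_nm y hAl.ny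
  obtain ⟨d, hd0, hfd, hψd⟩ := exists_ker_two hdim f ψ
  have hdn : 0 < ‖d‖ := norm_pos_iff.2 hd0
  -- the points p_k
  set ρ : ℕ → ℝ := fun k => 1 - 1 / ((k : ℝ) + 2) with hρ
  have hρpos : ∀ k, 0 < 1 - ρ k := fun k => by
    simp only [hρ]
    have : (0 : ℝ) < (k : ℝ) + 2 := by positivity
    have := one_div_pos.2 this
    linarith
  have hρ0 : ∀ k, 0 ≤ ρ k := fun k => by
    simp only [hρ]
    have h2 : (1 : ℝ) ≤ (k : ℝ) + 2 := by
      have : (0 : ℝ) ≤ (k : ℝ) := Nat.cast_nonneg k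
      linarith
    have := (div_le_one (lt_of_lt_of_le zero_lt_one h2)).2 h2
    linarith
  set p : ℕ → X := fun k => (e : ℂ) • w + ((ρ k : ℝ) : ℂ) • (y - (e : ℂ) • w) with hp
  have hfp : ∀ k, f (p k) = (e : ℂ) := fun k => by
    simp only [hp, map_add, map_smul, map_sub, hAl.fw, hfy, smul_eq_mul, mul_one, sub_self,
      mul_zero, add_zero]
  have hpn : ∀ k, ‖p k‖ < 1 := fun k => by
    have hdec : p k = (((1 - ρ k) * e : ℝ) : ℂ) • w + ((ρ k : ℝ) : ℂ) • y := by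
      simp only [hp]
      push_cast
      module
    rw [hdec]
    calc ‖(((1 - ρ k) * e : ℝ) : ℂ) • w + ((ρ k : ℝ) : ℂ) • y‖
        ≤ ‖(((1 - ρ k) * e : ℝ) : ℂ) • w‖ + ‖((ρ k : ℝ) : ℂ) • y‖ := norm_add_le _ _
      _ = (1 - ρ k) * e + ρ k := by
          rw [norm_smul, norm_smul, hAl.nw, hAl.ny, mul_one, mul_one, Complex.norm_real,
            Complex.norm_real, Real.norm_of_nonneg (mul_nonneg (hρpos k).le he0.le),
            Real.norm_of_nonneg (hρ0 k)]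
      _ < 1 := by nlinarith [hρpos k, hρ0 k]
  choose ζ hζ1 hζ2 using fun k => h3 X c e hK w f T Om hAl.nw hAl.nf hAl.fw hF (p k) d (hfp k)
    (hpn k) hd0 hfd
  have hbd : ∀ k, ζ k ∈ Metric.closedBall (0 : ℂ) (2 / ‖d‖) := fun k => by
    rw [mem_closedBall_zero_iff, le_div_iff₀ hdn, ← norm_smul]
    calc ‖ζ k • d‖ = ‖(p k + ζ k • d) - p k‖ := by rw [add_sub_cancel_left]
      _ ≤ ‖p k + ζ k • d‖ + ‖p k‖ := norm_sub_le _ _
      _ ≤ 1 + 1 := add_le_add (hζ1 k).le (hpn k).le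
      _ = 2 := by norm_num
  obtain ⟨ζ₀, -, φ, hφ, hlim⟩ := (isCompact_closedBall (0 : ℂ) (2 / ‖d‖)).tendsto_subseq hbd
  have hρlim : Tendsto ρ atTop (𝓝 1) := by
    have h1 : Tendsto (fun k : ℕ => 1 / ((k : ℝ) + 2)) atTop (𝓝 0) := by
      have h2 : Tendsto (fun k : ℕ => (k : ℝ) + 2) atTop atTop :=
        tendsto_atTop_add_const_right _ _ tendsto_natCast_atTop_atTop
      refine (tendsto_inv_atTop_zero.comp h2).congr fun k => ?_
      simp
    have := (tendsto_const_nhds (x := (1 : ℝ))).sub h1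
    simpa [hρ] using this
  have hplim : Tendsto p atTop (𝓝 y) := by
    have h2 : Tendsto (fun k => ((ρ k : ℝ) : ℂ)) atTop (𝓝 ((1 : ℝ) : ℂ)) :=
      (Complex.continuous_ofReal.tendsto 1).comp hρlim
    have h3 := (tendsto_const_nhds (x := (e : ℂ) • w)).add
      (h2.smul (tendsto_const_nhds (x := y - (e : ℂ) • w)))
    have h4 : (e : ℂ) • w + ((1 : ℝ) : ℂ) • (y - (e : ℂ) • w) = y := by
      rw [Complex.ofReal_one, one_smul, add_sub_cancel]
    rw [h4] at h3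
    exact h3
  set y' : X := y + ζ₀ • d with hy'
  have hylim : Tendsto (fun k => p (φ k) + ζ (φ k) • d) atTop (𝓝 y') :=
    (hplim.comp hφ.tendsto_atTop).add (hlim.smul (tendsto_const_nhds (x := d)))
  have hny' : ‖y'‖ = 1 := by
    have h := hylim.norm
    have h' : Tendsto (fun k => ‖p (φ k) + ζ (φ k) • d‖) atTop (𝓝 1) := by
      have he : (fun k => ‖p (φ k) + ζ (φ k) • d‖) = fun _ => (1 : ℝ) := by
        funext k
        exact hζ1 (φ k)
      rw [he]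
      exact tendsto_const_nhds
    exact tendsto_nhds_unique h h'
  have hfy' : f y' = (e : ℂ) := by
    rw [hy', map_add, map_smul, hfd, smul_zero, add_zero, hfy]
  have hψy' : Nm ψ y' := by
    refine ⟨hψ.1, ?_⟩
    rw [hy', map_add, map_smul, hψd, smul_zero, add_zero, hψ.2]
  -- continuity of the phase
  have hOlim : Tendsto (fun k => Om (p (φ k) + ζ (φ k) • d)) atTop (𝓝 (Om y')) := by
    have hc := hF.contO y' ⟨hny', hfy'⟩
    refine hc.tendsto.comp (tendsto_nhdsWithin_iff.2 ⟨hylim, Eventually.of_forall fun k => ?_⟩)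
    refine ⟨hζ1 (φ k), ?_⟩
    rw [map_add, map_smul, hfd, smul_zero, add_zero, hfp]
  have him : (Om y').im = 0 := by
    have h := (Complex.continuous_im.tendsto (Om y')).comp hOlim
    have h' : Tendsto (Complex.im ∘ fun k => Om (p (φ k) + ζ (φ k) • d)) atTop (𝓝 0) := by
      have he : (Complex.im ∘ fun k => Om (p (φ k) + ζ (φ k) • d)) = fun _ => (0 : ℝ) := by
        funext k
        exact hζ2 (φ k)
      rw [he]
      exact tendsto_const_nhds
    exact tendsto_nhds_unique h h'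
  have hOO : Om y = Om y' :=
    (h4 X c e hK w f T Om hAl.nw hAl.nf hAl.fw hF ψ y y' hAl.ny hfy hny' hfy' hψ hψy').2
  have hre := (h5 X c e hK w f x y L hAl (Om y) hOm g hg).2
  have hnrm := hOm.nrm
  have hone : Om y = 1 := by
    rw [← hOO] at him
    have h2 : Om y = ((Om y).re : ℂ) := by
      apply Complex.ext
      · simp
      · simp [him]
    rw [h2, Complex.norm_real, Real.norm_of_nonneg hre.le] at hnrm
    rw [h2, hnrm, Complex.ofReal_one]
  have := hOm.eq g hg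
  rwa [hone, one_mul] at this

end NAO

end

section

/-!
B8: the structure `H2` (MP_9dede5_an).
-/

universe u

namespace NAO

theorem itemB8 (h1 : SOm.{u}) (h2 : SS.{u}) (h3 : SXX.{u}) (h4 : SThmA.{u}) : SH2.{u} := by
  intro X _ _ _ c e hX hk
  refine ⟨hk.par, hk.k1, hk.k1', ?_, ?_⟩
  · intro w f x y L hal ψ hψ
    obtain ⟨g, R, hg, hR, hv⟩ := h2 X c e hk w f x y L hal ψ hψ
    exact ⟨g, R, hg.1, hg.2.1, h4 X c e hX hk w f x y L hal g hg, hR, hv⟩
  · intro w f x y L hal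
    obtain ⟨ω, hω⟩ := h1 X c e hk w f x y L hal
    obtain ⟨g₀, hg₀⟩ := hω.ex
    have hx₀ := h4 X c e hX hk w f x y L hal g₀ hg₀
    have he : (e : ℂ) ≠ 0 := by
      exact_mod_cast hk.par.e0.ne'
    have hω1 : ω = 1 := by
      have := hω.eq g₀ hg₀
      rw [hx₀] at this
      exact mul_right_cancel₀ he (this.trans (one_mul _).symm)
    obtain ⟨g, ψ, R, hg, hψ, hR, hv⟩ := h3 X c e hk w f x y L hal ω hω
    refine ⟨g, ψ, R, hg.1, hg.2.1, h4 X c e hX hk w f x y L hal g hg, hψ, hR, fun v hv0 => ?_⟩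
    have := hv v hv0
    rwa [hω1, one_mul] at this

end NAO

end

section

/-! C1. (PB) for MP_9dede5_an. -/

universe u

namespace NAO

theorem itemC1 (h1 : SAlT.{u}) (h2 : SAlB.{u}) : SPB.{u} := by
  intro X _ _ _ c e H w y f ψ hw hf hfw hy hfy hψ
  obtain ⟨T, hT, hAl, -⟩ := h1 X c e H.par w f y hw hf hfw hy hfy
  obtain ⟨g, R, hg, hgy, hgx, hR, hker⟩ := H.s w f _ y T⁻¹ hAl ψ hψ
  have hB := (h2 X c e H.par w f _ y T⁻¹ hAl).1
  have hdec : ∀ v, g v = (R : ℂ) * ψ v + (g w - (R : ℂ) * ψ w) * f v := by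
    intro v
    have h := hker (v - f v • w) (by simp [hfw])
    simp only [map_sub, map_smul, smul_eq_mul] at h
    linear_combination h
  have e1 := hdec y
  have e2 := hdec ((c : ℂ) • w + (T : ℂ) • (y - (e : ℂ) • w))
  rw [hgy, hψ.2, hfy] at e1
  have ψx : ψ ((c : ℂ) • w + (T : ℂ) • (y - (e : ℂ) • w)) =
      (c : ℂ) * ψ w + (T : ℂ) * (1 - (e : ℂ) * ψ w) := by
    simp [hψ.2]
  rw [hgx, hAl.fx, ψx] at e2
  have key : ((e * R * (c - T * e) : ℝ) : ℂ) * ψ w =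
      ((e * (e - R * T) - (c - R) * c : ℝ) : ℂ) := by
    push_cast
    linear_combination (-(e : ℂ)) * e2 + (c : ℂ) * e1
  have him := congrArg Complex.im key
  rw [Complex.im_ofReal_mul, Complex.ofReal_im] at him
  have h3 : 0 < c - T * e := by
    have h4 : T * e < T * (T⁻¹ * c) := mul_lt_mul_of_pos_left hB hT
    rw [← mul_assoc, mul_inv_cancel₀ hT.ne', one_mul] at h4
    linarith
  have h5 : e * R * (c - T * e) ≠ 0 := (mul_pos (mul_pos H.par.e0 hR) h3).ne'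
  rcases mul_eq_zero.mp him with h | h
  · exact absurd h h5
  · exact h

end NAO

end

section

/-!
C2. Smoothness.
-/

universe u

namespace NAO

/-- In finite dimension a functional of norm one takes the value one at a unit vector. -/
theorem exists_norming {X : Type u} [NormedAddCommGroup X] [NormedSpace ℂ X]
    [FiniteDimensional ℂ X] (f : X →L[ℂ] ℂ) (hf : ‖f‖ = 1) (y : X) (hy : ‖y‖ = 1) :
    ∃ w : X, ‖w‖ = 1 ∧ f w = 1 := by
  have : ProperSpace X := FiniteDimensional.proper ℂ X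
  have hcomp : IsCompact (Metric.sphere (0 : X) 1) := isCompact_sphere 0 1
  have hne : (Metric.sphere (0 : X) 1).Nonempty := ⟨y, by simp [hy]⟩
  obtain ⟨w, hw, hmax⟩ := hcomp.exists_isMaxOn hne (f.continuous.norm.continuousOn)
  have hw1 : ‖w‖ = 1 := by simpa using hw
  have h1 : ‖f‖ ≤ ‖f w‖ := by
    refine f.opNorm_le_bound (norm_nonneg _) ?_
    intro v
    by_cases hv : v = 0
    · rw [hv]
      simp
    · have hv0 : 0 < ‖v‖ := norm_pos_iff.2 hv
      have h2 : ((‖v‖⁻¹ : ℝ) : ℂ) • v ∈ Metric.sphere (0 : X) 1 := by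
        rw [mem_sphere_zero_iff_norm, norm_smul, Complex.norm_real, Real.norm_eq_abs,
          abs_of_pos (inv_pos.2 hv0)]
        exact inv_mul_cancel₀ hv0.ne'
      have h3 : ‖f (((‖v‖⁻¹ : ℝ) : ℂ) • v)‖ ≤ ‖f w‖ := hmax h2
      rw [map_smul, norm_smul, Complex.norm_real, Real.norm_eq_abs,
        abs_of_pos (inv_pos.2 hv0)] at h3
      have h4 := mul_le_mul_of_nonneg_left h3 hv0.le
      rw [← mul_assoc, mul_inv_cancel₀ hv0.ne', one_mul] at h4
      linarith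
  have h2 : ‖f w‖ ≤ 1 := by
    have := f.le_opNorm w
    rw [hf, hw1] at this
    linarith
  have h3 : ‖f w‖ = 1 := by
    rw [hf] at h1
    exact le_antisymm h2 h1
  refine ⟨(starRingEnd ℂ) (f w) • w, ?_, ?_⟩
  · rw [norm_smul, RCLike.norm_conj, h3, hw1, one_mul]
  · rw [map_smul, smul_eq_mul, ← Complex.normSq_eq_conj_mul_self, Complex.normSq_eq_norm_sq, h3]
    norm_num

theorem itemC2 (h1 : SPB.{u}) : SSm.{u} := by
  intro X _ _ _ c e hH y ψ₁ ψ₂ hy h₁ h₂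
  by_contra hne
  have he0 := hH.par.e0
  have hec := hH.par.ec
  have hc1 := hH.par.c1
  set χ : X →L[ℂ] ℂ := ψ₁ - ψ₂ with hχ
  have hχ0 : χ ≠ 0 := sub_ne_zero.2 hne
  have hχn : 0 < ‖χ‖ := norm_pos_iff.2 hχ0
  have hχy : χ y = 0 := by
    rw [hχ]
    simp [h₁.2, h₂.2]
  set G : ℝ → ℝ := fun B => ‖(e : ℂ) • ψ₁ - (Complex.I * (B : ℂ)) • χ‖ with hG
  have hGc : Continuous G := by
    rw [hG]
    fun_prop
  have hes : ‖(e : ℂ) • ψ₁‖ ≤ e := by
    rw [norm_smul, Complex.norm_real, Real.norm_eq_abs, abs_of_pos he0]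
    have := mul_le_mul_of_nonneg_left h₁.1 he0.le
    linarith
  have hG0 : G 0 ≤ 1 := by
    have : G 0 = ‖(e : ℂ) • ψ₁‖ := by
      change ‖(e : ℂ) • ψ₁ - (Complex.I * ((0 : ℝ) : ℂ)) • χ‖ = _
      have h0 : (Complex.I * ((0 : ℝ) : ℂ)) • χ = 0 := by
        ext v
        simp
      rw [h0, sub_zero]
    rw [this]
    linarith
  set R : ℝ := 2 / ‖χ‖ with hR
  have hR0 : 0 < R := by positivity
  have hGR : 1 ≤ G R := by
    have h3 : ‖(Complex.I * (R : ℂ)) • χ‖ = 2 := by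
      rw [norm_smul, norm_mul, Complex.norm_I, one_mul, Complex.norm_real, Real.norm_eq_abs,
        abs_of_pos hR0, hR]
      field_simp
    have h4 : ‖(Complex.I * (R : ℂ)) • χ‖
        ≤ ‖(e : ℂ) • ψ₁‖ + ‖(e : ℂ) • ψ₁ - (Complex.I * (R : ℂ)) • χ‖ := by
      have h5 : (Complex.I * (R : ℂ)) • χ
          = (e : ℂ) • ψ₁ - ((e : ℂ) • ψ₁ - (Complex.I * (R : ℂ)) • χ) := by abel
      calc ‖(Complex.I * (R : ℂ)) • χ‖
          = ‖(e : ℂ) • ψ₁ - ((e : ℂ) • ψ₁ - (Complex.I * (R : ℂ)) • χ)‖ := by rw [← h5]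
        _ ≤ _ := norm_sub_le _ _
    change 1 ≤ ‖(e : ℂ) • ψ₁ - (Complex.I * (R : ℂ)) • χ‖
    linarith
  obtain ⟨B, _, hB⟩ : (1 : ℝ) ∈ G '' Set.Icc 0 R :=
    intermediate_value_Icc hR0.le hGc.continuousOn ⟨hG0, hGR⟩
  set f : X →L[ℂ] ℂ := (e : ℂ) • ψ₁ - (Complex.I * (B : ℂ)) • χ with hf
  have hfn : ‖f‖ = 1 := hB
  have hfy : f y = (e : ℂ) := by
    rw [hf]
    simp [h₁.2, hχy]
  obtain ⟨w, hw, hfw⟩ := exists_norming f hfn y hy
  have hi₁ := h1 X c e hH w y f ψ₁ hw hfn.le hfw hy hfy h₁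
  have hi₂ := h1 X c e hH w y f ψ₂ hw hfn.le hfw hy hfy h₂
  have h3 : f w = (e : ℂ) * ψ₁ w - (Complex.I * (B : ℂ)) * (ψ₁ w - ψ₂ w) := by
    rw [hf, hχ]
    simp
  have h4 : (f w).re = e * (ψ₁ w).re := by
    rw [h3]
    simp [Complex.mul_re, Complex.mul_im, hi₁, hi₂]
  rw [hfw, Complex.one_re] at h4
  have h5 : (ψ₁ w).re ≤ 1 := by
    refine (Complex.re_le_norm _).trans ((ψ₁.le_opNorm w).trans ?_)
    rw [hw, mul_one]
    exact h₁.1
  nlinarith

end NAO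

end

section

/-! C3: strict convexity. -/

universe u

namespace NAO

open Filter Topology Set

theorem itemC3 (h1 : SPB.{u}) (h2 : SRay.{u}) : SCv.{u} := by
  intro X _ _ _ c e hH f w₁ w₂ hf hw₁ hw₂ hf₁ hf₂
  by_contra hne
  have he0 := hH.par.e0
  have he1 : e < 1 := hH.par.ec.trans hH.par.c1
  have hv : Complex.I • (w₁ - w₂) ≠ 0 :=
    smul_ne_zero Complex.I_ne_zero (sub_ne_zero.mpr hne)
  have hp : ‖(e : ℂ) • w₁‖ < 1 := by
    rw [norm_smul, hw₁, mul_one, Complex.norm_real, Real.norm_of_nonneg he0.le]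
    exact he1
  obtain ⟨r, hr, hy, -⟩ := h2 X ((e : ℂ) • w₁) (Complex.I • (w₁ - w₂)) hp hv
  set y : X := (e : ℂ) • w₁ + (r : ℂ) • (Complex.I • (w₁ - w₂)) with hydef
  have hfy : f y = (e : ℂ) := by
    rw [hydef, map_add, map_smul, map_smul, map_smul, map_sub, hf₁, hf₂]
    simp
  obtain ⟨ψ, hψ, hψy⟩ := exists_dual_vector ℂ y (by rw [hy]; exact one_ne_zero)
  have hN : Nm ψ y := ⟨hψ.le, by rw [hψy, hy]; simp⟩
  have i1 := h1 X c e hH w₁ y f ψ hw₁ hf hf₁ hy hfy hN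
  have i2 := h1 X c e hH w₂ y f ψ hw₂ hf hf₂ hy hfy hN
  have e1 : ψ y = (e : ℂ) * ψ w₁ + (r : ℂ) * (Complex.I * (ψ w₁ - ψ w₂)) := by
    rw [hydef, map_add, map_smul, map_smul, map_smul, map_sub]
    rfl
  rw [hN.2] at e1
  have e2 := congrArg Complex.re e1
  simp only [Complex.one_re, Complex.add_re, Complex.mul_re, Complex.ofReal_re, Complex.ofReal_im,
    Complex.I_re, Complex.I_im, Complex.sub_re, Complex.sub_im, Complex.mul_im, i1, i2] at e2
  have e3 : (ψ w₁).re ≤ 1 := by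
    refine (Complex.re_le_norm _).trans ((ψ.le_opNorm w₁).trans ?_)
    rw [hw₁, mul_one]
    exact hψ.le
  nlinarith

end NAO

end

section

/-! D1. (PC) for MP_9dede5_an. -/

universe u

namespace NAO

theorem itemD1 (h1 : SAlB.{u}) : SPC.{u} := by
  intro X _ _ _ c e H w f x y L hAl ψ hψ
  have hp := H.h2.par
  have he := hp.e0
  have hc : 0 < c := lt_trans hp.e0 hp.ec
  obtain ⟨g, ψ', t, hg, hgy, hgx, hψ', ht, hker⟩ := H.h2.xx w f x y L hAl
  obtain rfl : ψ' = ψ := H.smooth x ψ' ψ hAl.nx hψ' hψ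
  obtain ⟨hB1, hfy, -⟩ := h1 X c e hp w f x y L hAl
  have hdec : ∀ v, g v = (t : ℂ) * ψ' v + (g w - (t : ℂ) * ψ' w) * f v := by
    intro v
    have h := hker (v - f v • w) (by simp [hAl.fw])
    simp only [map_sub, map_smul, smul_eq_mul] at h
    linear_combination h
  have hcC : (c : ℂ) ≠ 0 := by exact_mod_cast hc.ne'
  have hk0 : (g w - (t : ℂ) * ψ' w) * (c : ℂ) = (e : ℂ) - t := by
    have e1 := hdec x
    rw [hgx, hAl.fx, hψ.2] at e1
    linear_combination -e1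
  have hk : g w - (t : ℂ) * ψ' w = (((e - t) / c : ℝ) : ℂ) := by
    push_cast
    rw [eq_div_iff hcC]
    exact hk0
  have hy1 : ((t * c : ℝ) : ℂ) * ψ' y = ((t * e + (c ^ 2 - e ^ 2) : ℝ) : ℂ) := by
    have e2 := hdec y
    rw [hgy, hfy] at e2
    push_cast
    linear_combination -(c : ℂ) * e2 - (e : ℂ) * hk0
  have hre := congrArg Complex.re hy1
  have him := congrArg Complex.im hy1
  rw [Complex.re_ofReal_mul, Complex.ofReal_re] at hre
  rw [Complex.im_ofReal_mul, Complex.ofReal_im] at him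
  have hce : 0 < c ^ 2 - e ^ 2 := by nlinarith [hp.ec]
  have hprod : t * (c * (ψ' y).re - e) = c ^ 2 - e ^ 2 := by linarith
  have hpos : 0 < c * (ψ' y).re - e := by
    by_contra hcon
    push Not at hcon
    nlinarith
  have hle : (ψ' y).re ≤ 1 := by
    have h2 : ‖ψ' y‖ ≤ 1 := by
      calc ‖ψ' y‖ ≤ ‖ψ'‖ * ‖y‖ := ψ'.le_opNorm y
        _ ≤ 1 * 1 := by
          rw [hAl.ny]
          exact mul_le_mul_of_nonneg_right hψ.1 zero_le_one
        _ = 1 := by norm_num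
    exact le_trans (Complex.re_le_norm _) h2
  have htc : c + e ≤ t := by
    by_contra hcon
    push Not at hcon
    have h3 : c * (ψ' y).re - e ≤ c - e := by nlinarith
    have h4 : t * (c * (ψ' y).re - e) ≤ t * (c - e) := mul_le_mul_of_nonneg_left h3 ht.le
    have h5 : t * (c - e) < (c + e) * (c - e) :=
      mul_lt_mul_of_pos_right hcon (by linarith [hp.ec])
    nlinarith
  have hyim : (ψ' y).im = 0 := by
    rcases mul_eq_zero.mp him with h | h
    · exact absurd h (mul_pos ht hc).ne'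
    · exact h
  have hwim : (ψ' w).im = 0 := by
    have hyv : ψ' y = (L : ℂ) - ((L * c - e : ℝ) : ℂ) * ψ' w := by
      rw [hAl.yeq]
      simp only [map_add, map_sub, map_smul, smul_eq_mul, hψ.2]
      push_cast
      ring
    have h6 := congrArg Complex.im hyv
    rw [Complex.sub_im, Complex.ofReal_im, Complex.im_ofReal_mul, hyim] at h6
    have h7 : (L * c - e) * (ψ' w).im = 0 := by linarith
    rcases mul_eq_zero.mp h7 with h | h
    · linarith
    · exact h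
  have hgeq : (t : ℂ) • ψ' + (((e - t) / c : ℝ) : ℂ) • f = g := by
    ext v
    rw [hdec v, hk]
    simp
  refine ⟨hyim, hwim, by linarith, t, htc, hprod, ?_, ?_⟩
  · rw [hgeq]
    refine ⟨hg, hgy, ?_⟩
    rw [hgx, Complex.norm_real, Real.norm_of_nonneg he.le]
  · rw [hgeq]
    exact hgx

end NAO

end

section

/-! D2. (PD) for MP_9dede5_an. -/

universe u

namespace NAO

theorem itemD2 (h1 : SAlB.{u}) (h2 : SPC.{u}) : SPD.{u} := by
  intro X _ _ _ c e H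
  have hp := H.h2.par
  have he := hp.e0
  have hc : 0 < c := lt_trans hp.e0 hp.ec
  have key : ∀ (x w₁ w₂ y₁ y₂ : X) (f₁ f₂ : X →L[ℂ] ℂ) (L₁ L₂ : ℝ), Al c e w₁ f₁ x y₁ L₁ →
    Al c e w₂ f₂ x y₂ L₂ → ∀ ψ : X →L[ℂ] ℂ, Nm ψ x →
      (ψ y₂).re - (ψ y₁).re ≤ 1 / c * (‖f₁ - f₂‖ * ‖y₁ - y₂‖) := by
    intro x w₁ w₂ y₁ y₂ f₁ f₂ L₁ L₂ hA1 hA2 ψ hψ
    obtain ⟨-, -, -, t, ht, -, hAA, hgx⟩ := h2 X c e H w₁ f₁ x y₁ L₁ hA1 ψ hψ
    obtain ⟨-, hf1y1, -⟩ := h1 X c e hp w₁ f₁ x y₁ L₁ hA1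
    obtain ⟨-, hf2y2, -⟩ := h1 X c e hp w₂ f₂ x y₂ L₂ hA2
    have ht0 : 0 < t := by linarith
    have hxle := hAA.2.2
    have hyc := hAA.2.1
    have h3 := H.h2.k1' w₂ f₂ x y₂ L₂ hA2 _ hAA.1 hxle
    have h4 : (((t : ℂ) • ψ + (((e - t) / c : ℝ) : ℂ) • f₁) y₂).re ≤ c :=
      le_trans (Complex.re_le_norm _) h3
    have h5 : (((t : ℂ) • ψ + (((e - t) / c : ℝ) : ℂ) • f₁) y₂).re =
        t * (ψ y₂).re + (e - t) / c * (f₁ y₂).re := by
      rw [add_apply, smul_apply, smul_apply, smul_eq_mul, smul_eq_mul, Complex.add_re,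
        Complex.re_ofReal_mul, Complex.re_ofReal_mul]
    have h6 : (((t : ℂ) • ψ + (((e - t) / c : ℝ) : ℂ) • f₁) y₁).re =
        t * (ψ y₁).re + (e - t) / c * (f₁ y₁).re := by
      rw [add_apply, smul_apply, smul_apply, smul_eq_mul, smul_eq_mul, Complex.add_re,
        Complex.re_ofReal_mul, Complex.re_ofReal_mul]
    rw [hyc, hf1y1, Complex.ofReal_re, Complex.ofReal_re] at h6
    rw [h5] at h4
    have hB1 : e ≤ (f₁ y₂).re := (h1 X c e hp w₂ f₂ x y₂ L₂ hA2).2.2 f₁ hA1.nf hA1.fx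
    have hB2 : e ≤ (f₂ y₁).re := (h1 X c e hp w₁ f₁ x y₁ L₁ hA1).2.2 f₂ hA2.nf hA2.fx
    have hM : (f₁ y₂).re + (f₂ y₁).re - 2 * e ≤ ‖f₁ - f₂‖ * ‖y₁ - y₂‖ := by
      have h7 : -((f₁ - f₂) (y₁ - y₂)).re ≤ ‖f₁ - f₂‖ * ‖y₁ - y₂‖ := by
        refine le_trans (le_trans (neg_le_abs _) (Complex.abs_re_le_norm _)) ?_
        exact (f₁ - f₂).le_opNorm _
      have h8 : ((f₁ - f₂) (y₁ - y₂)).re = 2 * e - (f₁ y₂).re - (f₂ y₁).re := by
        rw [sub_apply, map_sub, map_sub, hf1y1, hf2y2]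
        simp only [Complex.sub_re, Complex.ofReal_re]
        ring
      rw [h8] at h7
      linarith
    -- `t (p2 - p1) ≤ (t - e)/c (Re f1 y2 - e)`
    have h9 : t * ((ψ y₂).re - (ψ y₁).re) ≤ (t - e) / c * ((f₁ y₂).re - e) := by
      have : (t - e) / c * ((f₁ y₂).re - e) = (e - t) / c * e - (e - t) / c * (f₁ y₂).re := by
        ring
      rw [this]
      linarith
    have h10 : (t - e) / c * ((f₁ y₂).re - e) ≤ t / c * (‖f₁ - f₂‖ * ‖y₁ - y₂‖) := by
      refine mul_le_mul ?_ (by linarith) (by linarith) (by positivity)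
      exact div_le_div_of_nonneg_right (by linarith) hc.le
    have h11 : t * ((ψ y₂).re - (ψ y₁).re) ≤ t * (1 / c * (‖f₁ - f₂‖ * ‖y₁ - y₂‖)) := by
      calc t * ((ψ y₂).re - (ψ y₁).re) ≤ t / c * (‖f₁ - f₂‖ * ‖y₁ - y₂‖) := h9.trans h10
        _ = t * (1 / c * (‖f₁ - f₂‖ * ‖y₁ - y₂‖)) := by ring
    exact le_of_mul_le_mul_left h11 ht0
  intro x w₁ w₂ y₁ y₂ f₁ f₂ L₁ L₂ hA1 hA2 ψ hψ
  rw [abs_sub_le_iff]
  constructor
  · have h := key x w₂ w₁ y₂ y₁ f₂ f₁ L₂ L₁ hA2 hA1 ψ hψ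
    rwa [norm_sub_rev f₂ f₁, norm_sub_rev y₂ y₁] at h
  · exact key x w₁ w₂ y₁ y₂ f₁ f₂ L₁ L₂ hA1 hA2 ψ hψ

end NAO

end

section

/-!
Item D3 (MP_9dede5_an): Lipschitz path on the sphere by radial projection.
-/

universe u

namespace NAO

open Set

theorem itemD3 (h1 : SRay.{u}) : SPath.{u} := by
  intro E _ _ p u₀ u₁ hp hu₀ hu₁ hne
  set U : ℝ → E := fun s => ((1 - s : ℝ) : ℂ) • u₀ + (s : ℂ) • u₁ with hU
  have hray : ∀ s ∈ Icc (0 : ℝ) 1, ∃ r : ℝ, 0 < r ∧ ‖p + (r : ℂ) • U s‖ = 1 ∧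
      ∀ r' : ℝ, 0 ≤ r' → (r' < r → ‖p + (r' : ℂ) • U s‖ < 1) ∧
        (r < r' → 1 < ‖p + (r' : ℂ) • U s‖) := fun s hs => h1 E p (U s) hp (hne s hs)
  choose! ρ hρ0 hρ1 hρ2 using hray
  have h0m : (0 : ℝ) ∈ Icc (0 : ℝ) 1 := ⟨le_refl _, zero_le_one⟩
  have h1m : (1 : ℝ) ∈ Icc (0 : ℝ) 1 := ⟨zero_le_one, le_refl _⟩
  have hU0 : U 0 = u₀ := by simp [hU]
  have hU1 : U 1 = u₁ := by simp [hU]
  -- endpoints
  have hend : ∀ s ∈ Icc (0 : ℝ) 1, ‖p + U s‖ = 1 → ρ s = 1 := by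
    intro s hs h
    have h' : ‖p + ((1 : ℝ) : ℂ) • U s‖ = 1 := by simpa using h
    rcases lt_trichotomy (ρ s) 1 with hlt | heq | hgt
    · exact absurd h' (ne_of_gt ((hρ2 s hs 1 zero_le_one).2 hlt))
    · exact heq
    · exact absurd h' (ne_of_lt ((hρ2 s hs 1 zero_le_one).1 hgt))
  -- continuity and the minimum of the norm
  have hcont : Continuous U := by
    rw [hU]
    fun_prop
  obtain ⟨s₀, hs₀, hmin⟩ := (isCompact_Icc (a := (0 : ℝ)) (b := 1)).exists_isMinOn ⟨0, h0m⟩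
    (hcont.norm.continuousOn)
  have hm : 0 < ‖U s₀‖ := norm_pos_iff.2 (hne s₀ hs₀)
  set m : ℝ := ‖U s₀‖ with hmdef
  have hmle : ∀ s ∈ Icc (0 : ℝ) 1, m ≤ ‖U s‖ := fun s hs => hmin hs
  have hρm : ∀ s ∈ Icc (0 : ℝ) 1, ρ s ≤ 2 / m := by
    intro s hs
    have e1 : ‖(ρ s : ℂ) • U s‖ = ρ s * ‖U s‖ := by
      rw [norm_smul, Complex.norm_real, Real.norm_of_nonneg (hρ0 s hs).le]
    have e2 : ‖(ρ s : ℂ) • U s‖ ≤ ‖p + (ρ s : ℂ) • U s‖ + ‖p‖ := by
      have := norm_sub_le (p + (ρ s : ℂ) • U s) p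
      simpa using this
    rw [hρ1 s hs, e1] at e2
    have e3 : ρ s * m ≤ ρ s * ‖U s‖ := mul_le_mul_of_nonneg_left (hmle s hs) (hρ0 s hs).le
    rw [le_div_iff₀ hm]
    linarith
  set a : ℝ := ‖u₀ - u₁‖ with ha
  have hUlip : ∀ s t : ℝ, ‖U s - U t‖ = a * |s - t| := by
    intro s t
    have : U s - U t = ((t - s : ℝ) : ℂ) • (u₀ - u₁) := by
      simp only [hU]
      push_cast
      module
    rw [this, norm_smul, Complex.norm_real, Real.norm_eq_abs, abs_sub_comm t s, mul_comm]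
  have ha0 : 0 ≤ a := norm_nonneg _
  have hc0 : 0 < 1 - ‖p‖ := by linarith
  -- one sided Lipschitz estimate for `ρ`
  have hone : ∀ s ∈ Icc (0 : ℝ) 1, ∀ t ∈ Icc (0 : ℝ) 1,
      ρ s - ρ t ≤ (2 / m) ^ 2 * a / (1 - ‖p‖) * |s - t| := by
    intro s hs t ht
    have hk0 : 0 ≤ ρ s * (a * |s - t|) :=
      mul_nonneg (hρ0 s hs).le (mul_nonneg ha0 (abs_nonneg _))
    set k : ℝ := ρ s * (a * |s - t|) with hk
    have e1 : ‖p + (ρ s : ℂ) • U t‖ ≤ 1 + k := by
      have : p + (ρ s : ℂ) • U t = (p + (ρ s : ℂ) • U s) - (ρ s : ℂ) • (U s - U t) := by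
        module
      rw [this]
      refine (norm_sub_le _ _).trans ?_
      rw [hρ1 s hs, norm_smul, Complex.norm_real, Real.norm_of_nonneg (hρ0 s hs).le, hUlip]
    have hden : 0 < 1 - ‖p‖ + k := by linarith
    set θ : ℝ := (1 - ‖p‖) / (1 - ‖p‖ + k) with hθ
    have hθ0 : 0 < θ := div_pos hc0 hden
    have hθ1 : θ ≤ 1 := by
      rw [hθ, div_le_one hden]
      linarith
    have hθk : θ * (1 - ‖p‖ + k) = 1 - ‖p‖ := div_mul_cancel₀ _ hden.ne'
    have e2 : ‖p + ((θ * ρ s : ℝ) : ℂ) • U t‖ ≤ 1 := by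
      have : p + ((θ * ρ s : ℝ) : ℂ) • U t =
          ((1 - θ : ℝ) : ℂ) • p + (θ : ℂ) • (p + (ρ s : ℂ) • U t) := by
        push_cast
        module
      rw [this]
      refine (norm_add_le _ _).trans ?_
      rw [norm_smul, norm_smul, Complex.norm_real, Complex.norm_real,
        Real.norm_of_nonneg hθ0.le, Real.norm_of_nonneg (by linarith)]
      have := mul_le_mul_of_nonneg_left e1 hθ0.le
      nlinarith
    have e3 : θ * ρ s ≤ ρ t := by
      by_contra hlt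
      push Not at hlt
      exact absurd ((hρ2 t ht (θ * ρ s) (mul_nonneg hθ0.le (hρ0 s hs).le)).2 hlt)
        (not_lt.2 e2)
    -- `1 - θ ≤ k / (1 - ‖p‖)`
    have e4 : (1 - θ) * (1 - ‖p‖) ≤ k := by
      have : (1 - θ) * (1 - ‖p‖) = k * θ := by linarith [hθk]
      rw [this]
      nlinarith
    have e5 : ρ s - ρ t ≤ (1 - θ) * ρ s := by linarith
    have e6 : 1 - θ ≤ k / (1 - ‖p‖) := by
      rw [le_div_iff₀ hc0]; exact e4
    have e7 : (1 - θ) * ρ s ≤ k / (1 - ‖p‖) * ρ s :=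
      mul_le_mul_of_nonneg_right e6 (hρ0 s hs).le
    have e8 : k / (1 - ‖p‖) * ρ s = ρ s ^ 2 * (a * |s - t| / (1 - ‖p‖)) := by
      rw [hk]; ring
    have e9 : ρ s ^ 2 * (a * |s - t| / (1 - ‖p‖)) ≤
        (2 / m) ^ 2 * (a * |s - t| / (1 - ‖p‖)) := by
      refine mul_le_mul_of_nonneg_right ?_
        (div_nonneg (mul_nonneg ha0 (abs_nonneg _)) hc0.le)
      exact pow_le_pow_left₀ (hρ0 s hs).le (hρm s hs) 2
    calc ρ s - ρ t ≤ (1 - θ) * ρ s := e5
      _ ≤ k / (1 - ‖p‖) * ρ s := e7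
      _ = ρ s ^ 2 * (a * |s - t| / (1 - ‖p‖)) := e8
      _ ≤ (2 / m) ^ 2 * (a * |s - t| / (1 - ‖p‖)) := e9
      _ = (2 / m) ^ 2 * a / (1 - ‖p‖) * |s - t| := by ring
  have hboth : ∀ s ∈ Icc (0 : ℝ) 1, ∀ t ∈ Icc (0 : ℝ) 1,
      |ρ s - ρ t| ≤ (2 / m) ^ 2 * a / (1 - ‖p‖) * |s - t| := by
    intro s hs t ht
    rw [abs_le]
    constructor
    · have := hone t ht s hs
      rw [abs_sub_comm t s] at this
      linarith
    · exact hone s hs t ht
  have hUbd : ∀ s ∈ Icc (0 : ℝ) 1, ‖U s‖ ≤ ‖u₀‖ + ‖u₁‖ := by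
    intro s hs
    refine (norm_add_le _ _).trans ?_
    rw [norm_smul, norm_smul, Complex.norm_real, Complex.norm_real,
      Real.norm_of_nonneg hs.1, Real.norm_of_nonneg (by linarith [hs.2])]
    have e1 : (1 - s) * ‖u₀‖ ≤ 1 * ‖u₀‖ :=
      mul_le_mul_of_nonneg_right (by linarith [hs.1]) (norm_nonneg _)
    have e2 : s * ‖u₁‖ ≤ 1 * ‖u₁‖ := mul_le_mul_of_nonneg_right hs.2 (norm_nonneg _)
    linarith
  refine ⟨fun s => p + (ρ s : ℂ) • U s,
    (2 / m) ^ 2 * a / (1 - ‖p‖) * (‖u₀‖ + ‖u₁‖) + 2 / m * a, ?_, ?_, ?_, ?_⟩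
  · simp only
    rw [hend 0 h0m (by rw [hU0]; exact hu₀), hU0]
    simp
  · simp only
    rw [hend 1 h1m (by rw [hU1]; exact hu₁), hU1]
    simp
  · intro s hs
    exact ⟨hρ1 s hs, ρ s, rfl⟩
  · intro s hs t ht
    simp only
    have e1 : p + (ρ s : ℂ) • U s - (p + (ρ t : ℂ) • U t) =
        ((ρ s - ρ t : ℝ) : ℂ) • U s + (ρ t : ℂ) • (U s - U t) := by
      push_cast
      module
    rw [e1]
    refine (norm_add_le _ _).trans ?_
    rw [norm_smul, norm_smul, Complex.norm_real, Complex.norm_real, Real.norm_eq_abs,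
      Real.norm_of_nonneg (hρ0 t ht).le, hUlip]
    have e2 : |ρ s - ρ t| * ‖U s‖ ≤
        (2 / m) ^ 2 * a / (1 - ‖p‖) * |s - t| * (‖u₀‖ + ‖u₁‖) :=
      mul_le_mul (hboth s hs t ht) (hUbd s hs) (norm_nonneg _)
        ((abs_nonneg _).trans (hboth s hs t ht))
    have e3 : ρ t * (a * |s - t|) ≤ 2 / m * (a * |s - t|) :=
      mul_le_mul_of_nonneg_right (hρm t ht) (mul_nonneg ha0 (abs_nonneg _))
    calc |ρ s - ρ t| * ‖U s‖ + ρ t * (a * |s - t|) ≤
        (2 / m) ^ 2 * a / (1 - ‖p‖) * |s - t| * (‖u₀‖ + ‖u₁‖) + 2 / m * (a * |s - t|) :=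
          add_le_add e2 e3
      _ = ((2 / m) ^ 2 * a / (1 - ‖p‖) * (‖u₀‖ + ‖u₁‖) + 2 / m * a) * |s - t| := by ring

end NAO

end

section

/-!
# Item D4: continuity of the aligned point along a path of functionals.
-/

universe u

namespace NAO

open Filter Topology

theorem itemD4 (h1 : SAlE.{u}) : SCY.{u} := by
  intro X _ _ _ c e h3 x F W Y L hF hAl
  have hpar := h3.h2.par
  have he0 := hpar.e0
  have hec := hpar.ec
  have hc1 := hpar.c1
  have he1 : e < 1 := hec.trans hc1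
  have hc0 : 0 < c := he0.trans hec
  have : ProperSpace X := FiniteDimensional.proper ℂ X
  intro s hs
  set S : Set ℝ := Set.Icc (0 : ℝ) 1 with hS
  set B : ℝ := 2 / (1 - c) with hB
  -- the compact set
  set Kc : Set (X × X × ℝ) := Metric.sphere 0 1 ×ˢ (Metric.sphere 0 1 ×ˢ Set.Icc (0 : ℝ) B)
    with hKc
  have hcomp : IsCompact Kc :=
    (isCompact_sphere _ _).prod ((isCompact_sphere _ _).prod isCompact_Icc)
  have hmem : ∀ t ∈ S, (W t, Y t, L t) ∈ Kc := by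
    intro t ht
    have hA := hAl t ht
    refine ⟨?_, ?_, ?_, ?_⟩
    · simpa using hA.nw
    · simpa using hA.ny
    · exact hA.pos.le
    · rw [hB]
      show L t ≤ 2 / (1 - c)
      rw [le_div_iff₀ (by linarith)]
      have e1 : Y t - (e : ℂ) • W t = (L t : ℂ) • (x - (c : ℂ) • W t) := by
        rw [hA.yeq, add_sub_cancel_left]
      have e2 : L t * ‖x - (c : ℂ) • W t‖ ≤ 2 := by
        calc L t * ‖x - (c : ℂ) • W t‖ = ‖(L t : ℂ) • (x - (c : ℂ) • W t)‖ := by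
              rw [norm_smul, Complex.norm_real, Real.norm_of_nonneg hA.pos.le]
          _ = ‖Y t - (e : ℂ) • W t‖ := by rw [e1]
          _ ≤ ‖Y t‖ + ‖(e : ℂ) • W t‖ := norm_sub_le _ _
          _ = 1 + e := by
              rw [norm_smul, hA.ny, hA.nw, Complex.norm_real, Real.norm_of_nonneg he0.le, mul_one]
          _ ≤ 2 := by linarith
      have e3 : 1 - c ≤ ‖x - (c : ℂ) • W t‖ := by
        have := norm_sub_norm_le x ((c : ℂ) • W t)
        rw [norm_smul, hA.nx, hA.nw, Complex.norm_real, Real.norm_of_nonneg hc0.le,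
          mul_one] at this
        exact this
      exact (mul_le_mul_of_nonneg_left e3 hA.pos.le).trans e2
  have hs' : s ∈ S := hs
  refine tendsto_of_seq_tendsto fun v hv => ?_
  refine tendsto_of_subseq_tendsto fun ns hns => ?_
  have hv' : Tendsto (fun n => v (ns n)) atTop (𝓝[S] s) := hv.comp hns
  have hev : ∀ᶠ n in atTop, v (ns n) ∈ S := hv'.eventually self_mem_nhdsWithin
  obtain ⟨⟨w', y', l'⟩, hKm, φ, hφ, hlim⟩ := hcomp.tendsto_subseq'
    (x := fun n => (W (v (ns n)), Y (v (ns n)), L (v (ns n))))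
    ((hev.mono fun n hn => hmem _ hn).frequently)
  refine ⟨φ, ?_⟩
  have hW : Tendsto (fun n => W (v (ns (φ n)))) atTop (𝓝 w') :=
    (continuous_fst.tendsto _).comp hlim
  have hYL := (continuous_snd.tendsto _).comp hlim
  have hY : Tendsto (fun n => Y (v (ns (φ n)))) atTop (𝓝 y') :=
    (continuous_fst.tendsto _).comp hYL
  have hL : Tendsto (fun n => L (v (ns (φ n)))) atTop (𝓝 l') :=
    (continuous_snd.tendsto _).comp hYL
  have hnw : ‖w'‖ = 1 := by simpa using hKm.1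
  have hny : ‖y'‖ = 1 := by simpa using hKm.2.1
  have hl0 : 0 ≤ l' := hKm.2.2.1
  have hevφ : ∀ᶠ n in atTop, v (ns (φ n)) ∈ S := hφ.tendsto_atTop.eventually hev
  have hvlim : Tendsto (fun n => v (ns (φ n))) atTop (𝓝[S] s) := hv'.comp hφ.tendsto_atTop
  have hFlim : Tendsto (fun n => F (v (ns (φ n)))) atTop (𝓝 (F s)) := (hF s hs').tendsto.comp hvlim
  have hfw : F s w' = 1 := by
    have ha : Tendsto (fun n => (F (v (ns (φ n)))) (W (v (ns (φ n))))) atTop (𝓝 (F s w')) :=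
      (isBoundedBilinearMap_apply.continuous.tendsto (F s, w')).comp (hFlim.prodMk_nhds hW)
    have hb : Tendsto (fun n => (F (v (ns (φ n)))) (W (v (ns (φ n))))) atTop (𝓝 1) :=
      tendsto_const_nhds.congr' (hevφ.mono fun n hn => (hAl _ hn).fw.symm)
    exact tendsto_nhds_unique ha hb
  have hAs := hAl s hs'
  have hwe : w' = W s := h3.conv (F s) w' (W s) hAs.nf hnw hAs.nw hfw hAs.fw
  have hyeq : y' = (e : ℂ) • w' + (l' : ℂ) • (x - (c : ℂ) • w') := by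
    have hLc : Tendsto (fun n => (L (v (ns (φ n))) : ℂ)) atTop (𝓝 (l' : ℂ)) :=
      (Complex.continuous_ofReal.tendsto _).comp hL
    have ha := (hW.const_smul (e : ℂ)).add
      (hLc.smul ((tendsto_const_nhds (x := x)).sub (hW.const_smul (c : ℂ))))
    refine tendsto_nhds_unique hY (ha.congr' (hevφ.mono fun n hn => ?_))
    exact (hAl _ hn).yeq.symm
  have hlpos : 0 < l' := by
    rcases hl0.lt_or_eq with h | h
    · exact h
    · exfalso
      rw [← h, Complex.ofReal_zero, zero_smul, add_zero] at hyeq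
      rw [hyeq, norm_smul, hnw, Complex.norm_real, Real.norm_of_nonneg he0.le, mul_one] at hny
      linarith
  obtain ⟨y0, L0, -, huniq⟩ := h1 X c e hpar (W s) (F s) x hAs.nw hAs.nf hAs.fw hAs.nx hAs.fx
  have hy0 := (huniq (Y s) (L s) hAs).1
  have hy1 : y' = y0 := by
    refine (huniq y' l' ⟨hAs.nw, hAs.nf, hAs.fw, hAs.nx, hny, hAs.fx, hlpos, ?_⟩).1
    rw [hyeq, hwe]
  rw [hy0, ← hy1]
  exact hY

end NAO

end

section

/-! D5: telescoping. -/

universe u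

namespace NAO

open Filter Topology Set

theorem itemD5 : STel.{u} := by
  intro X _ P Y K hY hP
  have hd : ∀ s ∈ Icc (0 : ℝ) 1, HasDerivWithinAt P 0 (Icc (0 : ℝ) 1) s := by
    intro s hs
    rw [hasDerivWithinAt_iff_isLittleO, Asymptotics.isLittleO_iff]
    intro c hc
    have hc' : 0 < c / (|K| + 1) := by positivity
    have hcont := hY s hs
    rw [ContinuousWithinAt, tendsto_iff_norm_sub_tendsto_zero] at hcont
    have hev : ∀ᶠ t in 𝓝[Icc (0 : ℝ) 1] s, ‖Y t - Y s‖ < c / (|K| + 1) :=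
      hcont.eventually_lt_const hc'
    filter_upwards [hev, self_mem_nhdsWithin] with t ht hts
    rw [smul_zero, sub_zero, Real.norm_eq_abs, Real.norm_eq_abs]
    refine (hP t hts s hs).trans ?_
    have h1 : K * |t - s| * ‖Y t - Y s‖ ≤ |K| * |t - s| * (c / (|K| + 1)) := by
      have h2 : K * |t - s| * ‖Y t - Y s‖ ≤ |K| * |t - s| * ‖Y t - Y s‖ := by
        gcongr
        exact le_abs_self K
      refine h2.trans ?_
      gcongr
    refine h1.trans ?_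
    have h3 : |K| * |t - s| * (c / (|K| + 1)) = (|K| / (|K| + 1)) * (c * |t - s|) := by
      field_simp
    rw [h3]
    have h4 : |K| / (|K| + 1) ≤ 1 := by
      rw [div_le_one (by positivity)]
      linarith
    exact mul_le_of_le_one_left (by positivity) h4
  have h := constant_of_derivWithin_zero (f := P) (a := 0) (b := 1)
    (fun s hs => (hd s hs).differentiableWithinAt)
    (fun s hs => (hd s ⟨hs.1, hs.2.le⟩).derivWithin
      (uniqueDiffOn_Icc zero_lt_one s ⟨hs.1, hs.2.le⟩))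
  exact (h 1 (right_mem_Icc.mpr zero_le_one)).symm

end NAO

end

section

/-!
Item D6: (PE).
-/

universe u

namespace NAO

open Filter Topology

theorem d6_norming {X : Type u} [NormedAddCommGroup X] [NormedSpace ℂ X]
    [FiniteDimensional ℂ X] {F : X →L[ℂ] ℂ} (hF : ‖F‖ = 1) : ∃ w : X, ‖w‖ = 1 ∧ F w = 1 := by
  have : ProperSpace X := FiniteDimensional.proper ℂ X
  obtain ⟨w, hw, hmax⟩ := (isCompact_closedBall (0 : X) 1).exists_isMaxOn
    ⟨0, Metric.mem_closedBall_self zero_le_one⟩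
    (F.continuous.norm.continuousOn (s := Metric.closedBall (0 : X) 1))
  rw [mem_closedBall_zero_iff] at hw
  have h1 : ‖F‖ ≤ ‖F w‖ := by
    refine F.opNorm_le_bound (norm_nonneg _) fun x => ?_
    rcases eq_or_ne x 0 with rfl | hx
    · simp
    have hx' : 0 < ‖x‖ := norm_pos_iff.2 hx
    have h2 : ‖F (((‖x‖⁻¹ : ℝ) : ℂ) • x)‖ ≤ ‖F w‖ := by
      refine hmax ?_
      rw [mem_closedBall_zero_iff, norm_smul, Complex.norm_real, norm_inv, norm_norm,
        inv_mul_cancel₀ hx'.ne']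
    rw [map_smul, norm_smul, Complex.norm_real, norm_inv, norm_norm, inv_mul_le_iff₀ hx'] at h2
    rwa [mul_comm] at h2
  rw [hF] at h1
  have h2 : ‖F w‖ ≤ ‖w‖ := by
    have := F.le_opNorm w
    rwa [hF, one_mul] at this
  have h3 : ‖w‖ = 1 := le_antisymm hw (h1.trans h2)
  have h4 : ‖F w‖ = 1 := le_antisymm (h2.trans hw) h1
  refine ⟨(starRingEnd ℂ) (F w) • w, ?_, ?_⟩
  · rw [norm_smul, Complex.norm_conj, h4, h3, one_mul]
  · rw [map_smul, smul_eq_mul, mul_comm, Complex.mul_conj, Complex.normSq_eq_norm_sq, h4]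
    norm_num

theorem d6_ray {E : Type u} [NormedAddCommGroup E] [NormedSpace ℂ E] {p v : E} (hp : ‖p‖ < 1)
    (hv : v ≠ 0) : ∃ r : ℝ, 0 < r ∧ ‖p + (r : ℂ) • v‖ = 1 := by
  have hv' : 0 < ‖v‖ := norm_pos_iff.2 hv
  have hc : ContinuousOn (fun t : ℝ => ‖p + (t : ℂ) • v‖) (Set.Icc 0 (2 / ‖v‖)) := by
    refine Continuous.continuousOn ?_
    exact (continuous_const.add (Complex.continuous_ofReal.smul continuous_const)).norm
  have h0 : (fun t : ℝ => ‖p + (t : ℂ) • v‖) 0 ≤ 1 := by simpa using hp.le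
  have h1 : 1 ≤ (fun t : ℝ => ‖p + (t : ℂ) • v‖) (2 / ‖v‖) := by
    have h2 : ‖((2 / ‖v‖ : ℝ) : ℂ) • v‖ = 2 := by
      rw [norm_smul, Complex.norm_real, norm_div, norm_norm, Real.norm_of_nonneg (by norm_num)]
      field_simp
    have h3 := norm_sub_norm_le (((2 / ‖v‖ : ℝ) : ℂ) • v) (-p)
    rw [sub_neg_eq_add, norm_neg, h2, add_comm] at h3
    show 1 ≤ ‖p + ((2 / ‖v‖ : ℝ) : ℂ) • v‖
    linarith
  obtain ⟨t, ht, ht1⟩ := intermediate_value_Icc (by positivity : (0 : ℝ) ≤ 2 / ‖v‖) hc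
    ⟨h0, h1⟩
  refine ⟨t, lt_of_le_of_ne ht.1 ?_, ht1⟩
  rintro rfl
  simp only [Complex.ofReal_zero, zero_smul, add_zero] at ht1
  linarith

theorem d6_zero {E : Type u} [NormedAddCommGroup E] [NormedSpace ℂ E] {v w : E}
    (h : ((1 - (0 : ℝ) : ℝ) : ℂ) • v + (((0 : ℝ)) : ℂ) • w = 0) : v = 0 := by
  simpa using h

theorem d6_one {E : Type u} [NormedAddCommGroup E] [NormedSpace ℂ E] {v w : E}
    (h : ((1 - (1 : ℝ) : ℝ) : ℂ) • v + (((1 : ℝ)) : ℂ) • w = 0) : w = 0 := by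
  simpa using h

theorem d6_alg {E : Type u} [NormedAddCommGroup E] [NormedSpace ℂ E] {v : E} {a b z : ℂ}
    (hv : v ≠ 0) (h : a • v + b • z • v = 0) : a + b * z = 0 := by
  rw [smul_smul, ← add_smul] at h
  exact (smul_eq_zero.1 h).resolve_right hv

theorem d6_alg' {E : Type u} [NormedAddCommGroup E] [NormedSpace ℂ E] {v : E} {a b z k : ℂ}
    (hv : v ≠ 0) (h : a • z • v + b • -(k • v) = 0) : a * z - b * k = 0 := by
  have h2 : (a * z - b * k) • v = 0 := by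
    rw [← h, sub_smul, smul_neg, smul_smul, smul_smul, sub_eq_add_neg]
  exact (smul_eq_zero.1 h2).resolve_right hv

/-- the case in which the segment misses the origin -/
theorem d6_seg (h1 : SPath.{u}) (h2 : SCY.{u}) (h3 : STel.{u}) (h4 : SPD.{u}) (h5 : SAlE.{u})
    {X : Type u} [NormedAddCommGroup X] [NormedSpace ℂ X] [FiniteDimensional ℂ X] {c e : ℝ}
    (H : H3 X c e) {x w₁ w₂ y₁ y₂ : X} {f₁ f₂ : X →L[ℂ] ℂ} {L₁ L₂ : ℝ}
    (A₁ : Al c e w₁ f₁ x y₁ L₁) (A₂ : Al c e w₂ f₂ x y₂ L₂) {ψ : X →L[ℂ] ℂ} (hψ : Nm ψ x)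
    (hseg : ∀ s ∈ Set.Icc (0 : ℝ) 1, ((1 - s : ℝ) : ℂ) • (f₁ - (c : ℂ) • ψ) +
      (s : ℂ) • (f₂ - (c : ℂ) • ψ) ≠ 0) : (ψ y₁).re = (ψ y₂).re := by
  have par := H.h2.par
  have hc0 : 0 < c := par.e0.trans par.ec
  have hnf : ∀ {w : X} {f : X →L[ℂ] ℂ} {y : X} {L : ℝ}, Al c e w f x y L → ‖f‖ = 1 := by
    intro w f y L A
    refine le_antisymm A.nf ?_
    have := f.le_opNorm w
    rwa [A.fw, A.nw, norm_one, mul_one] at this
  have hcψ : ‖(c : ℂ) • ψ‖ < 1 := by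
    rw [norm_smul, Complex.norm_real, Real.norm_of_nonneg hc0.le]
    calc c * ‖ψ‖ ≤ c * 1 := mul_le_mul_of_nonneg_left hψ.1 hc0.le
      _ < 1 := by rw [mul_one]; exact par.c1
  obtain ⟨F, K, hF0, hF1, hF, hK⟩ := h1 (X →L[ℂ] ℂ) ((c : ℂ) • ψ) (f₁ - (c : ℂ) • ψ)
    (f₂ - (c : ℂ) • ψ) hcψ (by rw [add_sub_cancel]; exact hnf A₁)
    (by rw [add_sub_cancel]; exact hnf A₂) hseg
  rw [add_sub_cancel] at hF0 hF1
  -- aligned pairs along the path
  have hex : ∀ s : ℝ, ∃ (w y : X) (L : ℝ), s ∈ Set.Icc (0 : ℝ) 1 → Al c e w (F s) x y L := by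
    intro s
    by_cases hs : s ∈ Set.Icc (0 : ℝ) 1
    · obtain ⟨hn, r, hr⟩ := hF s hs
      obtain ⟨w, hw1, hw2⟩ := d6_norming hn
      have hx : F s x = (c : ℂ) := by
        rw [hr]
        simp [hψ.2, A₁.fx, A₂.fx]
      obtain ⟨y, L, hA, _⟩ := h5 X c e par w (F s) x hw1 hn.le hw2 A₁.nx hx
      exact ⟨w, y, L, fun _ => hA⟩
    · exact ⟨0, 0, 0, fun h => absurd h hs⟩
  choose W Y L hA using hex
  have huniq : ∀ {w w' y y' : X} {f : X →L[ℂ] ℂ} {L L' : ℝ}, Al c e w f x y L →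
      Al c e w' f x y' L' → y = y' := by
    intro w w' y y' f L L' B B'
    have hw : w = w' := H.conv f w w' B.nf B.nw B'.nw B.fw B'.fw
    subst hw
    obtain ⟨y'', L'', _, hu⟩ := h5 X c e par w f x B.nw B.nf B.fw B.nx B.fx
    rw [(hu y L B).1, (hu y' L' B').1]
  have m0 : (0 : ℝ) ∈ Set.Icc (0 : ℝ) 1 := ⟨le_rfl, zero_le_one⟩
  have m1 : (1 : ℝ) ∈ Set.Icc (0 : ℝ) 1 := ⟨zero_le_one, le_rfl⟩
  have hY0 : Y 0 = y₁ := by
    have := hA 0 m0
    rw [hF0] at this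
    exact huniq this A₁
  have hY1 : Y 1 = y₂ := by
    have := hA 1 m1
    rw [hF1] at this
    exact huniq this A₂
  have hFc : ContinuousOn F (Set.Icc (0 : ℝ) 1) := by
    intro s hs
    refine tendsto_iff_norm_sub_tendsto_zero.2 ?_
    have h6 : Tendsto (fun t => K * |t - s|) (𝓝[Set.Icc (0 : ℝ) 1] s) (𝓝 (K * |s - s|)) :=
      ((continuous_const.mul (continuous_id.sub continuous_const).abs).tendsto s).mono_left
        nhdsWithin_le_nhds
    rw [sub_self, abs_zero, mul_zero] at h6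
    refine squeeze_zero' (Eventually.of_forall fun _ => norm_nonneg _) ?_ h6
    filter_upwards [self_mem_nhdsWithin] with t ht
    exact hK t ht s hs
  have hYc := h2 X c e H x F W Y L hFc hA
  have hT := h3 X (fun s => (ψ (Y s)).re) Y (1 / c * K) hYc (fun s hs t ht => by
    have h6 := h4 X c e H x (W s) (W t) (Y s) (Y t) (F s) (F t) (L s) (L t) (hA s hs) (hA t ht)
      ψ hψ
    refine h6.trans ?_
    have h7 := mul_le_mul_of_nonneg_right (hK s hs t ht) (norm_nonneg (Y s - Y t))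
    calc 1 / c * (‖F s - F t‖ * ‖Y s - Y t‖) ≤ 1 / c * (K * |s - t| * ‖Y s - Y t‖) :=
          mul_le_mul_of_nonneg_left h7 (by positivity)
      _ = 1 / c * K * |s - t| * ‖Y s - Y t‖ := by ring)
  simp only [hY0, hY1] at hT
  exact hT

theorem itemD6 (h1 : SPath.{u}) (h2 : SCY.{u}) (h3 : STel.{u}) (h4 : SPD.{u}) (h5 : SAlE.{u})
    (_h6 : SAlB.{u}) : SPE.{u} := by
  intro X _ _ _ c e H x w₁ w₂ y₁ y₂ f₁ f₂ L₁ L₂ A₁ A₂ ψ hψ
  by_cases hseg : ∀ s ∈ Set.Icc (0 : ℝ) 1, ((1 - s : ℝ) : ℂ) • (f₁ - (c : ℂ) • ψ) +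
      (s : ℂ) • (f₂ - (c : ℂ) • ψ) ≠ 0
  · exact d6_seg h1 h2 h3 h4 h5 H A₁ A₂ hψ hseg
  push Not at hseg
  obtain ⟨s, hs, hs0⟩ := hseg
  have par := H.h2.par
  have hc0 : 0 < c := par.e0.trans par.ec
  have hcψ : ‖(c : ℂ) • ψ‖ < 1 := by
    rw [norm_smul, Complex.norm_real, Real.norm_of_nonneg hc0.le]
    calc c * ‖ψ‖ ≤ c * 1 := mul_le_mul_of_nonneg_left hψ.1 hc0.le
      _ < 1 := by rw [mul_one]; exact par.c1
  have hne : ∀ {w : X} {f : X →L[ℂ] ℂ} {y : X} {L : ℝ}, Al c e w f x y L →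
      f - (c : ℂ) • ψ ≠ 0 := by
    intro w f y L A h
    have h6 : f = (c : ℂ) • ψ := sub_eq_zero.1 h
    have h7 := f.le_opNorm w
    rw [A.fw, A.nw, norm_one, mul_one, h6] at h7
    linarith
  set η₁ := f₁ - (c : ℂ) • ψ with hη₁
  set η₂ := f₂ - (c : ℂ) • ψ with hη₂
  have hη₁0 : η₁ ≠ 0 := hne A₁
  have hη₂0 : η₂ ≠ 0 := hne A₂
  have hs1 : s ≠ 0 := by
    rintro rfl
    exact hη₁0 (d6_zero hs0)
  have hs2 : s ≠ 1 := by
    rintro rfl
    exact hη₂0 (d6_one hs0)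
  have hspos : 0 < s := lt_of_le_of_ne hs.1 (Ne.symm hs1)
  have hs1' : 0 < 1 - s := by
    have := lt_of_le_of_ne hs.2 hs2
    linarith
  set k : ℝ := (1 - s) / s with hk
  have hk0 : 0 < k := by positivity
  have hη : η₂ = -((k : ℂ) • η₁) := by
    have hsc : (s : ℂ) ≠ 0 := by exact_mod_cast hs1
    have h6 : (s : ℂ) • η₂ = -(((1 - s : ℝ) : ℂ) • η₁) := by
      rw [eq_neg_iff_add_eq_zero, add_comm]
      exact hs0
    have h7 : η₂ = (s : ℂ)⁻¹ • ((s : ℂ) • η₂) := by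
      rw [smul_smul, inv_mul_cancel₀ hsc, one_smul]
    rw [h7, h6, smul_neg, smul_smul, hk]
    congr 2
    push_cast
    rw [div_eq_mul_inv, mul_comm]
  -- the third functional
  obtain ⟨r, hr0, hr1⟩ := d6_ray (E := X →L[ℂ] ℂ) (p := (c : ℂ) • ψ) (v := Complex.I • η₁) hcψ
    (smul_ne_zero Complex.I_ne_zero hη₁0)
  set f₃ : X →L[ℂ] ℂ := (c : ℂ) • ψ + (r : ℂ) • Complex.I • η₁ with hf₃
  obtain ⟨w₃, hw1, hw2⟩ := d6_norming hr1
  have hx3 : f₃ x = (c : ℂ) := by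
    rw [hf₃, hη₁]
    simp [hψ.2, A₁.fx]
  obtain ⟨y₃, L₃, A₃, _⟩ := h5 X c e par w₃ f₃ x hw1 hr1.le hw2 A₁.nx hx3
  have hf₃' : f₃ - (c : ℂ) • ψ = ((r : ℂ) * Complex.I) • η₁ := by
    rw [hf₃, add_sub_cancel_left, smul_smul]
  have e1 : (ψ y₁).re = (ψ y₃).re := by
    refine d6_seg h1 h2 h3 h4 h5 H A₁ A₃ hψ fun t ht h => ?_
    rw [hf₃', ← hη₁] at h
    replace h := d6_alg hη₁0 h
    have h6 := congrArg Complex.re h
    have h7 := congrArg Complex.im h
    simp at h6 h7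
    rcases h7 with h7 | h7
    · rw [h7] at h6
      simp at h6
    · exact hr0.ne' h7
  have e2 : (ψ y₃).re = (ψ y₂).re := by
    refine d6_seg h1 h2 h3 h4 h5 H A₃ A₂ hψ fun t ht h => ?_
    rw [hf₃', ← hη₂, hη] at h
    replace h := d6_alg' hη₁0 h
    have h6 := congrArg Complex.re h
    have h7 := congrArg Complex.im h
    simp at h6 h7
    rcases h7 with h7 | h7
    · rcases h6 with h6 | h6
      · rw [h6] at h7
        simp at h7
      · exact hk0.ne' h6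
    · exact hr0.ne' h7
  rw [e1, e2]

end NAO

end
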