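import Pool.Agent.Work.MP_9dede5_an.Bd.B01

/-! Bundle of small proof modules (one section per former module). -/

section

/-!
# Item D7: the function `l`.
-/

universe u

namespace NAO

open Filter Topology

namespace ItemD7

/-- A norming functional. -/
theorem exists_nm {X : Type u} [NormedAddCommGroup X] [NormedSpace ℂ X] (y : X) (hy : ‖y‖ = 1) :
    ∃ ψ : X →L[ℂ] ℂ, Nm ψ y := by
  have hne : ‖y‖ ≠ 0 := by
    rw [hy]
    exact one_ne_zero
  obtain ⟨ψ, h1, h2⟩ := exists_dual_vector ℂ y hne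
  refine ⟨ψ, h1.le, ?_⟩
  rw [h2, hy]
  norm_num

/-- A nonzero functional killing a given vector in dimension at least two. -/
theorem exists_functional {X : Type u} [NormedAddCommGroup X] [NormedSpace ℂ X]
    [FiniteDimensional ℂ X] (h : 2 ≤ Module.finrank ℂ X) (x : X) :
    ∃ η : X →L[ℂ] ℂ, η ≠ 0 ∧ η x = 0 := by
  have hfin : Module.finrank ℂ (Module.Dual ℂ X) = Module.finrank ℂ X :=
    Subspace.dual_finrank_eq
  have hker := LinearMap.ker_ne_bot_of_finrank_lt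
    (f := (Module.Dual.eval ℂ X x)) (by
      rw [Module.finrank_self, hfin]
      omega)
  obtain ⟨η, hη, hη0⟩ := (Submodule.ne_bot_iff _).1 hker
  rw [LinearMap.mem_ker] at hη
  refine ⟨LinearMap.toContinuousLinearMap η, ?_, ?_⟩
  · intro h0
    apply hη0
    have : LinearMap.toContinuousLinearMap η = LinearMap.toContinuousLinearMap (0 : X →ₗ[ℂ] ℂ) := by
      rw [h0, map_zero]
    exact LinearMap.toContinuousLinearMap.injective this
  · exact hη

/-- A functional on a finite dimensional space attains its norm at a unit vector with positive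
value. -/
theorem exists_norming {X : Type u} [NormedAddCommGroup X] [NormedSpace ℂ X]
    [FiniteDimensional ℂ X] (f : X →L[ℂ] ℂ) (hf : ‖f‖ = 1) :
    ∃ w : X, ‖w‖ = 1 ∧ f w = 1 := by
  have : ProperSpace X := FiniteDimensional.proper ℂ X
  have hne : f ≠ 0 := by
    intro h
    rw [h, norm_zero] at hf
    exact zero_ne_one hf
  obtain ⟨v0, hv0⟩ : ∃ v, f v ≠ 0 := by
    by_contra hcon
    push Not at hcon
    exact hne (ContinuousLinearMap.ext fun v => by simpa using hcon v)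
  have hv0' : v0 ≠ 0 := by
    intro h
    rw [h, map_zero] at hv0
    exact hv0 rfl
  have hsph : (Metric.sphere (0 : X) 1).Nonempty := by
    refine ⟨((‖v0‖⁻¹ : ℝ) : ℂ) • v0, ?_⟩
    rw [mem_sphere_zero_iff_norm, norm_smul, Complex.norm_real, norm_inv, norm_norm,
      inv_mul_cancel₀ (norm_ne_zero_iff.2 hv0')]
  obtain ⟨u, hu, hmax⟩ := (isCompact_sphere (0 : X) 1).exists_isMaxOn hsph
    (f := fun v => ‖f v‖) (f.continuous.norm.continuousOn)
  have hu1 : ‖u‖ = 1 := by simpa using hu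
  have hle : ‖f‖ ≤ ‖f u‖ := by
    refine ContinuousLinearMap.opNorm_le_bound f (norm_nonneg _) fun v => ?_
    rcases eq_or_ne v 0 with rfl | hv
    · simp
    · have hvn : ‖v‖ ≠ 0 := norm_ne_zero_iff.2 hv
      have hmem : ((‖v‖⁻¹ : ℝ) : ℂ) • v ∈ Metric.sphere (0 : X) 1 := by
        rw [mem_sphere_zero_iff_norm, norm_smul, Complex.norm_real, norm_inv, norm_norm,
          inv_mul_cancel₀ hvn]
      have h2 : ‖f (((‖v‖⁻¹ : ℝ) : ℂ) • v)‖ ≤ ‖f u‖ := hmax hmem
      rw [map_smul, norm_smul, Complex.norm_real, norm_inv, norm_norm] at h2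
      have h3 := mul_le_mul_of_nonneg_left h2 (norm_nonneg v)
      rw [← mul_assoc, mul_inv_cancel₀ hvn, one_mul] at h3
      linarith [mul_comm ‖f u‖ ‖v‖]
  have heq : ‖f u‖ = 1 := by
    refine le_antisymm ?_ (hf ▸ hle)
    have := f.le_opNorm u
    rw [hf, hu1, mul_one] at this
    exact this
  refine ⟨(starRingEnd ℂ (f u)) • u, ?_, ?_⟩
  · rw [norm_smul, hu1, RCLike.norm_conj, heq, mul_one]
  · rw [map_smul, smul_eq_mul, mul_comm, Complex.mul_conj, Complex.normSq_eq_norm_sq, heq]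
    norm_num

end ItemD7

open ItemD7 in
theorem itemD7 (h1 : SRay.{u}) (h2 : SAlB.{u}) (h3 : SAlE.{u}) (h4 : SPC.{u}) (h5 : SPE.{u}) :
    SL0.{u} := by
  intro X _ _ _ c e hdim hH
  have hpar := hH.h2.par
  have he0 := hpar.e0
  have hec := hpar.ec
  have hc1 := hpar.c1
  have hc0 : 0 < c := he0.trans hec
  have key : ∀ x : X, ∃ r : ℝ, ‖x‖ = 1 → e / c ≤ r ∧ r < 1 ∧
      ∀ (w : X) (f : X →L[ℂ] ℂ) (y : X) (L : ℝ), Al c e w f x y L →
        ∀ ψ : X →L[ℂ] ℂ, Nm ψ x → ψ y = (r : ℂ) := by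
    intro x
    by_cases hx : ‖x‖ = 1
    swap
    · exact ⟨0, fun h => absurd h hx⟩
    obtain ⟨ψ, hψ⟩ := exists_nm x hx
    obtain ⟨η, hη0, hηx⟩ := exists_functional hdim x
    have hp : ‖((c : ℂ) • ψ)‖ < 1 := by
      rw [norm_smul, Complex.norm_real, Real.norm_of_nonneg hc0.le]
      calc c * ‖ψ‖ ≤ c * 1 := mul_le_mul_of_nonneg_left hψ.1 hc0.le
        _ < 1 := by linarith
    obtain ⟨r, hr0, hr1, -⟩ := h1 (X →L[ℂ] ℂ) ((c : ℂ) • ψ) η hp hη0
    set f : X →L[ℂ] ℂ := (c : ℂ) • ψ + (r : ℂ) • η with hf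
    have hfx : f x = (c : ℂ) := by
      rw [hf, ContinuousLinearMap.add_apply, ContinuousLinearMap.smul_apply,
        ContinuousLinearMap.smul_apply, hψ.2, hηx, smul_zero, add_zero, smul_eq_mul, mul_one]
    obtain ⟨w, hw, hfw⟩ := exists_norming f hr1
    obtain ⟨y, L, hAl, -⟩ := h3 X c e hpar w f x hw hr1.le hfw hx hfx
    obtain ⟨him, -, hlt, -⟩ := h4 X c e hH w f x y L hAl ψ hψ
    refine ⟨(ψ y).re, fun _ => ⟨?_, ?_, ?_⟩⟩
    · rw [div_le_iff₀ hc0]
      linarith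
    · have hle : (ψ y).re ≤ 1 := by
        calc (ψ y).re ≤ ‖ψ y‖ := Complex.re_le_norm _
          _ ≤ ‖ψ‖ * ‖y‖ := ψ.le_opNorm y
          _ ≤ 1 * 1 := mul_le_mul hψ.1 hAl.ny.le (norm_nonneg _) zero_le_one
          _ = 1 := one_mul 1
      rcases hle.lt_or_eq with h | h
      · exact h
      · exfalso
        have hy1 : ψ y = 1 := Complex.ext (by simpa using h) (by simpa using him)
        have hxy : x = y := hH.conv ψ x y hψ.1 hx hAl.ny hψ.2 hy1
        have hfy := (h2 X c e hpar w f x y L hAl).2.1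
        rw [← hxy, hfx] at hfy
        have : c = e := by exact_mod_cast hfy
        linarith
    · intro w' f' y' L' hAl' ψ' hψ'
      have hψψ : ψ' = ψ := hH.smooth x ψ' ψ hx hψ' hψ
      subst hψψ
      have hre := h5 X c e hH x w w' y y' f f' L L' hAl hAl' ψ' hψ
      have him' := (h4 X c e hH w' f' x y' L' hAl' ψ' hψ).1
      apply Complex.ext
      · rw [Complex.ofReal_re, hre]
      · rw [Complex.ofReal_im, him']
  choose l hl using key
  exact ⟨l, hl⟩

end NAO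

end

section

/-!
E1: perturbation at a functional with a unique norming vector.
-/

universe u

namespace NAO

open Filter Topology

theorem itemE1 : SPert.{u} := by
  intro X _ _ _ g k w hg hw hgw huniq hk
  haveI : ProperSpace X := FiniteDimensional.proper ℂ X
  by_contra hcon
  push Not at hcon
  have h1 : ∀ n : ℕ, ∃ (s : ℝ) (v : X), 0 < s ∧ s < 1 / ((n : ℝ) + 1) ∧ ‖v‖ = 1 ∧
      1 < ((g v).re + s * (k v).re) := by
    intro n
    obtain ⟨s, hs0, hs1, hs2⟩ := hcon (1 / ((n : ℝ) + 1)) (by positivity)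
    have h2 : ∃ v : X, 1 * ‖v‖ < ‖(g + (s : ℂ) • k) v‖ := by
      by_contra h3
      push Not at h3
      exact absurd (ContinuousLinearMap.opNorm_le_bound _ zero_le_one h3) (not_le.mpr hs2)
    obtain ⟨v, hv⟩ := h2
    rw [one_mul] at hv
    set z := (g + (s : ℂ) • k) v with hz
    have hv0 : v ≠ 0 := by
      rintro rfl
      simp [hz] at hv
    have hvn : 0 < ‖v‖ := norm_pos_iff.mpr hv0
    have hzn : 0 < ‖z‖ := lt_of_le_of_lt (norm_nonneg _) hv
    have hz0 : z ≠ 0 := norm_pos_iff.mp hzn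
    have hznC : (‖z‖ : ℂ) ≠ 0 := by exact_mod_cast hzn.ne'
    have hvnC : (‖v‖ : ℂ) ≠ 0 := by exact_mod_cast hvn.ne'
    refine ⟨s, (((‖z‖ : ℂ) / z) * ((‖v‖ : ℂ))⁻¹) • v, hs0, hs1, ?_, ?_⟩
    · rw [norm_smul, norm_mul, norm_div, norm_inv, Complex.norm_real, Complex.norm_real,
        norm_norm, norm_norm, div_self hzn.ne', one_mul, inv_mul_cancel₀ hvn.ne']
    · have e1 : (g + (s : ℂ) • k) ((((‖z‖ : ℂ) / z) * ((‖v‖ : ℂ))⁻¹) • v) =
          ((‖z‖ / ‖v‖ : ℝ) : ℂ) := by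
        rw [map_smul, ← hz, smul_eq_mul]
        push_cast
        field_simp
      have e2 := congrArg Complex.re e1
      rw [Complex.ofReal_re, ContinuousLinearMap.add_apply, ContinuousLinearMap.smul_apply,
        Complex.add_re, smul_eq_mul, Complex.re_ofReal_mul] at e2
      rw [e2]
      rwa [one_lt_div hvn]
  choose s v hs0 hs1 hvn hgt using h1
  have hs : Tendsto s atTop (𝓝 0) := by
    refine squeeze_zero (fun n => (hs0 n).le) (fun n => (hs1 n).le) ?_
    exact tendsto_one_div_add_atTop_nhds_zero_nat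
  obtain ⟨v₀, hv₀, φ, hφ, hlim⟩ := (isCompact_sphere (0 : X) 1).tendsto_subseq
    (x := v) (fun n => by simp [hvn n])
  have hv₀n : ‖v₀‖ = 1 := by simpa using hv₀
  have hgv : Tendsto (fun n => (g (v (φ n))).re) atTop (𝓝 (g v₀).re) :=
    ((Complex.continuous_re.comp g.continuous).tendsto v₀).comp hlim
  have hkv : Tendsto (fun n => (k (v (φ n))).re) atTop (𝓝 (k v₀).re) :=
    ((Complex.continuous_re.comp k.continuous).tendsto v₀).comp hlim
  have hsφ : Tendsto (fun n => s (φ n)) atTop (𝓝 0) := hs.comp hφ.tendsto_atTop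
  have hsum : Tendsto (fun n => (g (v (φ n))).re + s (φ n) * (k (v (φ n))).re) atTop
      (𝓝 ((g v₀).re + 0 * (k v₀).re)) := hgv.add (hsφ.mul hkv)
  have hre : 1 ≤ (g v₀).re := by
    have := ge_of_tendsto' hsum (fun n => (hgt (φ n)).le)
    simpa using this
  have hgn : ∀ u : X, ‖u‖ = 1 → ‖g u‖ ≤ 1 := by
    intro u hu
    calc ‖g u‖ ≤ ‖g‖ * ‖u‖ := g.le_opNorm u
      _ ≤ 1 := by rw [hu, mul_one]; exact hg
  have hgv1 : g v₀ = 1 := by
    have h2 := hgn v₀ hv₀n
    have h3 : Complex.normSq (g v₀) ≤ 1 := by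
      rw [Complex.normSq_eq_norm_sq]
      nlinarith [norm_nonneg (g v₀)]
    rw [Complex.normSq_apply] at h3
    apply Complex.ext
    · rw [Complex.one_re]; nlinarith
    · rw [Complex.one_im]; nlinarith
  have hvw := huniq v₀ hv₀n hgv1
  have hkpos : ∀ n, 0 ≤ (k (v (φ n))).re := by
    intro n
    have h2 := hgt (φ n)
    have h3 : (g (v (φ n))).re ≤ 1 := (Complex.re_le_norm _).trans (hgn _ (hvn _))
    have h4 : 0 < s (φ n) * (k (v (φ n))).re := by linarith
    exact ((mul_pos_iff_of_pos_left (hs0 _)).mp h4).le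
  have := ge_of_tendsto' hkv hkpos
  rw [hvw] at this
  linarith

end NAO

end

section

/-!
Item E2 (MP_9dede5_an): Lagrange multiplier algebra.
-/

universe u

namespace NAO

theorem e2_dual {X : Type u} [NormedAddCommGroup X] [NormedSpace ℂ X] [FiniteDimensional ℂ X]
    (a v : X) (h : ∀ z : ℂ, v ≠ z • a) : ∃ k : X →L[ℂ] ℂ, k a = 0 ∧ k v ≠ 0 := by
  have hv : v ∉ Submodule.span ℂ {a} := by
    rw [Submodule.mem_span_singleton]
    rintro ⟨z, hz⟩
    exact h z hz.symm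
  obtain ⟨f, hf, hf'⟩ := Submodule.exists_le_ker_of_notMem hv
  refine ⟨LinearMap.toContinuousLinearMap f, ?_, ?_⟩
  · exact hf' (Submodule.mem_span_singleton_self a)
  · exact hf

theorem itemE2 : SLag.{u} := by
  intro X _ _ _ a b w hab hk
  obtain ⟨k1, hk1a, hk1b⟩ := e2_dual a b hab
  -- the functional with value `-1` at `b`
  obtain ⟨k0, h0a, h0b⟩ : ∃ k0 : X →L[ℂ] ℂ, k0 a = 0 ∧ k0 b = -1 := by
    refine ⟨(-(k1 b)⁻¹) • k1, ?_, ?_⟩
    · simp [hk1a]
    · simp [hk1b]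
  have hzero : ∀ k : X →L[ℂ] ℂ, k a = 0 → k b = 0 → k w = 0 := by
    intro k ha hb
    by_contra hne
    have h1 : ∀ z : ℂ, 0 ≤ (k0 w + z * k w).re := by
      intro z
      have := hk (k0 + z • k) (by simp [h0a, ha]) (by simp [h0b, hb])
      simpa using this
    have h2 := h1 (-((‖k0 w‖ + 1 : ℝ) : ℂ) / k w)
    rw [div_mul_cancel₀ _ hne] at h2
    have h3 := Complex.re_le_norm (k0 w)
    simp at h2
    linarith
  have hall : ∀ k : X →L[ℂ] ℂ, k a = 0 → k w + k b * k0 w = 0 := by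
    intro k ha
    have := hzero (k + (k b) • k0) (by simp [h0a, ha]) (by simp [h0b])
    simpa using this
  have hre : 0 ≤ (k0 w).re := by
    refine hk k0 h0a ?_
    rw [h0b]; simp
  have him : (k0 w).im = 0 := by
    by_contra hne
    have h1 : ∀ N : ℝ, 0 ≤ (k0 w).re + N * (k0 w).im := by
      intro N
      have := hk ((1 - (N : ℂ) * Complex.I) • k0) (by simp [h0a]) (by simp [h0b])
      simpa using this
    have h2 := h1 (-((k0 w).re + 1) / (k0 w).im)
    rw [div_mul_cancel₀ _ hne] at h2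
    linarith
  have hτ : k0 w = (((k0 w).re : ℝ) : ℂ) := by
    apply Complex.ext
    · simp
    · simp [him]
  by_cases hw : ∃ α : ℂ, w + (((k0 w).re : ℝ) : ℂ) • b = α • a
  · obtain ⟨α, hα⟩ := hw
    exact ⟨α, (k0 w).re, hre, by rw [← hα]; abel⟩
  · exfalso
    obtain ⟨k, ha, hne⟩ := e2_dual a (w + (((k0 w).re : ℝ) : ℂ) • b)
      (fun z hz => hw ⟨z, hz⟩)
    apply hne
    have := hall k ha
    rw [map_add, map_smul, smul_eq_mul, ← hτ, mul_comm (k0 w) (k b)]
    exact this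

end NAO

end

section

/-!
E3: alignment is symmetric.
-/

universe u

namespace NAO

/-- A functional on a finite dimensional space attains its norm. -/
theorem E3_norming {X : Type u} [NormedAddCommGroup X] [NormedSpace ℂ X] [FiniteDimensional ℂ X]
    (g : X →L[ℂ] ℂ) (hg : ‖g‖ = 1) : ∃ w : X, ‖w‖ = 1 ∧ g w = 1 := by
  have : ProperSpace X := FiniteDimensional.proper ℂ X
  obtain ⟨v, hv, hmax⟩ := (isCompact_closedBall (0 : X) 1).exists_isMaxOn
    ⟨0, Metric.mem_closedBall_self zero_le_one⟩ (g.continuous.norm.continuousOn)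
  have hv1 : ‖v‖ ≤ 1 := by simpa using hv
  have h1 : ‖g‖ ≤ ‖g v‖ := by
    apply g.opNorm_le_bound (norm_nonneg _)
    intro x
    by_cases hx : x = 0
    · simp [hx]
    have hx0 : 0 < ‖x‖ := norm_pos_iff.2 hx
    have h2 : ((‖x‖⁻¹ : ℝ) : ℂ) • x ∈ Metric.closedBall (0 : X) 1 := by
      rw [mem_closedBall_zero_iff, norm_smul, Complex.norm_real, norm_inv, norm_norm,
        inv_mul_cancel₀ hx0.ne']
    have h3 : ‖g (((‖x‖⁻¹ : ℝ) : ℂ) • x)‖ ≤ ‖g v‖ := hmax h2
    rw [map_smul, norm_smul, Complex.norm_real, norm_inv, norm_norm, inv_mul_le_iff₀ hx0] at h3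
    rw [mul_comm]
    exact h3
  have h4 : ‖g v‖ ≤ ‖v‖ := by
    have := g.le_opNorm v
    rwa [hg, one_mul] at this
  have h5 : ‖v‖ = 1 := le_antisymm hv1 (by linarith)
  have h6 : ‖g v‖ = 1 := le_antisymm (by linarith) (by linarith)
  have h7 : g v ≠ 0 := by
    intro h
    rw [h, norm_zero] at h6
    exact zero_ne_one h6
  refine ⟨(g v)⁻¹ • v, ?_, ?_⟩
  · rw [norm_smul, norm_inv, h6, h5]
    norm_num
  · rw [map_smul, smul_eq_mul, inv_mul_cancel₀ h7]

theorem E3_small (e : ℝ) (z : ℂ) (he : 0 < e) (hz : z.re < 0) (s₀ : ℝ) (hs : 0 < s₀) :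
    ∃ s : ℝ, 0 < s ∧ s < s₀ ∧ ‖(e : ℂ) + (s : ℂ) * z‖ < e := by
  set N : ℝ := ‖z‖ ^ 2 with hN
  have hN0 : 0 < N := by
    have : z ≠ 0 := by
      rintro rfl
      simp at hz
    positivity
  set s := min (s₀ / 2) (e * -z.re / N) with hsdef
  have h1 : 0 < s := lt_min (by linarith) (div_pos (mul_pos he (by linarith)) hN0)
  refine ⟨s, h1, lt_of_le_of_lt (min_le_left _ _) (by linarith), ?_⟩
  have h2 : s * N ≤ e * -z.re := by
    have := min_le_right (s₀ / 2) (e * -z.re / N)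
    rw [← hsdef, le_div_iff₀ hN0] at this
    exact this
  have h3 : ‖(e : ℂ) + (s : ℂ) * z‖ ^ 2 = e ^ 2 + 2 * e * s * z.re + s ^ 2 * N := by
    rw [hN, ← Complex.normSq_eq_norm_sq, ← Complex.normSq_eq_norm_sq, Complex.normSq_apply,
      Complex.normSq_apply]
    simp only [Complex.add_re, Complex.ofReal_re, Complex.mul_re, Complex.ofReal_im, zero_mul,
      sub_zero, Complex.add_im, Complex.mul_im, add_zero, zero_add]
    ring
  have h4 : ‖(e : ℂ) + (s : ℂ) * z‖ ^ 2 < e ^ 2 := by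
    rw [h3]
    have h5 : s ^ 2 * N ≤ s * (e * -z.re) := by
      have := mul_le_mul_of_nonneg_left h2 h1.le
      nlinarith
    have h6 : 0 < s * (e * -z.re) := mul_pos h1 (mul_pos he (by linarith))
    nlinarith
  exact lt_of_pow_lt_pow_left₀ 2 he.le h4

theorem itemE3 (h1 : SAlB.{u}) (h2 : SPC.{u}) (h3 : SPert.{u}) (h4 : SLag.{u}) : SPF.{u} := by
  intro X _ _ _ c e hH w f x y L hAl
  have hp := hH.h2.par
  have he := hp.e0
  have hc : 0 < c := he.trans hp.ec
  obtain ⟨-, hfy, -⟩ := h1 X c e hp w f x y L hAl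
  have hx0 : ‖x‖ ≠ 0 := by
    rw [hAl.nx]
    exact one_ne_zero
  obtain ⟨ψ, hψn, hψx⟩ := exists_dual_vector ℂ x hx0
  have hψ : Nm ψ x := ⟨hψn.le, by rw [hψx, hAl.nx]; norm_num⟩
  obtain ⟨him, -, hlt, t, -, -, hAA, hgx⟩ := h2 X c e hH w f x y L hAl ψ hψ
  set g : X →L[ℂ] ℂ := (t : ℂ) • ψ + (((e - t) / c : ℝ) : ℂ) • f with hg
  obtain ⟨hg1, hgy, -⟩ := hAA
  have hk1 := hH.h2.k1 w f x y L hAl
  -- a functional vanishing at `y` with value `-1` at `x`
  have hψy : ψ y = (((ψ y).re : ℝ) : ℂ) := by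
    apply Complex.ext
    · simp
    · simpa using him
  set D : ℝ := c * (ψ y).re - e with hD
  have hD0 : 0 < D := by rw [hD]; linarith
  set k : X →L[ℂ] ℂ := (-(D : ℂ)⁻¹) • (ψ y • f - (e : ℂ) • ψ) with hk
  have hky : k y = 0 := by
    simp only [hk, smul_apply, sub_apply, smul_eq_mul, hfy]
    ring
  have hDc : (D : ℂ) ≠ 0 := by exact_mod_cast hD0.ne'
  have hkx : k x = -1 := by
    simp only [hk, smul_apply, sub_apply, smul_eq_mul, hAl.fx, hψ.2]
    rw [hψy]
    have : (((ψ y).re : ℝ) : ℂ) * c - e * 1 = (D : ℂ) := by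
      rw [hD]; push_cast; ring
    rw [this]
    field_simp
  have hind : ∀ z : ℂ, x ≠ z • y := by
    intro z hz
    have := hkx
    rw [hz, map_smul, hky, smul_zero] at this
    norm_num at this
  -- `g` has norm one
  have hgn : ‖g‖ = 1 := by
    apply le_antisymm hg1
    by_contra hlt1
    push Not at hlt1
    set s₀ : ℝ := (1 - ‖g‖) / (‖k‖ + 1) with hs₀
    have hk0 : 0 < ‖k‖ + 1 := by positivity
    have hs₀p : 0 < s₀ := div_pos (by linarith) hk0
    obtain ⟨s, hs, hss, hlt2⟩ := E3_small e (-1) he (by simp) s₀ hs₀p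
    have h5 : ‖g + (s : ℂ) • k‖ ≤ 1 := by
      refine (norm_add_le _ _).trans ?_
      rw [norm_smul, Complex.norm_real, Real.norm_eq_abs, abs_of_pos hs]
      have h6 : s * (‖k‖ + 1) ≤ 1 - ‖g‖ := by
        have := hss.le
        rwa [hs₀, le_div_iff₀ hk0] at this
      nlinarith
    have h7 := hk1 (g + (s : ℂ) • k) h5 (by
      rw [add_apply, smul_apply, hky, hgy, smul_zero, add_zero, Complex.norm_real,
        Real.norm_eq_abs, abs_of_pos hc])
    rw [add_apply, smul_apply, hkx, hgx, smul_eq_mul] at h7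
    linarith
  obtain ⟨w', hw', hgw'⟩ := E3_norming g hgn
  have huniq : ∀ v : X, ‖v‖ = 1 → g v = 1 → v = w' :=
    fun v hv hgv => hH.conv g v w' hg1 hv hw' hgv hgw'
  have hlag : ∀ k : X →L[ℂ] ℂ, k y = 0 → (k x).re < 0 → 0 ≤ (k w').re := by
    intro k hky hkx
    by_contra hneg
    push Not at hneg
    obtain ⟨s₀, hs₀, hs⟩ := h3 X g k w' hg1 hw' hgw' huniq hneg
    obtain ⟨s, hs1, hs2, hlt2⟩ := E3_small e (k x) he hkx s₀ hs₀
    have h7 := hk1 (g + (s : ℂ) • k) (hs s hs1 hs2) (by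
      rw [add_apply, smul_apply, hky, hgy, smul_zero, add_zero, Complex.norm_real,
        Real.norm_eq_abs, abs_of_pos hc])
    rw [add_apply, smul_apply, hgx, smul_eq_mul] at h7
    linarith
  obtain ⟨α, τ, hτ, hw⟩ := h4 X y x w' hind hlag
  have hcc : (c : ℂ) ≠ 0 := by exact_mod_cast hc.ne'
  have hα : α = (((1 + τ * e) / c : ℝ) : ℂ) := by
    have h8 : g w' = α * c - τ * e := by
      rw [hw, map_sub, map_smul, map_smul, hgy, hgx, smul_eq_mul, smul_eq_mul]
    rw [hgw'] at h8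
    push_cast
    rw [eq_div_iff hcc]
    linear_combination -h8
  have hτ0 : τ ≠ 0 := by
    intro h
    rw [h] at hw hα
    simp only [Complex.ofReal_zero, zero_smul, sub_zero, zero_mul, add_zero] at hw hα
    have h9 : ‖w'‖ = 1 / c := by
      rw [hw, hα, norm_smul, Complex.norm_real, Real.norm_eq_abs, abs_of_pos (by positivity),
        hAl.ny, mul_one]
    rw [hw', eq_div_iff hc.ne', one_mul] at h9
    exact hp.c1.ne h9
  have hτp : 0 < τ := lt_of_le_of_ne hτ (Ne.symm hτ0)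
  have hτc : (τ : ℂ) ≠ 0 := by exact_mod_cast hτ0
  refine ⟨w', g, (1 + τ * e) / c / τ, hw', hg1, hgw', hAl.ny, hAl.nx, hgy, by positivity, ?_⟩
  have h10 : (((1 + τ * e) / c / τ : ℝ) : ℂ) = α / τ := by
    rw [hα]; push_cast; ring
  rw [h10]
  have h11 : x = (τ : ℂ)⁻¹ • (α • y - w') := by
    rw [hw, sub_sub_cancel, smul_smul, inv_mul_cancel₀ hτc, one_smul]
  have h12 : α * c = 1 + τ * e := by
    rw [hα]; push_cast
    field_simp
  have h13 : α / τ * c - e = (τ : ℂ)⁻¹ := by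
    rw [div_mul_eq_mul_div, h12]
    field_simp
    ring
  have h14 : (e : ℂ) • w' + (α / τ) • (y - (c : ℂ) • w') =
      (α / τ) • y - (α / τ * c - e) • w' := by
    rw [smul_sub, smul_smul, sub_smul]
    abel
  rw [h14, h13]
  nth_rewrite 1 [h11]
  rw [smul_sub, smul_smul, div_eq_inv_mul]

end NAO

end

section

/-!
E4 (PG): aligned points exist in every tangent direction (MP_9dede5_an).
-/

universe u

namespace NAO

open Filter Topology

namespace E4

variable {X : Type u} [NormedAddCommGroup X] [NormedSpace ℂ X] [FiniteDimensional ℂ X]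

/-- a functional vanishing on `a` with value `-1` at `b`. -/
lemma exists_k (a b : X) (hb : ∀ z : ℂ, b ≠ z • a) :
    ∃ k : X →L[ℂ] ℂ, k a = 0 ∧ k b = -1 := by
  have hmem : b ∉ Submodule.span ℂ ({a} : Set X) := by
    intro h
    obtain ⟨z, hz⟩ := Submodule.mem_span_singleton.1 h
    exact hb z hz.symm
  obtain ⟨f, hf, hf'⟩ := Submodule.exists_dual_map_eq_bot_of_notMem hmem inferInstance
  have hfa : f a = 0 := by
    have : f a ∈ (Submodule.span ℂ ({a} : Set X)).map f :=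
      Submodule.mem_map_of_mem (Submodule.mem_span_singleton_self a)
    rw [hf'] at this
    exact (Submodule.mem_bot ℂ).1 this
  refine ⟨LinearMap.toContinuousLinearMap ((-(f b)⁻¹) • f), ?_, ?_⟩
  · simp [hfa]
  · simp [hf]

/-- the norm is attained, at a point with value the norm. -/
lemma exists_norming (f : X →L[ℂ] ℂ) (hf : ‖f‖ = 1) : ∃ w : X, ‖w‖ = 1 ∧ f w = 1 := by
  haveI : ProperSpace X := FiniteDimensional.proper ℂ X
  have hne : (Metric.closedBall (0 : X) 1).Nonempty := ⟨0, by simp⟩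
  obtain ⟨w₀, hw₀, hmax⟩ := (isCompact_closedBall (0 : X) 1).exists_isMaxOn hne
    (f := fun v => ‖f v‖) (by fun_prop)
  have hle : ‖f‖ ≤ ‖f w₀‖ := by
    refine f.opNorm_le_bound (norm_nonneg _) (fun v => ?_)
    rcases eq_or_ne v 0 with rfl | hv
    · simp
    · have hvn : 0 < ‖v‖ := norm_pos_iff.2 hv
      have h1 : ((‖v‖⁻¹ : ℝ) : ℂ) • v ∈ Metric.closedBall (0 : X) 1 := by
        simp [norm_smul, hvn.ne']
      have h2 := hmax h1
      simp only [Set.mem_ofPred_eq] at h2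
      rw [map_smul, norm_smul] at h2
      have h3 : ‖((‖v‖⁻¹ : ℝ) : ℂ)‖ = ‖v‖⁻¹ := by
        rw [Complex.norm_real]; simp
      rw [h3] at h2
      rw [inv_mul_le_iff₀ hvn] at h2
      linarith [mul_comm ‖v‖ ‖f w₀‖]
  have hw1 : ‖w₀‖ ≤ 1 := by simpa using hw₀
  have h4 : ‖f w₀‖ ≤ ‖w₀‖ := by
    have := f.le_opNorm w₀
    rwa [hf, one_mul] at this
  have h5 : ‖w₀‖ = 1 := le_antisymm hw1 (by rw [hf] at hle; linarith)
  have h6 : ‖f w₀‖ = 1 := le_antisymm (by linarith) (by rw [hf] at hle; exact hle)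
  have h7 : f w₀ ≠ 0 := by
    intro h; rw [h] at h6; simp at h6
  refine ⟨(f w₀)⁻¹ • w₀, ?_, ?_⟩
  · rw [norm_smul, norm_inv, h6, h5]; simp
  · rw [map_smul, smul_eq_mul, inv_mul_cancel₀ h7]

end E4

open E4

theorem itemE4 (h1 : SAlB.{u}) (h2 : SPC.{u}) (h3 : SAlE.{u}) (h4 : SPert.{u}) (h5 : SLag.{u}) :
    SPG.{u} := by
  intro X _ _ _ c e H x n ψ hx hψ hn hψn
  haveI : ProperSpace X := FiniteDimensional.proper ℂ X
  haveI : ProperSpace (X →L[ℂ] ℂ) := FiniteDimensional.proper ℂ (X →L[ℂ] ℂ)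
  obtain ⟨e0, ec, c1⟩ := H.h2.par
  have c0 : 0 < c := e0.trans ec
  obtain ⟨hψ1, hψx⟩ := hψ
  -- the set F
  set F : Set (X →L[ℂ] ℂ) := {h | ‖h‖ ≤ 1 ∧ h x = (c : ℂ)} with hF
  have hFc : IsCompact F := by
    have : F = Metric.closedBall (0 : X →L[ℂ] ℂ) 1 ∩ {h | h x = (c : ℂ)} := by
      ext h; simp [hF]
    rw [this]
    refine (isCompact_closedBall _ _).inter_right (isClosed_eq ?_ continuous_const)
    exact (ContinuousLinearMap.apply ℂ ℂ x).continuous
  have hFψ : ((c : ℂ) • ψ) ∈ F := by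
    refine ⟨?_, ?_⟩
    · rw [norm_smul, Complex.norm_real, Real.norm_eq_abs, abs_of_pos c0]
      nlinarith [norm_nonneg ψ]
    · simp [hψx]
  have hFne : F.Nonempty := ⟨_, hFψ⟩
  -- norms along the ray
  have hN : ∀ s : ℝ, 1 ≤ ‖x + (s : ℂ) • n‖ := by
    intro s
    have ha : ψ (x + (s : ℂ) • n) = 1 := by simp [hψx, hψn]
    have hb := ψ.le_opNorm (x + (s : ℂ) • n)
    rw [ha, norm_one] at hb
    nlinarith [norm_nonneg (x + (s : ℂ) • n), norm_nonneg ψ]
  have hnx : ∀ z : ℂ, n ≠ z • x := by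
    intro z hz
    have : ψ n = z := by rw [hz]; simp [hψx]
    rw [hψn] at this
    rw [← this] at hz
    simp at hz
    exact hn hz
  -- the function
  set G : ℝ → (X →L[ℂ] ℂ) → ℝ := fun s h =>
    (h (x + (s : ℂ) • n)).re - e * ‖x + (s : ℂ) • n‖ with hG
  have hGc : Continuous ↿G := by
    have h1 : Continuous (fun q : ℝ × (X →L[ℂ] ℂ) => x + ((q.1 : ℝ) : ℂ) • n) := by fun_prop
    have h2 : Continuous (fun q : ℝ × (X →L[ℂ] ℂ) => q.2 (x + ((q.1 : ℝ) : ℂ) • n)) :=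
      continuous_snd.clm_apply h1
    exact (Complex.continuous_re.comp h2).sub (continuous_const.mul h1.norm)
  have hm : Continuous (fun s => sInf (G s '' F)) := hFc.continuous_sInf hGc
  have hGs : ∀ s, ContinuousOn (G s) F := by
    intro s
    exact (hGc.comp (Continuous.prodMk continuous_const continuous_id)).continuousOn
  have hatt : ∀ s, ∃ f ∈ F, sInf (G s '' F) = G s f ∧ ∀ h ∈ F, G s f ≤ G s h := by
    intro s
    exact hFc.exists_sInf_image_eq_and_le hFne (hGs s)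
  -- at zero
  have hz0 : 0 < sInf (G 0 '' F) := by
    obtain ⟨f, hf, hfe, -⟩ := hatt 0
    rw [hfe]
    simp only [hG]
    simp only [Complex.ofReal_zero, zero_smul, add_zero, hf.2, hx, Complex.ofReal_re, mul_one]
    linarith
  -- negative somewhere
  obtain ⟨k, hk1, hk2⟩ := exists_k x n hnx
  set r : ℝ := (1 - c) / (‖k‖ + 1) with hr
  have hk0 : 0 < ‖k‖ + 1 := by positivity
  have r0 : 0 < r := div_pos (by linarith) hk0
  have hrk : r * ‖k‖ ≤ 1 - c := by
    rw [hr, div_mul_eq_mul_div, div_le_iff₀ hk0]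
    nlinarith [norm_nonneg k]
  set s₁ : ℝ := c / r + 1 with hs₁
  have s₁0 : 0 < s₁ := by positivity
  have hneg : sInf (G s₁ '' F) < 0 := by
    obtain ⟨f, hf, hfe, hmin⟩ := hatt s₁
    have hh : ((c : ℂ) • ψ + (r : ℂ) • k) ∈ F := by
      refine ⟨?_, ?_⟩
      · refine (norm_add_le _ _).trans ?_
        rw [norm_smul, norm_smul, Complex.norm_real, Complex.norm_real, Real.norm_eq_abs,
          Real.norm_eq_abs, abs_of_pos c0, abs_of_pos r0]
        nlinarith [norm_nonneg ψ]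
      · simp [hψx, hk1]
    have h6 := hmin _ hh
    rw [hfe]
    refine lt_of_le_of_lt h6 ?_
    simp only [hG]
    have h7 : ((c : ℂ) • ψ + (r : ℂ) • k) (x + (s₁ : ℂ) • n) = ((c - r * s₁ : ℝ) : ℂ) := by
      simp [hψx, hψn, hk1, hk2]
      ring
    rw [h7, Complex.ofReal_re]
    have h8 : r * s₁ = c + r := by
      rw [hs₁]; field_simp
    have h9 := hN s₁
    nlinarith
  -- the zero
  obtain ⟨s₀, hs₀, hs₀z⟩ : ∃ s₀ ∈ Set.Icc (0 : ℝ) s₁, sInf (G s₀ '' F) = 0 := by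
    have := intermediate_value_Icc' s₁0.le (hm.continuousOn (s := Set.Icc 0 s₁))
    exact this ⟨hneg.le, hz0.le⟩
  have s₀0 : 0 < s₀ := by
    rcases hs₀.1.eq_or_lt with h | h
    · rw [← h] at hs₀z; linarith
    · exact h
  obtain ⟨f, hf, hfe, hmin⟩ := hatt s₀
  rw [hs₀z] at hfe
  set N : ℝ := ‖x + (s₀ : ℂ) • n‖ with hNdef
  have N1 : 1 ≤ N := hN s₀
  have N0 : 0 < N := by linarith
  set y : X := ((N⁻¹ : ℝ) : ℂ) • (x + (s₀ : ℂ) • n) with hy
  have hyn : ‖y‖ = 1 := by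
    rw [hy, norm_smul, Complex.norm_real, Real.norm_eq_abs, abs_of_pos (inv_pos.2 N0), ← hNdef]
    field_simp
  have hxy : x + (s₀ : ℂ) • n = (N : ℂ) • y := by
    rw [hy, smul_smul, ← Complex.ofReal_mul, mul_inv_cancel₀ N0.ne']; simp
  have hval : ∀ h : X →L[ℂ] ℂ, G s₀ h = N * ((h y).re - e) := by
    intro h
    simp only [hG]
    rw [← hNdef, hxy, map_smul, smul_eq_mul, Complex.re_ofReal_mul]
    ring
  have hfy : (f y).re = e := by
    rw [hval f] at hfe
    rcases mul_eq_zero.1 hfe.symm with h | h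
    · exact absurd h N0.ne'
    · linarith
  have hmin' : ∀ h ∈ F, e ≤ (h y).re := by
    intro h hh
    have h6 := hmin h hh
    rw [← hfe, hval h] at h6
    by_contra hlt
    push Not at hlt
    have : N * ((h y).re - e) < 0 := mul_neg_of_pos_of_neg N0 (by linarith)
    linarith
  have hyx : ∀ z : ℂ, y ≠ z • x := by
    intro z hz
    have h6 : (s₀ : ℂ) • n = ((N : ℂ) * z - 1) • x := by
      rw [sub_smul, mul_smul, ← hz, ← hxy]; simp
    have hs0c : (s₀ : ℂ) ≠ 0 := by exact_mod_cast s₀0.ne'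
    apply hnx ((s₀ : ℂ)⁻¹ * ((N : ℂ) * z - 1))
    rw [mul_smul, ← h6, smul_smul, inv_mul_cancel₀ hs0c, one_smul]
  -- the norm of f is one
  have hf1 : ‖f‖ = 1 := by
    by_contra hne
    have hlt : ‖f‖ < 1 := lt_of_le_of_ne hf.1 hne
    obtain ⟨k', hk1', hk2'⟩ := exists_k x y hyx
    have hk0' : 0 < ‖k'‖ + 1 := by positivity
    set t : ℝ := (1 - ‖f‖) / (‖k'‖ + 1) with ht
    have t0 : 0 < t := div_pos (by linarith) hk0'
    have htk : t * ‖k'‖ ≤ 1 - ‖f‖ := by
      rw [ht, div_mul_eq_mul_div, div_le_iff₀ hk0']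
      nlinarith [norm_nonneg k']
    have hh : (f + (t : ℂ) • k') ∈ F := by
      refine ⟨?_, ?_⟩
      · refine (norm_add_le _ _).trans ?_
        rw [norm_smul, Complex.norm_real, Real.norm_eq_abs, abs_of_pos t0]
        linarith
      · simp [hf.2, hk1']
    have h6 := hmin' _ hh
    have h7 : ((f + (t : ℂ) • k') y).re = e - t := by
      simp [hk2', hfy]
      ring
    linarith
  obtain ⟨w, hw1, hfw⟩ := exists_norming f hf1
  have huniq : ∀ v : X, ‖v‖ = 1 → f v = 1 → v = w := by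
    intro v hv hfv
    exact H.conv f v w hf.1 hv hw1 hfv hfw
  have hnok : ∀ k : X →L[ℂ] ℂ, k x = 0 → (k y).re < 0 → 0 ≤ (k w).re := by
    intro k hkx hky
    by_contra hlt
    push Not at hlt
    obtain ⟨t₀, ht₀, hpert⟩ := h4 X f k w hf.1 hw1 hfw huniq hlt
    have h6 := hpert (t₀ / 2) (by linarith) (by linarith)
    have hh : (f + ((t₀ / 2 : ℝ) : ℂ) • k) ∈ F := by
      refine ⟨h6, ?_⟩
      simp [hf.2, hkx]
    have h7 := hmin' _ hh
    have h8 : ((f + ((t₀ / 2 : ℝ) : ℂ) • k) y).re = e + t₀ / 2 * (k y).re := by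
      rw [ContinuousLinearMap.add_apply, ContinuousLinearMap.smul_apply, smul_eq_mul,
        Complex.add_re, Complex.re_ofReal_mul, hfy]
    nlinarith
  obtain ⟨α, τ, τ0, hw⟩ := h5 X x y w hyx hnok
  -- psi w is real
  obtain ⟨y', L', hAl', -⟩ := h3 X c e H.h2.par w f x hw1 hf.1 hfw hx hf.2
  have hψw : (ψ w).im = 0 := (h2 X c e H w f x y' L' hAl' ψ ⟨hψ1, hψx⟩).2.1
  have hψy : ψ y = ((N⁻¹ : ℝ) : ℂ) := by
    rw [hy, map_smul, map_add, map_smul, hψx, hψn]; simp
  have hα : α = ((ψ w).re + τ * N⁻¹ : ℝ) := by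
    have h6 : ψ w = α - (τ : ℂ) * ((N⁻¹ : ℝ) : ℂ) := by
      conv_lhs => rw [hw]
      simp only [map_sub, map_smul, hψx, hψy, smul_eq_mul, mul_one]
    have h7 : ψ w = (((ψ w).re : ℝ) : ℂ) := by
      apply Complex.ext <;> simp [hψw]
    rw [h7] at h6
    push_cast
    push_cast at h6
    rw [h6]; ring
  set a : ℝ := (ψ w).re + τ * N⁻¹ with ha
  have hfw' : (1 : ℂ) = (a : ℂ) * (c : ℂ) - (τ : ℂ) * f y := by
    rw [← hfw]
    conv_lhs => rw [hw]
    rw [map_sub, map_smul, map_smul, hf.2, hα, smul_eq_mul, smul_eq_mul]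
  have hre : 1 = a * c - τ * e := by
    have := congrArg Complex.re hfw'
    rw [Complex.sub_re, Complex.re_ofReal_mul, Complex.re_ofReal_mul, hfy] at this
    simpa using this
  have him : τ * (f y).im = 0 := by
    have := congrArg Complex.im hfw'
    rw [Complex.sub_im, Complex.im_ofReal_mul, Complex.im_ofReal_mul] at this
    simp at this
    rcases this with h | h <;> simp [h]
  have τ1 : 0 < τ := by
    rcases τ0.eq_or_lt with h | h
    · exfalso
      rw [← h] at hre hw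
      have h6 : ‖w‖ = |a| := by
        rw [hw, hα]
        simp [norm_smul, hx]
      rw [hw1] at h6
      have h7 : |a| = |a| * 1 := by ring
      have h8 : 1 ≤ |a| * c := by
        calc (1 : ℝ) = a * c := by linarith
          _ ≤ |a| * c := by
            apply mul_le_mul_of_nonneg_right (le_abs_self a) c0.le
      rw [← h6] at h8
      linarith
    · exact h
  have hfyim : (f y).im = 0 := by
    rcases mul_eq_zero.1 him with h | h
    · exact absurd h τ1.ne'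
    · exact h
  have a0 : 0 < a := by
    have : 0 < a * c := by nlinarith
    exact (pos_iff_pos_of_mul_pos this).2 c0
  refine ⟨s₀, w, f, a / τ, s₀0, ?_⟩
  refine ⟨hw1, hf.1, hfw, hx, hyn, hf.2, div_pos a0 τ1, ?_⟩
  have hτc : (τ : ℂ) ≠ 0 := by exact_mod_cast τ1.ne'
  have h6 : (1 : ℂ) = (a : ℂ) * c - τ * e := by exact_mod_cast hre
  have h7 : (τ : ℂ) • y = (a : ℂ) • x - w := by
    rw [hw, hα]; abel
  have h8 : y = (τ : ℂ)⁻¹ • ((a : ℂ) • x - w) := by
    rw [← h7, smul_smul, inv_mul_cancel₀ hτc, one_smul]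
  change y = _
  rw [h8]
  push_cast
  rw [smul_sub, smul_sub, smul_smul, smul_smul]
  have h9 : ((a : ℂ) / (τ : ℂ) * (c : ℂ)) = (τ : ℂ)⁻¹ + e := by
    have : (a : ℂ) * c = 1 + τ * e := by linear_combination -h6
    field_simp
    linear_combination this
  rw [h9, add_smul]
  have h10 : (τ : ℂ)⁻¹ * (a : ℂ) = (a : ℂ) / (τ : ℂ) := by
    field_simp
  rw [h10]
  abel

end NAO

end

section

/-!
E5. (PH) property R.
-/

universe u

namespace NAO

theorem itemE5 (h1 : SRay.{u}) (h2 : SL0.{u}) (h3 : SPF.{u}) (h4 : SPG.{u}) : SPH.{u} := by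
  intro X _ _ _ c e hdim H
  have par := H.h2.par
  have hc0 : 0 < c := par.e0.trans par.ec
  have hec : 0 < e / c := div_pos par.e0 hc0
  obtain ⟨l, hl⟩ := h2 X c e hdim H
  refine ⟨l, hec, fun x hx => (hl x hx).1, fun x hx => (hl x hx).2.1, ?_⟩
  intro x y ψ φ hx hy hψ hφ hψy
  obtain ⟨hlx1, hlx2, hlx3⟩ := hl x hx
  have hlpos : 0 < l x := lt_of_lt_of_le hec hlx1
  set n : X := y - (l x : ℂ) • x with hn
  have hψn : ψ n = 0 := by
    rw [hn, map_sub, map_smul, hψy, hψ.2]; simp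
  have hpn : ‖(l x : ℂ) • x‖ < 1 := by
    rw [norm_smul, hx, mul_one, Complex.norm_real, Real.norm_of_nonneg hlpos.le]
    exact hlx2
  have hyn : y = (l x : ℂ) • x + n := by rw [hn]; abel
  have hn0 : n ≠ 0 := by
    intro h
    rw [h, add_zero] at hyn
    rw [← hyn, hy] at hpn
    exact lt_irrefl _ hpn
  obtain ⟨s, w, f, L, hs, hAl⟩ := h4 X c e H x n ψ hx hψ hn0 hψn
  set N : ℝ := ‖x + (s : ℂ) • n‖ with hN
  have hy' := hlx3 w f _ L hAl ψ hψ
  have hNl : (N⁻¹ : ℝ) = l x := by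
    have e1 : ψ (((N⁻¹ : ℝ) : ℂ) • (x + (s : ℂ) • n)) = ((N⁻¹ : ℝ) : ℂ) := by
      rw [map_smul, map_add, map_smul, hψn, hψ.2]; simp
    rw [e1] at hy'
    exact_mod_cast hy'
  rw [hNl] at hAl
  have hny' := hAl.ny
  have hform : (l x : ℂ) • (x + (s : ℂ) • n) = (l x : ℂ) • x + ((l x * s : ℝ) : ℂ) • n := by
    rw [smul_add, smul_smul]; push_cast; rfl
  rw [hform] at hAl hny'
  obtain ⟨r, hr0, hr1, hr2⟩ := h1 X _ n hpn hn0
  have huniq : ∀ r' : ℝ, 0 ≤ r' → ‖(l x : ℂ) • x + (r' : ℂ) • n‖ = 1 → r' = r := by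
    intro r' h0 h1'
    obtain ⟨ha, hb⟩ := hr2 r' h0
    rcases lt_trichotomy r' r with h | h | h
    · exact absurd h1' (ha h).ne
    · exact h
    · exact absurd h1' (hb h).ne'
  have hA : l x * s = r := huniq _ (by positivity) hny'
  have hB : (1 : ℝ) = r := huniq 1 (by norm_num) (by
    rw [Complex.ofReal_one, one_smul, ← hyn]; exact hy)
  have hAB : l x * s = 1 := by rw [hA, ← hB]
  rw [hAB, Complex.ofReal_one, one_smul, ← hyn] at hAl
  obtain ⟨w', g, M, hAl'⟩ := h3 X c e H w f x y L hAl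
  exact (hl y hy).2.2 w' g x M hAl' φ hφ

end NAO

end

section

/-!
# MP_9dede5_an: item F1, (I) round sections
-/

universe u

namespace NAO

open Filter Topology

namespace F1

theorem exists_nm {X : Type u} [NormedAddCommGroup X] [NormedSpace ℂ X] (y : X) (hy : ‖y‖ = 1) :
    ∃ φ : X →L[ℂ] ℂ, Nm φ y := by
  have h0 : y ≠ 0 := by
    intro h
    rw [h, norm_zero] at hy
    exact zero_ne_one hy
  obtain ⟨g, hg, hgy⟩ := exists_dual_vector ℂ y (norm_ne_zero_iff.2 h0)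
  refine ⟨g, le_of_eq hg, ?_⟩
  rw [hgy, hy]
  simp

theorem const_of_sq (B : ℝ → ℝ) (K : ℝ) (h : ∀ s t, |B t - B s| ≤ K * |t - s| ^ 2) (s t : ℝ) :
    B s = B t := by
  have hd : ∀ s, HasDerivAt B 0 s := by
    intro s
    rw [hasDerivAt_iff_isLittleO]
    have h1 : (fun x' => B x' - B s - (x' - s) • (0 : ℝ)) =O[𝓝 s] fun x' => ‖x' - s‖ ^ 2 := by
      apply Asymptotics.IsBigO.of_bound K
      filter_upwards with x
      rw [smul_zero, sub_zero, Real.norm_eq_abs, Real.norm_eq_abs, Real.norm_eq_abs, abs_pow,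
        abs_abs]
      exact h s x
    exact h1.trans_isLittleO (Asymptotics.isLittleO_pow_sub_sub s (by norm_num))
  exact is_const_of_deriv_eq_zero (fun x => (hd x).differentiableAt) (fun x => (hd x).deriv) s t

end F1

theorem itemF1 (h1 : SRay.{u}) : SI.{u} := by
  intro X _ _ m₀ l hP x n ψ hx hψ hn hu
  have hm := hP.m0
  have hl1 := hP.lb x hx
  have hl2 := hP.ub x hx
  have hl0 : 0 < l x := lt_of_lt_of_le hm hl1
  have hpn : ‖(l x : ℂ) • x‖ = l x := by
    rw [norm_smul, hx, mul_one, Complex.norm_real, Real.norm_eq_abs, abs_of_pos hl0]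
  have hn0 : n ≠ 0 := by
    intro h
    rw [h, add_zero, hpn] at hu
    linarith
  have hnn : 0 < ‖n‖ := norm_pos_iff.2 hn0
  have hex : ∀ θ : ℝ, ∃ r : ℝ, 0 < r ∧
      ‖(l x : ℂ) • x + (r : ℂ) • (Complex.exp (θ * Complex.I) • n)‖ = 1 ∧
      ∀ r' : ℝ, 0 ≤ r' →
        (r' < r → ‖(l x : ℂ) • x + (r' : ℂ) • (Complex.exp (θ * Complex.I) • n)‖ < 1) ∧
        (r < r' → 1 < ‖(l x : ℂ) • x + (r' : ℂ) • (Complex.exp (θ * Complex.I) • n)‖) := by
    intro θ
    exact h1 X _ _ (by rw [hpn]; exact hl2)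
      (smul_ne_zero (Complex.exp_ne_zero _) hn0)
  choose R hR0 hR1 hR2 using hex
  have hbd : ∀ θ, R θ ≤ 2 / ‖n‖ := by
    intro θ
    rw [le_div_iff₀ hnn]
    have h2 : ‖(R θ : ℂ) • (Complex.exp (θ * Complex.I) • n)‖ = R θ * ‖n‖ := by
      rw [norm_smul, norm_smul, Complex.norm_exp_ofReal_mul_I, one_mul, Complex.norm_real,
        Real.norm_eq_abs, abs_of_pos (hR0 θ)]
    rw [← h2]
    have h3 := norm_sub_le ((l x : ℂ) • x + (R θ : ℂ) • (Complex.exp (θ * Complex.I) • n))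
      ((l x : ℂ) • x)
    rw [add_sub_cancel_left, hR1, hpn] at h3
    linarith
  have key : ∀ s t : ℝ, R t * Real.cos (t - s) ≤ R s := by
    intro s t
    obtain ⟨y, hy⟩ : ∃ y : X, y = (l x : ℂ) • x +
      (R s : ℂ) • (Complex.exp (s * Complex.I) • n) := ⟨_, rfl⟩
    have hy1 : ‖y‖ = 1 := by rw [hy]; exact hR1 s
    obtain ⟨φ, hφ⟩ := F1.exists_nm y hy1
    have hψy : ψ y = (l x : ℂ) := by
      rw [hy, map_add, map_smul, map_smul, map_smul, hψ.2, hn]
      simp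
    have hφx : φ x = (l y : ℂ) := hP.r x y ψ φ hx hy1 hψ hφ hψy
    have hly2 := hP.ub y hy1
    have hly1 := hP.lb y hy1
    have hφn : (R s : ℂ) * (Complex.exp (s * Complex.I) * φ n) = ((1 - l x * l y : ℝ) : ℂ) := by
      have h2 := hφ.2
      rw [hy, map_add, map_smul, map_smul, map_smul, hφx, smul_eq_mul, smul_eq_mul,
        smul_eq_mul] at h2
      push_cast
      linear_combination h2
    have hre : (φ ((l x : ℂ) • x + (R t : ℂ) • (Complex.exp (t * Complex.I) • n))).re ≤ 1 := by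
      calc (φ ((l x : ℂ) • x + (R t : ℂ) • (Complex.exp (t * Complex.I) • n))).re
          ≤ ‖φ ((l x : ℂ) • x + (R t : ℂ) • (Complex.exp (t * Complex.I) • n))‖ :=
            Complex.re_le_norm _
        _ ≤ ‖φ‖ * ‖(l x : ℂ) • x + (R t : ℂ) • (Complex.exp (t * Complex.I) • n)‖ :=
            φ.le_opNorm _
        _ ≤ 1 * 1 := by
            rw [hR1]
            exact mul_le_mul_of_nonneg_right hφ.1 zero_le_one
        _ = 1 := one_mul 1
    have hRs := hR0 s
    have hRt := hR0 t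
    have hRs' : (R s : ℂ) ≠ 0 := by exact_mod_cast hRs.ne'
    have e : φ ((l x : ℂ) • x + (R t : ℂ) • (Complex.exp (t * Complex.I) • n)) =
        ((l x * l y : ℝ) : ℂ) +
        Complex.exp (((t - s : ℝ) : ℂ) * Complex.I) *
          ((R t * ((1 - l x * l y) / R s) : ℝ) : ℂ) := by
      have e2 : Complex.exp (t * Complex.I) =
          Complex.exp (((t - s : ℝ) : ℂ) * Complex.I) * Complex.exp (s * Complex.I) := by
        rw [← Complex.exp_add]
        congr 1
        push_cast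
        ring
      rw [map_add, map_smul, map_smul, map_smul, hφx, smul_eq_mul, smul_eq_mul, smul_eq_mul, e2]
      have e3 : Complex.exp (s * Complex.I) * φ n = ((1 - l x * l y : ℝ) : ℂ) / (R s : ℂ) := by
        rw [eq_div_iff hRs', ← hφn]
        ring
      rw [mul_assoc (Complex.exp (((t - s : ℝ) : ℂ) * Complex.I)), e3]
      push_cast
      ring
    rw [e, Complex.add_re, Complex.ofReal_re, Complex.re_mul_ofReal,
      Complex.exp_ofReal_mul_I_re] at hre
    have hpos : 0 < 1 - l x * l y := by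
      have h5 : l x * l y < 1 * 1 := by
        apply mul_lt_mul' hl2.le hly2 (by linarith) zero_lt_one
      linarith
    have h6 : Real.cos (t - s) * (R t * ((1 - l x * l y) / R s)) ≤ 1 - l x * l y := by
      linarith
    have h7 : Real.cos (t - s) * (R t * ((1 - l x * l y) / R s)) =
        (R t * Real.cos (t - s)) / R s * (1 - l x * l y) := by
      field_simp
    rw [h7] at h6
    have h8 : (R t * Real.cos (t - s)) / R s ≤ 1 := by
      by_contra h9
      rw [not_le] at h9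
      have h10 : 1 * (1 - l x * l y) < (R t * Real.cos (t - s)) / R s * (1 - l x * l y) :=
        mul_lt_mul_of_pos_right h9 hpos
      linarith
    rwa [div_le_one hRs] at h8
  have hone : ∀ s t : ℝ, R t - R s ≤ 1 / ‖n‖ * |t - s| ^ 2 := by
    intro s t
    have h2 := key s t
    have h3 := Real.one_sub_sq_div_two_le_cos (x := t - s)
    have h4 : R t * (1 - (t - s) ^ 2 / 2) ≤ R t * Real.cos (t - s) :=
      mul_le_mul_of_nonneg_left h3 (hR0 t).le
    have h5 : R t * ((t - s) ^ 2 / 2) ≤ 2 / ‖n‖ * ((t - s) ^ 2 / 2) :=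
      mul_le_mul_of_nonneg_right (hbd t) (by positivity)
    rw [sq_abs]
    have h6 : 2 / ‖n‖ * ((t - s) ^ 2 / 2) = 1 / ‖n‖ * (t - s) ^ 2 := by ring
    linarith
  have hconst := F1.const_of_sq R (1 / ‖n‖) (by
    intro s t
    rw [abs_le]
    constructor
    · have h3 := hone t s
      rw [abs_sub_comm s t] at h3
      linarith
    · exact hone s t)
  have hR00 : R 0 = 1 := by
    have e : (l x : ℂ) • x + ((1 : ℝ) : ℂ) • (Complex.exp (((0 : ℝ) : ℂ) * Complex.I) • n) =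
        (l x : ℂ) • x + n := by simp
    rcases lt_trichotomy (R 0) 1 with h | h | h
    · have h2 := (hR2 0 1 zero_le_one).2 h
      rw [e, hu] at h2
      exact absurd h2 (lt_irrefl _)
    · exact h
    · have h2 := (hR2 0 1 zero_le_one).1 h
      rw [e, hu] at h2
      exact absurd h2 (lt_irrefl _)
  intro z hz
  have e1 : Complex.exp (Complex.arg z * Complex.I) = z := by
    have h3 := Complex.norm_mul_exp_arg_mul_I z
    rwa [hz, Complex.ofReal_one, one_mul] at h3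
  have h2 := hR1 (Complex.arg z)
  rw [hconst (Complex.arg z) 0, hR00, e1] at h2
  simpa using h2

end NAO

end

section

/-!
# MP_9dede5_an: item F2, (J) `l` is constant on the section
-/

universe u

namespace NAO

open Filter Topology

namespace F2

theorem exists_nm {X : Type u} [NormedAddCommGroup X] [NormedSpace ℂ X] (y : X) (hy : ‖y‖ = 1) :
    ∃ φ : X →L[ℂ] ℂ, Nm φ y := by
  have h0 : y ≠ 0 := by
    intro h
    rw [h, norm_zero] at hy
    exact zero_ne_one hy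
  obtain ⟨g, hg, hgy⟩ := exists_dual_vector ℂ y (norm_ne_zero_iff.2 h0)
  refine ⟨g, le_of_eq hg, ?_⟩
  rw [hgy, hy]
  simp

theorem const_of_sq (B : ℝ → ℝ) (K : ℝ) (h : ∀ s t, |B t - B s| ≤ K * |t - s| ^ 2) (s t : ℝ) :
    B s = B t := by
  have hd : ∀ s, HasDerivAt B 0 s := by
    intro s
    rw [hasDerivAt_iff_isLittleO]
    have h1 : (fun x' => B x' - B s - (x' - s) • (0 : ℝ)) =O[𝓝 s] fun x' => ‖x' - s‖ ^ 2 := by
      apply Asymptotics.IsBigO.of_bound K
      filter_upwards with x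
      rw [smul_zero, sub_zero, Real.norm_eq_abs, Real.norm_eq_abs, Real.norm_eq_abs, abs_pow,
        abs_abs]
      exact h s x
    exact h1.trans_isLittleO (Asymptotics.isLittleO_pow_sub_sub s (by norm_num))
  exact is_const_of_deriv_eq_zero (fun x => (hd x).differentiableAt) (fun x => (hd x).deriv) s t

end F2

theorem itemF2 (h1 : SI.{u}) : SJ.{u} := by
  intro X _ _ m₀ l hP w n ψ hw hψ hn hu
  obtain ⟨y, hydef⟩ : ∃ y : ℂ → X, ∀ z, y z = (l w : ℂ) • w + z • n := ⟨_, fun z => rfl⟩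
  have hy : ∀ z, ‖z‖ = 1 → ‖y z‖ = 1 := fun z hz => by
    rw [hydef]; exact h1 X m₀ l hP w n ψ hw hψ hn hu z hz
  have hψy : ∀ z, ψ (y z) = (l w : ℂ) := by
    intro z
    rw [hydef, map_add, map_smul, map_smul, hψ.2, hn]
    simp
  have hφw : ∀ z, ‖z‖ = 1 → ∀ φ : X →L[ℂ] ℂ, Nm φ (y z) → φ w = (l (y z) : ℂ) :=
    fun z hz φ hφ => hP.r w (y z) ψ φ hw (hy z hz) hψ hφ (hψy z)
  have hun : ∀ z, ‖z‖ = 1 → ‖(2 * (l (y z) : ℂ)) • y z - w‖ = 1 := by
    intro z hz
    obtain ⟨φ, hφ⟩ := F2.exists_nm (y z) (hy z hz)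
    have h2 := h1 X m₀ l hP (y z) (w - (l (y z) : ℂ) • y z) φ (hy z hz) hφ
      (by rw [map_sub, map_smul, hφ.2, hφw z hz φ hφ]; simp)
      (by rw [add_sub_cancel]; exact hw) (-1) (by simp)
    rw [← h2]
    congr 1
    module
  have key : ∀ z z' : ℂ, ‖z‖ = 1 → ‖z'‖ = 1 →
      l (y z') - l (y z) ≤ 2 / m₀ * (1 - (z' / z).re) := by
    intro z z' hz hz'
    have hz0 : z ≠ 0 := by
      intro h
      rw [h, norm_zero] at hz
      exact zero_ne_one hz
    obtain ⟨φ, hφ⟩ := F2.exists_nm (y z) (hy z hz)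
    set b : ℝ := l (y z) with hb
    set b' : ℝ := l (y z') with hb'
    obtain ⟨u, hudef⟩ : ∃ u : X, u = (2 * (b : ℂ)) • y z - w := ⟨_, rfl⟩
    have hu1 : ‖u‖ = 1 := by rw [hudef]; exact hun z hz
    obtain ⟨χ, hχ⟩ := F2.exists_nm u hu1
    have hφu : φ u = (b : ℂ) := by
      rw [hudef, map_sub, map_smul, hφ.2, hφw z hz φ hφ, smul_eq_mul]
      ring
    have hχy : χ (y z) = (l u : ℂ) := hP.r (y z) u φ χ (hy z hz) hu1 hφ hχ hφu
    have hχw : χ w = ((2 * b * l u - 1 : ℝ) : ℂ) := by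
      have h2 := hχ.2
      rw [hudef, map_sub, map_smul, smul_eq_mul, hχy] at h2
      rw [hudef] at *
      push_cast
      linear_combination -h2
    have hu' : ‖(2 * (b' : ℂ)) • y z' - w‖ = 1 := hun z' hz'
    have hχz : z * χ n = ((l u - l w * (2 * b * l u - 1) : ℝ) : ℂ) := by
      have h2 := hχy
      rw [hydef, map_add, map_smul, map_smul, hχw, smul_eq_mul, smul_eq_mul] at h2
      rw [Complex.ofReal_sub, Complex.ofReal_mul]
      linear_combination h2
    have hχy' : χ (y z') = (l w : ℂ) * ((2 * b * l u - 1 : ℝ) : ℂ) +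
        (z' / z) * ((l u - l w * (2 * b * l u - 1) : ℝ) : ℂ) := by
      rw [hydef, map_add, map_smul, map_smul, hχw, smul_eq_mul, smul_eq_mul, ← hχz]
      field_simp
    have hre : (χ ((2 * (b' : ℂ)) • y z' - w)).re ≤ 1 := by
      calc (χ ((2 * (b' : ℂ)) • y z' - w)).re ≤ ‖χ ((2 * (b' : ℂ)) • y z' - w)‖ :=
            Complex.re_le_norm _
        _ ≤ ‖χ‖ * ‖(2 * (b' : ℂ)) • y z' - w‖ := χ.le_opNorm _
        _ ≤ 1 * 1 := by
            rw [hu']
            exact mul_le_mul_of_nonneg_right hχ.1 zero_le_one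
        _ = 1 := one_mul 1
    have hre2 : (χ ((2 * (b' : ℂ)) • y z' - w)).re =
        2 * b' * (l w * (2 * b * l u - 1) + (z' / z).re * (l u - l w * (2 * b * l u - 1))) -
          (2 * b * l u - 1) := by
      have e : χ ((2 * (b' : ℂ)) • y z' - w) =
          ((2 * b' * (l w * (2 * b * l u - 1)) - (2 * b * l u - 1) : ℝ) : ℂ) +
          (z' / z) * ((2 * b' * (l u - l w * (2 * b * l u - 1)) : ℝ) : ℂ) := by
        rw [map_sub, map_smul, smul_eq_mul, hχy', hχw]
        push_cast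
        ring
      rw [e, Complex.add_re, Complex.ofReal_re, Complex.re_mul_ofReal]
      ring
    rw [hre2] at hre
    set ρ : ℝ := (z' / z).re with hρ
    set A : ℝ := l w * (2 * b * l u - 1) with hA
    have hρ1 : ρ ≤ 1 := by
      calc ρ ≤ ‖z' / z‖ := Complex.re_le_norm _
        _ = 1 := by rw [norm_div, hz, hz', div_one]
    have hlu1 := hP.lb u hu1
    have hlu2 := hP.ub u hu1
    have hm := hP.m0
    have hb1 : m₀ ≤ b' := hP.lb _ (hy z' hz')
    have hb2 : b' < 1 := hP.ub _ (hy z' hz')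
    have hlw1 := hP.lb w hw
    have hlw2 := hP.ub w hw
    have hχwn : |2 * b * l u - 1| ≤ 1 := by
      have h3 : ‖χ w‖ ≤ 1 := by
        calc ‖χ w‖ ≤ ‖χ‖ * ‖w‖ := χ.le_opNorm _
          _ ≤ 1 * 1 := by
              rw [hw]
              exact mul_le_mul_of_nonneg_right hχ.1 zero_le_one
          _ = 1 := one_mul 1
      rwa [hχw, Complex.norm_real, Real.norm_eq_abs] at h3
    have hAabs : |A| ≤ 1 := by
      rw [hA, abs_mul, abs_of_pos (lt_of_lt_of_le hm hlw1)]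
      calc l w * |2 * b * l u - 1| ≤ 1 * 1 :=
            mul_le_mul hlw2.le hχwn (abs_nonneg _) zero_le_one
        _ = 1 := one_mul 1
    have hA' := abs_le.1 hAabs
    have h5 : (b' - b) * l u ≤ (1 - ρ) * (b' * (l u - A)) := by nlinarith
    have h6 : b' * (l u - A) ≤ 2 := by
      have h7 : l u - A ≤ 2 := by linarith
      nlinarith
    have h8 : (b' - b) * l u ≤ 2 * (1 - ρ) := by
      have h9 : (1 - ρ) * (b' * (l u - A)) ≤ (1 - ρ) * 2 :=
        mul_le_mul_of_nonneg_left h6 (by linarith)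
      linarith
    rw [div_mul_eq_mul_div, le_div_iff₀ hm]
    by_cases hbb : b' - b ≤ 0
    · have h10 : (b' - b) * m₀ ≤ 0 := mul_nonpos_of_nonpos_of_nonneg hbb hm.le
      linarith
    · have h11 : (b' - b) * m₀ ≤ (b' - b) * l u :=
        mul_le_mul_of_nonneg_left hlu1 (by linarith)
      linarith
  -- pass to angles
  have hB : ∀ s t : ℝ, |l (y (Complex.exp (t * Complex.I))) -
      l (y (Complex.exp (s * Complex.I)))| ≤ 1 / m₀ * |t - s| ^ 2 := by
    intro s t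
    have hm := hP.m0
    have hone : ∀ s t : ℝ, l (y (Complex.exp (t * Complex.I))) -
        l (y (Complex.exp (s * Complex.I))) ≤ 1 / m₀ * |t - s| ^ 2 := by
      intro s t
      refine (key _ _ (Complex.norm_exp_ofReal_mul_I s) (Complex.norm_exp_ofReal_mul_I t)).trans ?_
      have e : (Complex.exp (t * Complex.I) / Complex.exp (s * Complex.I)).re =
          Real.cos (t - s) := by
        rw [← Complex.exp_sub, ← sub_mul, ← Complex.ofReal_sub, Complex.exp_ofReal_mul_I_re]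
      rw [e, sq_abs]
      have h2 := Real.one_sub_sq_div_two_le_cos (x := t - s)
      rw [div_mul_eq_mul_div, div_mul_eq_mul_div]
      apply div_le_div_of_nonneg_right _ hm.le
      linarith
    rw [abs_le]
    constructor
    · have h3 := hone t s
      rw [abs_sub_comm s t] at h3
      linarith
    · exact hone s t
  intro z hz
  have h2 := F2.const_of_sq (fun s : ℝ => l (y (Complex.exp (s * Complex.I)))) (1 / m₀) hB
    (Complex.arg z) 0
  have e1 : Complex.exp (Complex.arg z * Complex.I) = z := by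
    have h3 := Complex.norm_mul_exp_arg_mul_I z
    rwa [hz, Complex.ofReal_one, one_mul] at h3
  simp only [Complex.ofReal_zero, zero_mul, Complex.exp_zero] at h2
  rw [e1, hydef, hydef, one_smul] at h2
  exact h2

end NAO

end

section

/-!
F3 (MP_9dede5_an): the local Hermitian form.
-/

set_option autoImplicit false

universe u

namespace NAO

theorem itemF3_rot (A B : ℂ) (h : ‖A‖ = ‖B‖) : ∃ z : ℂ, ‖z‖ = 1 ∧ z * B = A := by
  by_cases hB : B = 0
  · refine ⟨1, norm_one, ?_⟩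
    rw [hB, norm_zero, norm_eq_zero] at h
    rw [hB, h, mul_zero]
  · refine ⟨A / B, ?_, div_mul_cancel₀ A hB⟩
    rw [norm_div, h, div_self]
    rwa [Ne, norm_eq_zero]

theorem itemF3_circle (s : ℝ) (h0 : 0 ≤ s) (h2 : s ≤ 2) :
    ∃ t : ℝ, t ^ 2 = 2 * s - s ^ 2 ∧ ‖(⟨1 - s, t⟩ : ℂ)‖ = 1 := by
  have hnn : 0 ≤ 2 * s - s ^ 2 := by nlinarith
  refine ⟨Real.sqrt (2 * s - s ^ 2), Real.sq_sqrt hnn, ?_⟩
  have hsq : ‖(⟨1 - s, Real.sqrt (2 * s - s ^ 2)⟩ : ℂ)‖ ^ 2 = 1 := by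
    rw [Complex.sq_norm, Complex.normSq_mk]
    have := Real.mul_self_sqrt hnn
    nlinarith
  have := norm_nonneg (⟨1 - s, Real.sqrt (2 * s - s ^ 2)⟩ : ℂ)
  nlinarith

theorem itemF3_P (s t v : ℝ) (ht : t ^ 2 = 2 * s - s ^ 2) :
    ‖((1 - v : ℝ) : ℂ) + (⟨1 - s, t⟩ : ℂ) * (v : ℂ)‖ ^ 2 = 1 - 2 * s * (v * (1 - v)) := by
  rw [Complex.sq_norm, Complex.normSq_apply]
  simp only [Complex.add_re, Complex.add_im, Complex.mul_re, Complex.mul_im, Complex.ofReal_re,
    Complex.ofReal_im, mul_zero, sub_zero, zero_add]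
  have : t * v * (t * v) = (2 * s - s ^ 2) * v ^ 2 := by rw [← ht]; ring
  linear_combination this

theorem itemF3_Q (s t : ℝ) (ht : t ^ 2 = 2 * s - s ^ 2) :
    ‖1 - (⟨1 - s, t⟩ : ℂ)‖ ^ 2 = 2 * s := by
  rw [Complex.sq_norm, Complex.normSq_apply]
  simp only [Complex.sub_re, Complex.sub_im, Complex.one_re, Complex.one_im]
  linear_combination ht

theorem itemF3 (h1 : SI.{u}) (h2 : SJ.{u}) : SL.{u} := by
  intro X _ _ m₀ l hR w n ψ hw hψ hψn hy
  set a : ℝ := l w with ha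
  set b : ℝ := l ((a : ℂ) • w + n) with hb
  have ha0 : 0 < a := hR.m0.trans_le (hR.lb w hw)
  have ha1 : a < 1 := hR.ub w hw
  have hb0 : 0 < b := hR.m0.trans_le (hR.lb _ hy)
  have hb1 : b < 1 := hR.ub _ hy
  have hab : a * b < 1 := by nlinarith
  have hκ : 0 < a * (1 - a * b) / b := by
    have : 0 < 1 - a * b := by linarith
    positivity
  set κ : ℝ := a * (1 - a * b) / b with hκd
  have hκb : κ * b = a * (1 - a * b) := by rw [hκd]; field_simp
  -- the round sections at `y_z`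
  have key : ∀ z ζ : ℂ, ‖z‖ = 1 → ‖ζ‖ = 1 →
      ‖(((1 - (1 - a * b) : ℝ) : ℂ) + ζ * ((1 - a * b : ℝ) : ℂ)) • w +
        ((1 - ζ) * b * z) • n‖ = 1 := by
    intro z ζ hz hζ
    have hyz : ‖(a : ℂ) • w + z • n‖ = 1 := h1 X m₀ l hR w n ψ hw hψ hψn hy z hz
    have hlz : l ((a : ℂ) • w + z • n) = b := h2 X m₀ l hR w n ψ hw hψ hψn hy z hz
    obtain ⟨φ, hφn, hφ⟩ := exists_dual_vector ℂ ((a : ℂ) • w + z • n)
      (by rw [hyz]; exact one_ne_zero)
    rw [hyz] at hφ
    have hNφ : Nm φ ((a : ℂ) • w + z • n) := ⟨hφn.le, by rw [hφ]; simp⟩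
    have hψy : ψ ((a : ℂ) • w + z • n) = (l w : ℂ) := by
      rw [map_add, map_smul, map_smul, hψ.2, hψn]
      simp [ha]
    have hφw : φ w = (b : ℂ) := by
      rw [hR.r w _ ψ φ hw hyz hψ hNφ hψy, hlz]
    have h3 := h1 X m₀ l hR ((a : ℂ) • w + z • n) (w - (b : ℂ) • ((a : ℂ) • w + z • n)) φ hyz
      hNφ (by rw [map_sub, map_smul, hφw, hNφ.2]; simp)
      (by rw [hlz, add_sub_cancel]; exact hw) ζ hζ
    rw [hlz] at h3
    have e : (((1 - (1 - a * b) : ℝ) : ℂ) + ζ * ((1 - a * b : ℝ) : ℂ)) • w +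
        ((1 - ζ) * b * z) • n = (b : ℂ) • ((a : ℂ) • w + z • n) +
        ζ • (w - (b : ℂ) • ((a : ℂ) • w + z • n)) := by
      push_cast
      module
    rw [e]
    exact h3
  refine ⟨κ, 4 * b ^ 2, hκ, by positivity, ?_⟩
  intro p q hpq
  set M : ℝ := ‖p‖ ^ 2 + κ * ‖q‖ ^ 2 with hM
  have hM0 : 0 ≤ M := by positivity
  rcases hM0.eq_or_lt with hM1 | hM1
  · have hp : ‖p‖ ^ 2 = 0 := by nlinarith [sq_nonneg ‖p‖, mul_nonneg hκ.le (sq_nonneg ‖q‖)]
    have hq : κ * ‖q‖ ^ 2 = 0 := by nlinarith [sq_nonneg ‖p‖, mul_nonneg hκ.le (sq_nonneg ‖q‖)]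
    have hp0 : p = 0 := by simpa using hp
    have hq0 : q = 0 := by
      rcases mul_eq_zero.mp hq with h | h
      · exact absurd h hκ.ne'
      · simpa using h
    rw [← hM1, hp0, hq0]
    simp
  · set N : ℝ := Real.sqrt M with hN
    have hN0 : 0 < N := Real.sqrt_pos.mpr hM1
    have hN2 : N ^ 2 = M := Real.sq_sqrt hM0
    set s : ℝ := ‖q‖ ^ 2 / (2 * b ^ 2 * M) with hs
    have hsM : 2 * b ^ 2 * s * M = ‖q‖ ^ 2 := by
      rw [hs]; field_simp
    have hs0 : 0 ≤ s := by positivity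
    have hs2 : s ≤ 2 := by
      rw [hs, div_le_iff₀ (by positivity)]
      nlinarith
    obtain ⟨t, ht, hζ⟩ := itemF3_circle s hs0 hs2
    set ζ : ℂ := ⟨1 - s, t⟩ with hζd
    have hP := itemF3_P s t (1 - a * b) ht
    have hQ := itemF3_Q s t ht
    rw [← hζd] at hP hQ
    set P : ℂ := ((1 - (1 - a * b) : ℝ) : ℂ) + ζ * ((1 - a * b : ℝ) : ℂ) with hPd
    have hpn : ‖p‖ = ‖(N : ℂ) * P‖ := by
      have e1 : ‖(N : ℂ) * P‖ ^ 2 = ‖p‖ ^ 2 := by
        rw [norm_mul, mul_pow, hP, Complex.norm_real, Real.norm_eq_abs, sq_abs, hN2]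
        have e2 : ‖p‖ ^ 2 = M - κ * ‖q‖ ^ 2 := by rw [hM]; ring
        rw [e2, ← hsM]
        have e3 : κ * (2 * b ^ 2 * s * M) = (κ * b) * (2 * b * s * M) := by ring
        rw [e3, hκb]
        ring
      have := abs_eq_abs.mpr (sq_eq_sq_iff_eq_or_eq_neg.mp e1)
      rw [abs_norm, abs_norm] at this
      exact this.symm
    obtain ⟨χ, hχ, hχp⟩ := itemF3_rot p ((N : ℂ) * P) hpn
    have hqn : ‖q‖ = ‖χ * (N * ((1 - ζ) * b))‖ := by
      have e1 : ‖χ * (N * ((1 - ζ) * b))‖ ^ 2 = ‖q‖ ^ 2 := by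
        rw [norm_mul, norm_mul, norm_mul, hχ, one_mul, mul_pow, mul_pow, hQ, Complex.norm_real,
          Complex.norm_real, Real.norm_eq_abs, Real.norm_eq_abs, sq_abs, sq_abs, hN2, ← hsM]
        ring
      have := abs_eq_abs.mpr (sq_eq_sq_iff_eq_or_eq_neg.mp e1)
      rw [abs_norm, abs_norm] at this
      exact this.symm
    obtain ⟨z, hz, hzq⟩ := itemF3_rot q (χ * (N * ((1 - ζ) * b))) hqn
    have hsum : p • w + q • n = (χ * N) • (P • w + ((1 - ζ) * b * z) • n) := by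
      rw [← hχp, ← hzq, smul_add, smul_smul, smul_smul]
      congr 2 <;> ring
    rw [hsum, norm_smul, key z ζ hz hζ, mul_one, norm_mul, hχ, one_mul, Complex.norm_real,
      Real.norm_eq_abs, sq_abs, hN2]

end NAO

end

section

/-!
F4: locally quadratic functions, and the parallelogram law.
-/

universe u

namespace NAO

open Filter Topology

theorem f4_coef {A B C A' B' C' s₁ : ℝ}
    (h : ∀ᶠ s in 𝓝 s₁, A * s ^ 2 + B * s + C = A' * s ^ 2 + B' * s + C') :
    A = A' ∧ B = B' ∧ C = C' := by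
  obtain ⟨ε, hε, hb⟩ := Metric.eventually_nhds_iff.1 h
  have h0 := hb (y := s₁) (by simpa using hε)
  have h1 := hb (y := s₁ + ε / 2) (by
    rw [Real.dist_eq]
    rw [show s₁ + ε / 2 - s₁ = ε / 2 by ring, abs_of_pos (by linarith)]
    linarith)
  have h2 := hb (y := s₁ - ε / 2) (by
    rw [Real.dist_eq]
    rw [show s₁ - ε / 2 - s₁ = -(ε / 2) by ring, abs_neg, abs_of_pos (by linarith)]
    linarith)
  have hA : A = A' := by
    have : (A - A') * ε ^ 2 = 0 := by linear_combination 2 * h1 + 2 * h2 - 4 * h0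
    rcases mul_eq_zero.1 this with h | h
    · linarith
    · exact absurd h (by positivity)
  subst hA
  have hB : B = B' := by
    have : (B - B') * ε = 0 := by linear_combination h1 - h2
    rcases mul_eq_zero.1 this with h | h
    · linarith
    · exact absurd h (ne_of_gt hε)
  subst hB
  exact ⟨rfl, rfl, by linarith⟩

theorem itemF4a : SQuad := by
  intro h hloc
  obtain ⟨A, B, C, h0⟩ := hloc 0
  refine ⟨A, B, C, ?_⟩
  set U : Set ℝ := {s₀ | ∀ᶠ s in 𝓝 s₀, h s = A * s ^ 2 + B * s + C} with hU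
  have hopen : IsOpen U := isOpen_setOf_eventually_nhds
  have hclosed : IsClosed U := by
    refine isClosed_of_closure_subset fun s₀ hs₀ => ?_
    obtain ⟨A', B', C', h1⟩ := hloc s₀
    obtain ⟨V, hV, hVo, hV0⟩ := eventually_nhds_iff.1 h1
    obtain ⟨s₁, hs1V, hs1U⟩ := mem_closure_iff.1 hs₀ V hVo hV0
    have h2 : ∀ᶠ s in 𝓝 s₁, A' * s ^ 2 + B' * s + C' = A * s ^ 2 + B * s + C := by
      have h3 : ∀ᶠ s in 𝓝 s₁, h s = A * s ^ 2 + B * s + C := hs1U
      filter_upwards [h3, hVo.mem_nhds hs1V] with s hs hsV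
      rw [← hs, hV s hsV]
    obtain ⟨rfl, rfl, rfl⟩ := f4_coef h2
    exact h1
  have huniv : U = Set.univ := IsClopen.eq_univ ⟨hclosed, hopen⟩ ⟨0, h0⟩
  intro s
  have hs : s ∈ U := by rw [huniv]; trivial
  have hs' : ∀ᶠ t in 𝓝 s, h t = A * t ^ 2 + B * t + C := hs
  exact hs'.self_of_nhds

theorem f4_par_smul {X : Type u} [NormedAddCommGroup X] [NormedSpace ℂ X] (y : X) (z : ℂ) :
    ‖z • y + y‖ * ‖z • y + y‖ + ‖z • y - y‖ * ‖z • y - y‖ =
      2 * (‖z • y‖ * ‖z • y‖ + ‖y‖ * ‖y‖) := by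
  have h1 : z • y + y = (z + 1) • y := by rw [add_smul, one_smul]
  have h2 : z • y - y = (z - 1) • y := by rw [sub_smul, one_smul]
  rw [h1, h2, norm_smul, norm_smul, norm_smul]
  have h3 : ‖z + 1‖ * ‖z + 1‖ + ‖z - 1‖ * ‖z - 1‖ = 2 * (‖z‖ * ‖z‖ + 1) := by
    have := parallelogram_law_with_norm ℝ z 1
    rw [norm_one] at this
    linarith
  linear_combination (‖y‖ * ‖y‖) * h3

theorem f4_norm_sq (a b : ℝ) (z : ℂ) :
    ‖(a : ℂ) + (b : ℂ) * z‖ ^ 2 = a ^ 2 + 2 * a * b * z.re + b ^ 2 * ‖z‖ ^ 2 := by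
  rw [← Complex.normSq_eq_norm_sq, ← Complex.normSq_eq_norm_sq, Complex.normSq_apply,
    Complex.normSq_apply]
  simp
  ring

theorem f4_local {X : Type u} [NormedAddCommGroup X] [NormedSpace ℂ X] (h2 : SL.{u})
    (h3 : SRay.{u}) {m₀ : ℝ} {l : X → ℝ} (hP : PR X m₀ l) {x y : X} (hy : y ≠ 0)
    (hxy : ∀ z : ℂ, x ≠ z • y) (s₀ : ℝ) :
    ∃ A B C : ℝ, ∀ᶠ s : ℝ in 𝓝 s₀, ‖x + (s : ℂ) • y‖ ^ 2 = A * s ^ 2 + B * s + C := by
  set W := x + (s₀ : ℂ) • y with hW
  have hW0 : W ≠ 0 := by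
    intro h
    apply hxy (-(s₀ : ℂ))
    rw [neg_smul]
    exact eq_neg_of_add_eq_zero_left h
  have hWn : 0 < ‖W‖ := norm_pos_iff.2 hW0
  have hWc : ((‖W‖ : ℝ) : ℂ) ≠ 0 := by exact_mod_cast hWn.ne'
  set w := ((‖W‖ : ℝ) : ℂ)⁻¹ • W with hw
  have hwn : ‖w‖ = 1 := by
    rw [hw, norm_smul, norm_inv, Complex.norm_real, norm_norm, inv_mul_cancel₀ hWn.ne']
  have hWw : W = ((‖W‖ : ℝ) : ℂ) • w := by
    rw [hw, smul_smul, mul_inv_cancel₀ hWc, one_smul]
  have hw0 : w ≠ 0 := by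
    intro h
    rw [h, norm_zero] at hwn
    exact zero_ne_one hwn
  obtain ⟨ψ, hψ, hψw⟩ := exists_dual_vector ℂ w (norm_ne_zero_iff.2 hw0)
  have hψw' : ψ w = 1 := by
    rw [hψw, hwn]
    simp
  set m := y - (ψ y) • w with hm
  have hψm : ψ m = 0 := by
    rw [hm, map_sub, map_smul, hψw']
    simp
  have hm0 : m ≠ 0 := by
    intro h
    have hyw : y = (ψ y) • w := sub_eq_zero.1 h
    by_cases hz : ψ y = 0
    · apply hy
      rw [hyw, hz, zero_smul]
    · have hwy : w = (ψ y)⁻¹ • y := (eq_inv_smul_iff₀ hz).2 hyw.symm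
      have hx : x = W - (s₀ : ℂ) • y := by rw [hW]; abel
      apply hxy (((‖W‖ : ℝ) : ℂ) * (ψ y)⁻¹ - (s₀ : ℂ))
      rw [sub_smul, mul_smul, ← hwy, ← hWw]
      exact hx
  have hl0 : 0 < l w := lt_of_lt_of_le hP.m0 (hP.lb w hwn)
  have hl1 : ‖(l w : ℂ) • w‖ < 1 := by
    rw [norm_smul, hwn, mul_one, Complex.norm_real, Real.norm_eq_abs, abs_of_pos hl0]
    exact hP.ub w hwn
  obtain ⟨r, hr, hr1, -⟩ := h3 X ((l w : ℂ) • w) m hl1 hm0
  obtain ⟨κ, β, hκ, hβ, hq⟩ := h2 X m₀ l hP w ((r : ℂ) • m) ψ hwn ⟨hψ.le, hψw'⟩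
    (by rw [map_smul, hψm, smul_zero]) hr1
  have hrc : (r : ℂ) ≠ 0 := by exact_mod_cast hr.ne'
  have hform : ∀ s : ℝ, x + (s : ℂ) • y =
      (((‖W‖ : ℝ) : ℂ) + ((s - s₀ : ℝ) : ℂ) * ψ y) • w +
        (((s - s₀) / r : ℝ) : ℂ) • ((r : ℂ) • m) := by
    intro s
    have e1 : (((s - s₀) / r : ℝ) : ℂ) • ((r : ℂ) • m) = ((s - s₀ : ℝ) : ℂ) • m := by
      rw [smul_smul]
      congr 1
      push_cast
      field_simp
    rw [e1, hm, smul_sub, add_smul, mul_smul, ← hWw, hW, Complex.ofReal_sub]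
    module
  set A := ‖ψ y‖ ^ 2 + κ / r ^ 2 with hA
  refine ⟨A, 2 * ‖W‖ * (ψ y).re - 2 * s₀ * A,
    ‖W‖ ^ 2 - 2 * s₀ * ‖W‖ * (ψ y).re + A * s₀ ^ 2, ?_⟩
  have hcont : ∀ᶠ s : ℝ in 𝓝 s₀, ((s - s₀) / r) ^ 2 <
      β * ‖((‖W‖ : ℝ) : ℂ) + ((s - s₀ : ℝ) : ℂ) * ψ y‖ ^ 2 := by
    have c1 : Continuous fun s : ℝ => ((s - s₀) / r) ^ 2 := by fun_prop
    have c2 : Continuous fun s : ℝ =>
        β * ‖((‖W‖ : ℝ) : ℂ) + ((s - s₀ : ℝ) : ℂ) * ψ y‖ ^ 2 := by fun_prop
    refine c1.continuousAt.eventually_lt c2.continuousAt ?_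
    simp only [sub_self, zero_div, Complex.ofReal_zero, zero_mul, add_zero]
    rw [Complex.norm_real, norm_norm]
    have : 0 < β * ‖W‖ ^ 2 := by positivity
    simpa using this
  filter_upwards [hcont] with s hs
  have hqn : ‖(((s - s₀) / r : ℝ) : ℂ)‖ ^ 2 = ((s - s₀) / r) ^ 2 := by
    rw [Complex.norm_real, Real.norm_eq_abs, sq_abs]
  rw [hform s, hq _ _ ?_]
  · rw [hqn, f4_norm_sq, hA]
    field_simp
    ring
  · rw [hqn]
    have : 0 ≤ β * (κ * ((s - s₀) / r) ^ 2) := by positivity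
    linarith

theorem itemF4b (h1 : SQuad) (h2 : SL.{u}) (h3 : SRay.{u}) : SPar.{u} := by
  intro X _ _ m₀ l hP x y
  by_cases hy : y = 0
  · subst hy
    simp
    ring
  by_cases hxy : ∀ z : ℂ, x ≠ z • y
  · obtain ⟨A, B, C, h⟩ := h1 (fun s => ‖x + (s : ℂ) • y‖ ^ 2)
      (fun s₀ => f4_local h2 h3 hP hy hxy s₀)
    have hC : ‖x‖ ^ 2 = C := by
      have := h 0
      simpa using this
    have hA : ‖y‖ ^ 2 = A := by
      have hk : Continuous fun s : ℝ => ‖y + (s : ℂ) • x‖ ^ 2 := by fun_prop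
      have hg : Continuous fun s : ℝ => A + B * s + C * s ^ 2 := by fun_prop
      have hext := Continuous.ext_on (dense_compl_singleton (0 : ℝ)) hk hg (by
        intro s hs
        have hs0 : s ≠ 0 := by simpa using hs
        have hsc : (s : ℂ) ≠ 0 := by exact_mod_cast hs0
        have e1 : y + (s : ℂ) • x = (s : ℂ) • (x + ((s⁻¹ : ℝ) : ℂ) • y) := by
          rw [smul_add, smul_smul]
          push_cast
          rw [mul_inv_cancel₀ hsc, one_smul, add_comm]
        have e2 := h s⁻¹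
        simp only at e2 ⊢
        rw [e1, norm_smul, mul_pow, e2, Complex.norm_real, Real.norm_eq_abs, sq_abs]
        field_simp)
      have := congrFun hext 0
      simpa using this
    have hp := h 1
    have hn := h (-1)
    simp only [Complex.ofReal_one, one_smul, Complex.ofReal_neg, neg_smul] at hp hn
    rw [← sub_eq_add_neg] at hn
    nlinarith
  · push Not at hxy
    obtain ⟨z, rfl⟩ := hxy
    exact f4_par_smul y z

end NAO

end

section

/-!
# Item G2: from the original relation to `Sym`, on every subspace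
-/

universe u

namespace NAO

namespace ItemG2

variable {X : Type u} [NormedAddCommGroup X] [NormedSpace ℂ X]

/-- two unit vectors which are not proportional are separated by a functional -/
theorem exists_sep (x y : X) (hy : ‖y‖ = 1) (hxy : ∀ a : ℂ, x ≠ a • y) :
    ∃ k : X →L[ℂ] ℂ, k x = 1 ∧ k y = 0 := by
  obtain ⟨φ, -, hφ⟩ := exists_dual_vector ℂ y (by rw [hy]; exact one_ne_zero)
  have hφy : φ y = 1 := by rw [hφ, hy]; simp
  have hz : x - φ x • y ≠ 0 := fun h => hxy (φ x) (sub_eq_zero.mp h)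
  obtain ⟨ψ, -, hψ⟩ := exists_dual_vector ℂ (x - φ x • y) (norm_ne_zero_iff.mpr hz)
  have hψz : ψ (x - φ x • y) ≠ 0 := by
    rw [hψ]
    exact Complex.ofReal_ne_zero.mpr (norm_ne_zero_iff.mpr hz)
  have e1 : ψ (x - φ x • y) = ψ x - φ x * ψ y := by
    rw [map_sub, map_smul, smul_eq_mul]
  rw [e1] at hψz
  refine ⟨(ψ x - φ x * ψ y)⁻¹ • (ψ - ψ y • φ), ?_, ?_⟩
  · simp only [_root_.smul_apply, _root_.sub_apply, smul_eq_mul]
    rw [mul_comm (ψ y) (φ x)]
    exact inv_mul_cancel₀ hψz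
  · simp only [_root_.smul_apply, _root_.sub_apply, smul_eq_mul, hφy]
    ring

/-- the perturbation argument -/
theorem norming (c e : ℝ) (hc : c < 1) (he0 : 0 < c) (hec : e < c) (x y : X) (hx : ‖x‖ = 1)
    (hy : ‖y‖ = 1) (g : X →L[ℂ] ℂ) (hg : ‖g‖ ≤ 1) (hgx : g x = (c : ℂ)) (hgy : ‖g y‖ ≤ e) :
    ∃ h : X →L[ℂ] ℂ, ‖h‖ = 1 ∧ c ≤ ‖h x‖ ∧ ‖h y‖ ≤ e := by
  have hxy : ∀ a : ℂ, x ≠ a • y := by
    intro a ha
    have h1 : ‖a‖ = 1 := by
      have := congrArg norm ha
      rw [hx, norm_smul, hy, mul_one] at this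
      exact this.symm
    have h2 : ‖g x‖ = ‖g y‖ := by
      rw [ha, map_smul, norm_smul, h1, one_mul]
    have h3 : ‖g x‖ = c := by
      rw [hgx, Complex.norm_real, Real.norm_eq_abs, abs_of_pos he0]
    linarith
  obtain ⟨k, hkx, hky⟩ := exists_sep x y hy hxy
  have hcont : Continuous fun s : ℝ => ‖g + (s : ℂ) • k‖ := by fun_prop
  have h0 : ‖g + ((0 : ℝ) : ℂ) • k‖ ≤ 1 := by
    have h00 : g + ((0 : ℝ) : ℂ) • k = g := by
      ext v
      simp only [_root_.add_apply, _root_.smul_apply, smul_eq_mul, Complex.ofReal_zero,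
        zero_mul, add_zero]
    rw [h00]
    exact hg
  have hval : ∀ s : ℝ, (g + (s : ℂ) • k) x = ((c + s : ℝ) : ℂ) := by
    intro s
    simp only [_root_.add_apply, _root_.smul_apply, smul_eq_mul, hgx,
      hkx]
    push_cast
    ring
  have h1 : 1 ≤ ‖g + ((1 - c : ℝ) : ℂ) • k‖ := by
    have := (g + ((1 - c : ℝ) : ℂ) • k).le_opNorm x
    rw [hval, hx, mul_one, Complex.norm_real] at this
    have h2 : ‖c + (1 - c)‖ = 1 := by
      rw [show c + (1 - c) = 1 by ring]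
      simp
    linarith
  have hmem : (1 : ℝ) ∈ Set.Icc ‖g + ((0 : ℝ) : ℂ) • k‖ ‖g + ((1 - c : ℝ) : ℂ) • k‖ := ⟨h0, h1⟩
  obtain ⟨s, hs, hs1⟩ := intermediate_value_Icc (sub_nonneg.mpr hc.le) hcont.continuousOn hmem
  refine ⟨g + (s : ℂ) • k, hs1, ?_, ?_⟩
  · rw [hval, Complex.norm_real, Real.norm_eq_abs, abs_of_nonneg (by linarith [hs.1])]
    linarith [hs.1]
  · simpa [hky] using hgy

end ItemG2

open ItemG2

theorem itemG2 : SRed.{u} := by
  intro X _ _ δ ε hδ0 hδ1 hε0 hε1 hsym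
  have hc0 : 0 < 1 - δ := by linarith
  have hc1 : 1 - δ < 1 := by linarith
  have he0 : 0 < ε / (1 - δ) := div_pos hε0 hc0
  have hec : ε / (1 - δ) < 1 - δ := by
    rw [div_lt_iff₀ hc0]
    nlinarith
  refine ⟨⟨he0, hec, hc1⟩, ?_⟩
  intro M x y hx hy ⟨g, hg1, hgx, hgy⟩
  obtain ⟨G, hG, hGn⟩ := exists_extension_norm_eq M g
  have hx' : ‖(x : X)‖ = 1 := hx
  have hy' : ‖(y : X)‖ = 1 := hy
  obtain ⟨h, hh1, hhx, hhy⟩ := norming (1 - δ) (ε / (1 - δ)) hc1 hc0 hec (x : X) (y : X) hx' hy' G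
    (by rw [hGn]; exact hg1) (by rw [hG]; exact hgx) (by rw [hG]; exact hgy)
  have hno : NormingOrth δ ε (x : X) (y : X) := by
    refine ⟨h, ?_, ?_, ?_⟩
    · intro h0
      rw [h0, norm_zero] at hh1
      exact zero_ne_one hh1
    · rw [hh1, hx', mul_one, mul_one]
      exact hhx
    · rw [hh1, hy', mul_one, mul_one]
      exact hhy
  obtain ⟨f, hf0, hfy, hfx⟩ := hsym _ _ hno
  rw [hy', mul_one] at hfy
  rw [hx', mul_one] at hfx
  have hfn : 0 < ‖f‖ := norm_pos_iff.mpr hf0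
  have hfyp : 0 < ‖f (y : X)‖ := lt_of_lt_of_le (mul_pos hc0 hfn) hfy
  have hfy0 : f (y : X) ≠ 0 := norm_pos_iff.mp hfyp
  have hcn : ‖((1 - δ : ℝ) : ℂ)‖ = 1 - δ := by
    rw [Complex.norm_real, Real.norm_eq_abs, abs_of_pos hc0]
  have hFb : ‖((1 - δ : ℝ) : ℂ) / f (y : X)‖ * ‖f‖ ≤ 1 := by
    rw [norm_div, hcn, div_mul_eq_mul_div, div_le_one hfyp]
    exact hfy
  refine ⟨((((1 - δ : ℝ) : ℂ) / f (y : X)) • f).comp M.subtypeL, ?_, ?_, ?_⟩
  · refine ContinuousLinearMap.opNorm_le_bound _ zero_le_one fun v => ?_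
    simp only [ContinuousLinearMap.comp_apply, Submodule.subtypeL_apply,
      _root_.smul_apply, smul_eq_mul, norm_mul]
    have h1 : ‖f (v : X)‖ ≤ ‖f‖ * ‖(v : X)‖ := f.le_opNorm _
    calc ‖((1 - δ : ℝ) : ℂ) / f (y : X)‖ * ‖f (v : X)‖
        ≤ ‖((1 - δ : ℝ) : ℂ) / f (y : X)‖ * (‖f‖ * ‖(v : X)‖) :=
          mul_le_mul_of_nonneg_left h1 (norm_nonneg _)
      _ = (‖((1 - δ : ℝ) : ℂ) / f (y : X)‖ * ‖f‖) * ‖(v : X)‖ := by ring
      _ ≤ 1 * ‖(v : X)‖ := mul_le_mul_of_nonneg_right hFb (norm_nonneg _)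
  · simp only [ContinuousLinearMap.comp_apply, Submodule.subtypeL_apply,
      _root_.smul_apply, smul_eq_mul]
    exact div_mul_cancel₀ _ hfy0
  · simp only [ContinuousLinearMap.comp_apply, Submodule.subtypeL_apply,
      _root_.smul_apply, smul_eq_mul, norm_mul]
    rw [norm_div, hcn, div_mul_eq_mul_div, div_le_iff₀ hfyp]
    calc (1 - δ) * ‖f (x : X)‖ ≤ (1 - δ) * (ε / (1 - δ) * ‖f‖) :=
          mul_le_mul_of_nonneg_left hfx hc0.le
      _ = ε / (1 - δ) * ((1 - δ) * ‖f‖) := by ring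
      _ ≤ ε / (1 - δ) * ‖f (y : X)‖ := mul_le_mul_of_nonneg_left hfy he0.le

end NAO

end

section

/-!
G3. Every pair of vectors lies in a subspace of dimension at least three; Jordan-von Neumann.
-/

universe u

namespace NAO

theorem itemG3a : SSub.{u} := by
  intro X _ _ hr x y
  classical
  obtain ⟨s, hs, hli⟩ := (le_rank_iff_exists_linearIndependent_finset (K := ℂ) (V := X)
    (n := 3)).1 (by exact_mod_cast hr)
  refine ⟨Submodule.span ℂ ((s ∪ {x, y} : Finset X) : Set X), ?_, ?_, ?_, ?_⟩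
  · exact Submodule.subset_span (by simp)
  · exact Submodule.subset_span (by simp)
  · exact FiniteDimensional.span_finset ℂ _
  · have : FiniteDimensional ℂ (Submodule.span ℂ ((s ∪ {x, y} : Finset X) : Set X)) :=
      FiniteDimensional.span_finset ℂ _
    have h1 : Module.finrank ℂ (Submodule.span ℂ (s : Set X)) = 3 := by
      rw [← hs]
      exact finrank_span_finset_eq_card hli
    rw [← h1]
    refine Submodule.finrank_mono (Submodule.span_mono ?_)
    exact Finset.coe_subset.2 Finset.subset_union_left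

theorem itemG3b : SJvN.{u} := by
  intro X _ _ h
  let I : InnerProductSpace ℂ X := InnerProductSpace.ofNorm ℂ h
  refine ⟨fun x y => inner ℂ y x, ?_, ?_, ?_, ?_⟩
  · intro x y z
    exact inner_add_right z x y
  · intro a x y
    exact inner_smul_right y x a
  · intro x y
    exact (inner_conj_symm x y).symm
  · intro x
    have := inner_self_eq_norm_sq_to_K (𝕜 := ℂ) x
    change inner ℂ x x = _
    rw [this]
    push_cast
    rfl

end NAO

end
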