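import Mathlib

/-! Bundle of small proof modules (one section per former module). -/

section

/-!
Definitions for the symmetry problem of norming approximate orthogonality (MP_9dede5_an).
`c = 1 - delta`, `e = epsilon / (1 - delta)`, `0 < e < c < 1`.
-/

universe u

namespace NAO

section defs

variable {X : Type u} [NormedAddCommGroup X] [NormedSpace ℂ X]

/-- `(δ, ε)`-norming approximate orthogonality (with a nonzero functional). -/
def NormingOrth (δ ε : ℝ) (x y : X) : Prop :=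
  ∃ f : X →L[ℂ] ℂ, f ≠ 0 ∧ (1 - δ) * ‖f‖ * ‖x‖ ≤ ‖f x‖ ∧
    ‖f y‖ ≤ ε / (1 - δ) * ‖f‖ * ‖y‖

/-- `ψ` is in the dual unit ball and norms the unit vector `x`. -/
def Nm (ψ : X →L[ℂ] ℂ) (x : X) : Prop := ‖ψ‖ ≤ 1 ∧ ψ x = 1

/-- the set `AA(x,y)`: functionals of norm at most one with `g y = c`, `|g x| ≤ e`. -/
def AA (c e : ℝ) (x y : X) (g : X →L[ℂ] ℂ) : Prop :=
  ‖g‖ ≤ 1 ∧ g y = (c : ℂ) ∧ ‖g x‖ ≤ e

/-- aligned pair `(x,y)` over the base `(w,f)` with parameter `L`. -/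
structure Al (c e : ℝ) (w : X) (f : X →L[ℂ] ℂ) (x y : X) (L : ℝ) : Prop where
  nw : ‖w‖ = 1
  nf : ‖f‖ ≤ 1
  fw : f w = 1
  nx : ‖x‖ = 1
  ny : ‖y‖ = 1
  fx : f x = (c : ℂ)
  pos : 0 < L
  yeq : y = (e : ℂ) • w + (L : ℂ) • (x - (c : ℂ) • w)

/-- the phase of an aligned pair -/
structure IsOm (c e : ℝ) (x y : X) (ω : ℂ) : Prop where
  nrm : ‖ω‖ = 1
  ex : ∃ g : X →L[ℂ] ℂ, AA c e x y g
  eq : ∀ g : X →L[ℂ] ℂ, AA c e x y g → ω * g x = (e : ℂ)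
  lb : ∀ g : X →L[ℂ] ℂ, ‖g‖ ≤ 1 → g y = (c : ℂ) → e ≤ (ω * g x).re

/-- over a fixed base `(w,f)`: the stretch `T` and the phase `Om` as functions of `y`. -/
structure Fib (c e : ℝ) (w : X) (f : X →L[ℂ] ℂ) (T : X → ℝ) (Om : X → ℂ) : Prop where
  tpos : ∀ y : X, ‖y‖ = 1 → f y = (e : ℂ) → 0 < T y
  al : ∀ y : X, ‖y‖ = 1 → f y = (e : ℂ) →
    Al c e w f ((c : ℂ) • w + (T y : ℂ) • (y - (e : ℂ) • w)) y (T y)⁻¹
  om : ∀ y : X, ‖y‖ = 1 → f y = (e : ℂ) →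
    IsOm c e ((c : ℂ) • w + (T y : ℂ) • (y - (e : ℂ) • w)) y (Om y)
  contT : ContinuousOn T {y : X | ‖y‖ = 1 ∧ f y = (e : ℂ)}
  contO : ContinuousOn Om {y : X | ‖y‖ = 1 ∧ f y = (e : ℂ)}

end defs

/-- the parameters -/
structure Par (c e : ℝ) : Prop where
  e0 : 0 < e
  ec : e < c
  c1 : c < 1

/-- symmetry of the relation, on unit vectors, in the normalised form. -/
def Sym (X : Type u) [NormedAddCommGroup X] [NormedSpace ℂ X] (c e : ℝ) : Prop :=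
  ∀ x y : X, ‖x‖ = 1 → ‖y‖ = 1 → (∃ g : X →L[ℂ] ℂ, AA c e y x g) →
    ∃ g : X →L[ℂ] ℂ, AA c e x y g

/-- consequences of symmetry: `K1` and `K1'`. -/
structure HK (X : Type u) [NormedAddCommGroup X] [NormedSpace ℂ X] (c e : ℝ) : Prop where
  par : Par c e
  sym : Sym X c e
  k1 : ∀ (w : X) (f : X →L[ℂ] ℂ) (x y : X) (L : ℝ), Al c e w f x y L →
    ∀ g : X →L[ℂ] ℂ, ‖g‖ ≤ 1 → c ≤ ‖g y‖ → e ≤ ‖g x‖
  k1' : ∀ (w : X) (f : X →L[ℂ] ℂ) (x y : X) (L : ℝ), Al c e w f x y L →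
    ∀ g : X →L[ℂ] ℂ, ‖g‖ ≤ 1 → ‖g x‖ ≤ e → ‖g y‖ ≤ c

/-- the situation after the phase has been killed. -/
structure H2 (X : Type u) [NormedAddCommGroup X] [NormedSpace ℂ X] (c e : ℝ) : Prop where
  par : Par c e
  k1 : ∀ (w : X) (f : X →L[ℂ] ℂ) (x y : X) (L : ℝ), Al c e w f x y L →
    ∀ g : X →L[ℂ] ℂ, ‖g‖ ≤ 1 → c ≤ ‖g y‖ → e ≤ ‖g x‖
  k1' : ∀ (w : X) (f : X →L[ℂ] ℂ) (x y : X) (L : ℝ), Al c e w f x y L →
    ∀ g : X →L[ℂ] ℂ, ‖g‖ ≤ 1 → ‖g x‖ ≤ e → ‖g y‖ ≤ c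
  s : ∀ (w : X) (f : X →L[ℂ] ℂ) (x y : X) (L : ℝ), Al c e w f x y L →
    ∀ ψ : X →L[ℂ] ℂ, Nm ψ y → ∃ (g : X →L[ℂ] ℂ) (R : ℝ), ‖g‖ ≤ 1 ∧ g y = (c : ℂ) ∧
      g x = (e : ℂ) ∧ 0 < R ∧ ∀ v : X, f v = 0 → g v = (R : ℂ) * ψ v
  xx : ∀ (w : X) (f : X →L[ℂ] ℂ) (x y : X) (L : ℝ), Al c e w f x y L →
    ∃ (g ψ : X →L[ℂ] ℂ) (R : ℝ), ‖g‖ ≤ 1 ∧ g y = (c : ℂ) ∧
      g x = (e : ℂ) ∧ Nm ψ x ∧ 0 < R ∧ ∀ v : X, f v = 0 → g v = (R : ℂ) * ψ v

/-- smooth and strictly convex in addition. -/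
structure H3 (X : Type u) [NormedAddCommGroup X] [NormedSpace ℂ X] (c e : ℝ) : Prop where
  h2 : H2 X c e
  smooth : ∀ (y : X) (ψ₁ ψ₂ : X →L[ℂ] ℂ), ‖y‖ = 1 → Nm ψ₁ y → Nm ψ₂ y → ψ₁ = ψ₂
  conv : ∀ (f : X →L[ℂ] ℂ) (w₁ w₂ : X), ‖f‖ ≤ 1 → ‖w₁‖ = 1 → ‖w₂‖ = 1 → f w₁ = 1 →
    f w₂ = 1 → w₁ = w₂

/-- the function `l` and the property `R`, input of the final rigidity part. -/
structure PR (X : Type u) [NormedAddCommGroup X] [NormedSpace ℂ X] (m₀ : ℝ) (l : X → ℝ) :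
    Prop where
  m0 : 0 < m₀
  lb : ∀ x : X, ‖x‖ = 1 → m₀ ≤ l x
  ub : ∀ x : X, ‖x‖ = 1 → l x < 1
  r : ∀ (x y : X) (ψ φ : X →L[ℂ] ℂ), ‖x‖ = 1 → ‖y‖ = 1 → Nm ψ x → Nm φ y →
    ψ y = (l x : ℂ) → φ x = (l y : ℂ)

end NAO

end

section

/-!
Statements of the pieces (MP_9dede5_an). Full proof: note `FOUND` of helper91.
-/

universe u

namespace NAO

open Filter Topology

/-! ### A. Basic facts -/

/-- A1. Ray lemma (convexity of the norm). -/
def SRay : Prop := ∀ (X : Type u) [NormedAddCommGroup X] [NormedSpace ℂ X] (p v : X),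
  ‖p‖ < 1 → v ≠ 0 → ∃ r : ℝ, 0 < r ∧ ‖p + (r : ℂ) • v‖ = 1 ∧
    ∀ r' : ℝ, 0 ≤ r' → (r' < r → ‖p + (r' : ℂ) • v‖ < 1) ∧ (r < r' → 1 < ‖p + (r' : ℂ) • v‖)

/-- A2. Elementary facts on aligned pairs. -/
def SAlB : Prop := ∀ (X : Type u) [NormedAddCommGroup X] [NormedSpace ℂ X] (c e : ℝ),
  Par c e → ∀ (w : X) (f : X →L[ℂ] ℂ) (x y : X) (L : ℝ), Al c e w f x y L →
    e < L * c ∧ f y = (e : ℂ) ∧
      ∀ h : X →L[ℂ] ℂ, ‖h‖ ≤ 1 → h x = (c : ℂ) → e ≤ (h y).re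

/-- A3a. From `y` to the aligned `x` (ray lemma from `c w` in direction `y - e w`). -/
def SAlT : Prop := ∀ (X : Type u) [NormedAddCommGroup X] [NormedSpace ℂ X] (c e : ℝ),
  Par c e → ∀ (w : X) (f : X →L[ℂ] ℂ) (y : X), ‖w‖ = 1 → ‖f‖ ≤ 1 → f w = 1 → ‖y‖ = 1 →
    f y = (e : ℂ) → ∃ T : ℝ, 0 < T ∧
      Al c e w f ((c : ℂ) • w + (T : ℂ) • (y - (e : ℂ) • w)) y T⁻¹ ∧
      ∀ T' : ℝ, 0 < T' → ‖(c : ℂ) • w + (T' : ℂ) • (y - (e : ℂ) • w)‖ = 1 → T' = T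

/-- A3b. From `x` to the aligned `y` (ray lemma from `e w` in direction `x - c w`). -/
def SAlE : Prop := ∀ (X : Type u) [NormedAddCommGroup X] [NormedSpace ℂ X] (c e : ℝ),
  Par c e → ∀ (w : X) (f : X →L[ℂ] ℂ) (x : X), ‖w‖ = 1 → ‖f‖ ≤ 1 → f w = 1 → ‖x‖ = 1 →
    f x = (c : ℂ) → ∃ (y : X) (L : ℝ), Al c e w f x y L ∧
      ∀ (y' : X) (L' : ℝ), Al c e w f x y' L' → y' = y ∧ L' = L

/-- A4. K1 and K1'. -/
def SK1 : Prop := ∀ (X : Type u) [NormedAddCommGroup X] [NormedSpace ℂ X] (c e : ℝ),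
  Par c e → Sym X c e → HK X c e

/-- A5. Existence of the phase. -/
def SOm : Prop := ∀ (X : Type u) [NormedAddCommGroup X] [NormedSpace ℂ X] (c e : ℝ),
  HK X c e → ∀ (w : X) (f : X →L[ℂ] ℂ) (x y : X) (L : ℝ), Al c e w f x y L →
    ∃ ω : ℂ, IsOm c e x y ω

/-- A6. Real linear functionals on the dual of a finite dimensional space. -/
def SDual : Prop := ∀ (X : Type u) [NormedAddCommGroup X] [NormedSpace ℂ X]
  [FiniteDimensional ℂ X] (Φ : (X →L[ℂ] ℂ) →L[ℝ] ℝ), ∃ z : X, ∀ ℓ : X →L[ℂ] ℂ, Φ ℓ = (ℓ z).re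

/-- A7. Separation of a compact convex set from a cone, modulo `f`. -/
def SSep : Prop := ∀ (X : Type u) [NormedAddCommGroup X] [NormedSpace ℂ X]
  [FiniteDimensional ℂ X] (f : X →L[ℂ] ℂ) (K P : Set (X →L[ℂ] ℂ)),
  IsCompact K → Convex ℝ K → K.Nonempty → IsCompact P → Convex ℝ P → P.Nonempty →
  (∀ ψ ∈ P, ∀ z : ℂ, ψ ≠ z • f) →
  (∀ g ∈ K, ∀ ψ ∈ P, ∀ R : ℝ, 0 ≤ R → ∃ v : X, f v = 0 ∧ g v ≠ (R : ℂ) * ψ v) →
  ∃ z : X, f z = 0 ∧ (∀ g ∈ K, (g z).re < 0) ∧ (∀ ψ ∈ P, 0 ≤ (ψ z).re)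

/-- A8. (S) -/
def SS : Prop := ∀ (X : Type u) [NormedAddCommGroup X] [NormedSpace ℂ X]
  [FiniteDimensional ℂ X] (c e : ℝ), HK X c e →
  ∀ (w : X) (f : X →L[ℂ] ℂ) (x y : X) (L : ℝ), Al c e w f x y L →
    ∀ ψ : X →L[ℂ] ℂ, Nm ψ y → ∃ (g : X →L[ℂ] ℂ) (R : ℝ), AA c e x y g ∧ 0 < R ∧
      ∀ v : X, f v = 0 → g v = (R : ℂ) * ψ v

/-- A9. (XX) -/
def SXX : Prop := ∀ (X : Type u) [NormedAddCommGroup X] [NormedSpace ℂ X]
  [FiniteDimensional ℂ X] (c e : ℝ), HK X c e →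
  ∀ (w : X) (f : X →L[ℂ] ℂ) (x y : X) (L : ℝ), Al c e w f x y L →
    ∀ ω : ℂ, IsOm c e x y ω → ∃ (g ψ : X →L[ℂ] ℂ) (R : ℝ), AA c e x y g ∧ Nm ψ x ∧ 0 < R ∧
      ∀ v : X, f v = 0 → ω * g v = (R : ℂ) * ψ v

/-- A10. Positivity. -/
def SPos : Prop := ∀ (X : Type u) [NormedAddCommGroup X] [NormedSpace ℂ X]
  [FiniteDimensional ℂ X] (c e : ℝ), HK X c e →
  ∀ (w : X) (f : X →L[ℂ] ℂ) (x y : X) (L : ℝ), Al c e w f x y L →
    ∀ ω : ℂ, IsOm c e x y ω → ∀ g : X →L[ℂ] ℂ, AA c e x y g →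
      0 < (ω * ((c : ℂ) - (e : ℂ) * g w)).re ∧ 0 < ω.re

/-! ### B. Killing the phase -/

/-- B1. The functions `T`, `Om` on the slice, with continuity. -/
def SFib : Prop := ∀ (X : Type u) [NormedAddCommGroup X] [NormedSpace ℂ X]
  [FiniteDimensional ℂ X] (c e : ℝ), HK X c e → ∀ (w : X) (f : X →L[ℂ] ℂ),
  ‖w‖ = 1 → ‖f‖ ≤ 1 → f w = 1 → ∃ (T : X → ℝ) (Om : X → ℂ), Fib c e w f T Om

/-- B2. (FC) face constancy. -/
def SFC : Prop := ∀ (X : Type u) [NormedAddCommGroup X] [NormedSpace ℂ X]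
  [FiniteDimensional ℂ X] (c e : ℝ), HK X c e → ∀ (w : X) (f : X →L[ℂ] ℂ) (T : X → ℝ)
  (Om : X → ℂ), ‖w‖ = 1 → ‖f‖ ≤ 1 → f w = 1 → Fib c e w f T Om →
  ∀ (ψ : X →L[ℂ] ℂ) (y₀ y₁ : X), ‖y₀‖ = 1 → f y₀ = (e : ℂ) → ‖y₁‖ = 1 → f y₁ = (e : ℂ) →
    Nm ψ y₀ → Nm ψ y₁ → T y₀ = T y₁ ∧ Om y₀ = Om y₁

/-- B3. A sequence on the curve `‖p + ζ d‖ = 1` approaching `ζ₀` from a prescribed side. -/
def SCur : Prop := ∀ (X : Type u) [NormedAddCommGroup X] [NormedSpace ℂ X] (p d : X) (ζ₀ : ℂ)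
  (σ : ℝ), ‖p‖ < 1 → d ≠ 0 → ‖p + ζ₀ • d‖ = 1 → (σ = 1 ∨ σ = -1) →
  ∃ ζ : ℕ → ℂ, (∀ k, ‖p + ζ k • d‖ = 1) ∧ (∀ k, 0 < σ * (ζ k / ζ₀).im) ∧
    Tendsto ζ atTop (𝓝 ζ₀)

/-- B4. Normals along such a sequence: first order information. -/
def SNor : Prop := ∀ (X : Type u) [NormedAddCommGroup X] [NormedSpace ℂ X]
  [FiniteDimensional ℂ X] (p d : X) (ζ₀ : ℂ) (σ : ℝ) (ζ : ℕ → ℂ), ‖p‖ < 1 →
  ‖p + ζ₀ • d‖ = 1 → (σ = 1 ∨ σ = -1) → (∀ k, ‖p + ζ k • d‖ = 1) →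
  (∀ k, 0 < σ * (ζ k / ζ₀).im) → Tendsto ζ atTop (𝓝 ζ₀) →
  ∃ (φ : ℕ → ℕ) (ψ : ℕ → (X →L[ℂ] ℂ)) (ψ₀ : X →L[ℂ] ℂ), StrictMono φ ∧
    (∀ k, Nm (ψ k) (p + ζ (φ k) • d)) ∧ Nm ψ₀ (p + ζ₀ • d) ∧ ψ₀ d ≠ 0 ∧
    (∀ k, ζ (φ k) ≠ ζ₀) ∧
    (∀ k, (ψ₀ d * (ζ (φ k) - ζ₀)).re ≤ 0) ∧
    Tendsto (fun k => (ψ₀ d * (ζ (φ k) - ζ₀)).re / ‖ζ (φ k) - ζ₀‖) atTop (𝓝 0) ∧
    ∀ᶠ k in atTop, (‖ψ₀ d‖ / 2) * ‖ζ (φ k) - ζ₀‖ ≤ σ * (ψ₀ d * (ζ (φ k) - ζ₀)).im

/-- B5. The numerical estimate behind (LP). -/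
def SEst : Prop := ∀ (c e R T₀ σ κ : ℝ) (E ω : ℂ) (T s : ℕ → ℝ) (u : ℕ → ℂ),
  0 < e → c < 1 → 0 < R → 0 < T₀ → 0 < κ → (σ = 1 ∨ σ = -1) → 0 < E.re → 0 < ω.re →
  0 < σ * ω.im → Tendsto T atTop (𝓝 T₀) → (∀ k, T k ≤ T₀) → (∀ k, 0 < s k) →
  Tendsto s atTop (𝓝 0) → Tendsto u atTop (𝓝 0) → (∀ k, (u k).re ≤ 0) →
  Tendsto (fun k => (u k).re / s k) atTop (𝓝 0) →
  (∀ᶠ k in atTop, κ * s k ≤ σ * (u k).im) →
  ∀ᶠ k in atTop, R * (-(u k).re) / (1 - c) ≤ 1 ∧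
    ‖(e : ℂ) - ((T₀ - T k : ℝ) : ℂ) * E + ((T k * R : ℝ) : ℂ) * (ω * u k)‖
      + R * (-(u k).re) / (1 - c) < e

/-- B6. (LP). -/
def SLP : Prop := ∀ (X : Type u) [NormedAddCommGroup X] [NormedSpace ℂ X]
  [FiniteDimensional ℂ X] (c e : ℝ), HK X c e → ∀ (w : X) (f : X →L[ℂ] ℂ) (T : X → ℝ)
  (Om : X → ℂ), ‖w‖ = 1 → ‖f‖ ≤ 1 → f w = 1 → Fib c e w f T Om →
  ∀ (p d : X), f p = (e : ℂ) → ‖p‖ < 1 → d ≠ 0 → f d = 0 →
    ∃ ζ : ℂ, ‖p + ζ • d‖ = 1 ∧ (Om (p + ζ • d)).im = 0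

/-- B7. Theorem A: the phase is trivial. -/
def SThmA : Prop := ∀ (X : Type u) [NormedAddCommGroup X] [NormedSpace ℂ X]
  [FiniteDimensional ℂ X] (c e : ℝ), 3 ≤ Module.finrank ℂ X → HK X c e →
  ∀ (w : X) (f : X →L[ℂ] ℂ) (x y : X) (L : ℝ), Al c e w f x y L →
    ∀ g : X →L[ℂ] ℂ, AA c e x y g → g x = (e : ℂ)

/-- B8. Summary: the structure `H2`. -/
def SH2 : Prop := ∀ (X : Type u) [NormedAddCommGroup X] [NormedSpace ℂ X]
  [FiniteDimensional ℂ X] (c e : ℝ), 3 ≤ Module.finrank ℂ X → HK X c e → H2 X c e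

/-! ### C. Smoothness and strict convexity -/

/-- C1. (PB) -/
def SPB : Prop := ∀ (X : Type u) [NormedAddCommGroup X] [NormedSpace ℂ X]
  [FiniteDimensional ℂ X] (c e : ℝ), H2 X c e →
  ∀ (w y : X) (f ψ : X →L[ℂ] ℂ), ‖w‖ = 1 → ‖f‖ ≤ 1 → f w = 1 → ‖y‖ = 1 →
    f y = (e : ℂ) → Nm ψ y → (ψ w).im = 0

/-- C2. Smoothness. -/
def SSm : Prop := ∀ (X : Type u) [NormedAddCommGroup X] [NormedSpace ℂ X]
  [FiniteDimensional ℂ X] (c e : ℝ), H2 X c e →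
  ∀ (y : X) (ψ₁ ψ₂ : X →L[ℂ] ℂ), ‖y‖ = 1 → Nm ψ₁ y → Nm ψ₂ y → ψ₁ = ψ₂

/-- C3. Strict convexity. -/
def SCv : Prop := ∀ (X : Type u) [NormedAddCommGroup X] [NormedSpace ℂ X]
  [FiniteDimensional ℂ X] (c e : ℝ), H2 X c e →
  ∀ (f : X →L[ℂ] ℂ) (w₁ w₂ : X), ‖f‖ ≤ 1 → ‖w₁‖ = 1 → ‖w₂‖ = 1 → f w₁ = 1 →
    f w₂ = 1 → w₁ = w₂

/-! ### D. The function `l` -/

/-- D1. (PC) -/
def SPC : Prop := ∀ (X : Type u) [NormedAddCommGroup X] [NormedSpace ℂ X]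
  [FiniteDimensional ℂ X] (c e : ℝ), H3 X c e →
  ∀ (w : X) (f : X →L[ℂ] ℂ) (x y : X) (L : ℝ), Al c e w f x y L →
    ∀ ψ : X →L[ℂ] ℂ, Nm ψ x → (ψ y).im = 0 ∧ (ψ w).im = 0 ∧ e < c * (ψ y).re ∧
      ∃ t : ℝ, c + e ≤ t ∧ t * (c * (ψ y).re - e) = c ^ 2 - e ^ 2 ∧
        AA c e x y ((t : ℂ) • ψ + (((e - t) / c : ℝ) : ℂ) • f) ∧
        ((t : ℂ) • ψ + (((e - t) / c : ℝ) : ℂ) • f) x = (e : ℂ)

/-- D2. (PD) -/
def SPD : Prop := ∀ (X : Type u) [NormedAddCommGroup X] [NormedSpace ℂ X]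
  [FiniteDimensional ℂ X] (c e : ℝ), H3 X c e →
  ∀ (x w₁ w₂ y₁ y₂ : X) (f₁ f₂ : X →L[ℂ] ℂ) (L₁ L₂ : ℝ), Al c e w₁ f₁ x y₁ L₁ →
    Al c e w₂ f₂ x y₂ L₂ → ∀ ψ : X →L[ℂ] ℂ, Nm ψ x →
      |(ψ y₁).re - (ψ y₂).re| ≤ 1 / c * (‖f₁ - f₂‖ * ‖y₁ - y₂‖)

/-- D3. Lipschitz paths on the unit sphere by radial projection from `p`. -/
def SPath : Prop := ∀ (E : Type u) [NormedAddCommGroup E] [NormedSpace ℂ E] (p u₀ u₁ : E),
  ‖p‖ < 1 → ‖p + u₀‖ = 1 → ‖p + u₁‖ = 1 →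
  (∀ s ∈ Set.Icc (0 : ℝ) 1, ((1 - s : ℝ) : ℂ) • u₀ + (s : ℂ) • u₁ ≠ 0) →
  ∃ (F : ℝ → E) (K : ℝ), F 0 = p + u₀ ∧ F 1 = p + u₁ ∧
    (∀ s ∈ Set.Icc (0 : ℝ) 1, ‖F s‖ = 1 ∧
      ∃ r : ℝ, F s = p + (r : ℂ) • (((1 - s : ℝ) : ℂ) • u₀ + (s : ℂ) • u₁)) ∧
    ∀ s ∈ Set.Icc (0 : ℝ) 1, ∀ t ∈ Set.Icc (0 : ℝ) 1, ‖F s - F t‖ ≤ K * |s - t|

/-- D4. Continuity of the aligned `y` along a continuous path of functionals. -/
def SCY : Prop := ∀ (X : Type u) [NormedAddCommGroup X] [NormedSpace ℂ X]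
  [FiniteDimensional ℂ X] (c e : ℝ), H3 X c e → ∀ (x : X) (F : ℝ → (X →L[ℂ] ℂ))
  (W Y : ℝ → X) (L : ℝ → ℝ), ContinuousOn F (Set.Icc (0 : ℝ) 1) →
  (∀ s ∈ Set.Icc (0 : ℝ) 1, Al c e (W s) (F s) x (Y s) (L s)) →
  ContinuousOn Y (Set.Icc (0 : ℝ) 1)

/-- D5. Telescoping. -/
def STel : Prop := ∀ (X : Type u) [NormedAddCommGroup X] (P : ℝ → ℝ) (Y : ℝ → X) (K : ℝ),
  ContinuousOn Y (Set.Icc (0 : ℝ) 1) →
  (∀ s ∈ Set.Icc (0 : ℝ) 1, ∀ t ∈ Set.Icc (0 : ℝ) 1,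
    |P s - P t| ≤ K * |s - t| * ‖Y s - Y t‖) → P 0 = P 1

/-- D6. (PE) -/
def SPE : Prop := ∀ (X : Type u) [NormedAddCommGroup X] [NormedSpace ℂ X]
  [FiniteDimensional ℂ X] (c e : ℝ), H3 X c e →
  ∀ (x w₁ w₂ y₁ y₂ : X) (f₁ f₂ : X →L[ℂ] ℂ) (L₁ L₂ : ℝ), Al c e w₁ f₁ x y₁ L₁ →
    Al c e w₂ f₂ x y₂ L₂ → ∀ ψ : X →L[ℂ] ℂ, Nm ψ x → (ψ y₁).re = (ψ y₂).re

/-- D7. The function `l`. -/
def SL0 : Prop := ∀ (X : Type u) [NormedAddCommGroup X] [NormedSpace ℂ X]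
  [FiniteDimensional ℂ X] (c e : ℝ), 2 ≤ Module.finrank ℂ X → H3 X c e →
  ∃ l : X → ℝ, ∀ x : X, ‖x‖ = 1 → e / c ≤ l x ∧ l x < 1 ∧
    ∀ (w : X) (f : X →L[ℂ] ℂ) (y : X) (L : ℝ), Al c e w f x y L →
      ∀ ψ : X →L[ℂ] ℂ, Nm ψ x → ψ y = (l x : ℂ)

/-! ### E. Symmetry of alignment, property R -/

/-- E1. Perturbation at a functional with a unique norming vector. -/
def SPert : Prop := ∀ (X : Type u) [NormedAddCommGroup X] [NormedSpace ℂ X]
  [FiniteDimensional ℂ X] (g k : X →L[ℂ] ℂ) (w : X), ‖g‖ ≤ 1 → ‖w‖ = 1 → g w = 1 →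
  (∀ v : X, ‖v‖ = 1 → g v = 1 → v = w) → (k w).re < 0 →
  ∃ s₀ : ℝ, 0 < s₀ ∧ ∀ s : ℝ, 0 < s → s < s₀ → ‖g + (s : ℂ) • k‖ ≤ 1

/-- E2. Lagrange multiplier algebra. -/
def SLag : Prop := ∀ (X : Type u) [NormedAddCommGroup X] [NormedSpace ℂ X]
  [FiniteDimensional ℂ X] (a b w : X), (∀ z : ℂ, b ≠ z • a) →
  (∀ k : X →L[ℂ] ℂ, k a = 0 → (k b).re < 0 → 0 ≤ (k w).re) →
  ∃ (α : ℂ) (τ : ℝ), 0 ≤ τ ∧ w = α • a - (τ : ℂ) • b

/-- E3. (PF) alignment is symmetric. -/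
def SPF : Prop := ∀ (X : Type u) [NormedAddCommGroup X] [NormedSpace ℂ X]
  [FiniteDimensional ℂ X] (c e : ℝ), H3 X c e →
  ∀ (w : X) (f : X →L[ℂ] ℂ) (x y : X) (L : ℝ), Al c e w f x y L →
    ∃ (w' : X) (g : X →L[ℂ] ℂ) (M : ℝ), Al c e w' g y x M

/-- E4. (PG) aligned points exist in every tangent direction. -/
def SPG : Prop := ∀ (X : Type u) [NormedAddCommGroup X] [NormedSpace ℂ X]
  [FiniteDimensional ℂ X] (c e : ℝ), H3 X c e →
  ∀ (x n : X) (ψ : X →L[ℂ] ℂ), ‖x‖ = 1 → Nm ψ x → n ≠ 0 → ψ n = 0 →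
    ∃ (s : ℝ) (w : X) (f : X →L[ℂ] ℂ) (L : ℝ), 0 < s ∧
      Al c e w f x (((‖x + (s : ℂ) • n‖⁻¹ : ℝ) : ℂ) • (x + (s : ℂ) • n)) L

/-- E5. (PH) property R. -/
def SPH : Prop := ∀ (X : Type u) [NormedAddCommGroup X] [NormedSpace ℂ X]
  [FiniteDimensional ℂ X] (c e : ℝ), 2 ≤ Module.finrank ℂ X → H3 X c e →
  ∃ l : X → ℝ, PR X (e / c) l

/-! ### F. Property R implies the parallelogram law -/

/-- F1. (I) -/
def SI : Prop := ∀ (X : Type u) [NormedAddCommGroup X] [NormedSpace ℂ X] (m₀ : ℝ)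
  (l : X → ℝ), PR X m₀ l → ∀ (x n : X) (ψ : X →L[ℂ] ℂ), ‖x‖ = 1 → Nm ψ x → ψ n = 0 →
  ‖(l x : ℂ) • x + n‖ = 1 → ∀ z : ℂ, ‖z‖ = 1 → ‖(l x : ℂ) • x + z • n‖ = 1

/-- F2. (J) -/
def SJ : Prop := ∀ (X : Type u) [NormedAddCommGroup X] [NormedSpace ℂ X] (m₀ : ℝ)
  (l : X → ℝ), PR X m₀ l → ∀ (w n : X) (ψ : X →L[ℂ] ℂ), ‖w‖ = 1 → Nm ψ w → ψ n = 0 →
  ‖(l w : ℂ) • w + n‖ = 1 → ∀ z : ℂ, ‖z‖ = 1 →
    l ((l w : ℂ) • w + z • n) = l ((l w : ℂ) • w + n)

/-- F3. (L) -/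
def SL : Prop := ∀ (X : Type u) [NormedAddCommGroup X] [NormedSpace ℂ X] (m₀ : ℝ)
  (l : X → ℝ), PR X m₀ l → ∀ (w n : X) (ψ : X →L[ℂ] ℂ), ‖w‖ = 1 → Nm ψ w → ψ n = 0 →
  ‖(l w : ℂ) • w + n‖ = 1 → ∃ κ β : ℝ, 0 < κ ∧ 0 < β ∧ ∀ p q : ℂ,
    ‖q‖ ^ 2 ≤ β * (‖p‖ ^ 2 + κ * ‖q‖ ^ 2) →
    ‖p • w + q • n‖ ^ 2 = ‖p‖ ^ 2 + κ * ‖q‖ ^ 2

/-- F4a. A function which is locally a quadratic polynomial is one. -/
def SQuad : Prop := ∀ h : ℝ → ℝ,
  (∀ s₀ : ℝ, ∃ A B C : ℝ, ∀ᶠ s in 𝓝 s₀, h s = A * s ^ 2 + B * s + C) →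
  ∃ A B C : ℝ, ∀ s : ℝ, h s = A * s ^ 2 + B * s + C

/-- F4. Parallelogram law from property R. -/
def SPar : Prop := ∀ (X : Type u) [NormedAddCommGroup X] [NormedSpace ℂ X] (m₀ : ℝ)
  (l : X → ℝ), PR X m₀ l → ∀ x y : X,
    ‖x + y‖ * ‖x + y‖ + ‖x - y‖ * ‖x - y‖ = 2 * (‖x‖ * ‖x‖ + ‖y‖ * ‖y‖)

/-! ### G. Reduction and main theorem -/

/-- G1. Three dimensional case. -/
def SThree : Prop := ∀ (X : Type u) [NormedAddCommGroup X] [NormedSpace ℂ X]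
  [FiniteDimensional ℂ X] (c e : ℝ), 3 ≤ Module.finrank ℂ X → Par c e → Sym X c e →
  ∀ x y : X, ‖x + y‖ * ‖x + y‖ + ‖x - y‖ * ‖x - y‖ = 2 * (‖x‖ * ‖x‖ + ‖y‖ * ‖y‖)

/-- G2. From the original relation to `Sym`, on every subspace. -/
def SRed : Prop := ∀ (X : Type u) [NormedAddCommGroup X] [NormedSpace ℂ X] (δ ε : ℝ),
  0 < δ → δ < 1 → 0 < ε → ε < (1 - δ) ^ 2 →
  (∀ x y : X, NormingOrth δ ε x y → NormingOrth δ ε y x) →
  Par (1 - δ) (ε / (1 - δ)) ∧ ∀ M : Submodule ℂ X, Sym M (1 - δ) (ε / (1 - δ))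

/-- G3. Every pair of vectors lies in a subspace of dimension three. -/
def SSub : Prop := ∀ (X : Type u) [AddCommGroup X] [Module ℂ X],
  3 ≤ Module.rank ℂ X → ∀ x y : X, ∃ M : Submodule ℂ X, x ∈ M ∧ y ∈ M ∧
    FiniteDimensional ℂ M ∧ 3 ≤ Module.finrank ℂ M

/-- the norm of `X` comes from an inner product -/
def HilbertNorm (X : Type u) [NormedAddCommGroup X] [NormedSpace ℂ X] : Prop :=
  ∃ s : X → X → ℂ, (∀ x y z : X, s (x + y) z = s x z + s y z) ∧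
    (∀ (a : ℂ) (x y : X), s (a • x) y = a * s x y) ∧
    (∀ x y : X, s y x = (starRingEnd ℂ) (s x y)) ∧
    (∀ x : X, s x x = ((‖x‖ ^ 2 : ℝ) : ℂ))

/-- G4. Jordan-von Neumann. -/
def SJvN : Prop := ∀ (X : Type u) [NormedAddCommGroup X] [NormedSpace ℂ X],
  (∀ x y : X, ‖x + y‖ * ‖x + y‖ + ‖x - y‖ * ‖x - y‖ = 2 * (‖x‖ * ‖x‖ + ‖y‖ * ‖y‖)) →
  HilbertNorm X

end NAO

end

section

/-! Assembly of the pieces (MP_9dede5_an). -/

universe u

namespace NAO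

theorem sthree_of (hK : SK1.{u}) (hH : SH2.{u}) (hS : SSm.{u}) (hC : SCv.{u}) (hP : SPH.{u})
    (hF : SPar.{u}) : SThree.{u} := by
  intro X _ _ _ c e hr hpar hsym x y
  have h2 : H2 X c e := hH X c e hr (hK X c e hpar hsym)
  have h3 : H3 X c e := ⟨h2, hS X c e h2, hC X c e h2⟩
  obtain ⟨l, hl⟩ := hP X c e (by omega) h3
  exact hF X (e / c) l hl x y

theorem main_of (hT : SThree.{u}) (hR : SRed.{u}) (hB : SSub.{u}) (hJ : SJvN.{u})
    (X : Type u) [NormedAddCommGroup X] [NormedSpace ℂ X] (δ ε : ℝ)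
    (hδ : 0 < δ) (hδ1 : δ < 1) (hε : 0 < ε) (hεδ : ε < (1 - δ) ^ 2)
    (hrank : 3 ≤ Module.rank ℂ X)
    (hsym : ∀ x y : X, NormingOrth δ ε x y → NormingOrth δ ε y x) : HilbertNorm X := by
  apply hJ X
  intro x y
  obtain ⟨hpar, hM⟩ := hR X δ ε hδ hδ1 hε hεδ hsym
  obtain ⟨M, hx, hy, hfd, hr⟩ := hB X hrank x y
  have h := hT M (1 - δ) (ε / (1 - δ)) hr hpar (hM M) ⟨x, hx⟩ ⟨y, hy⟩
  simpa using h

end NAO

end

section

/-!
A1. Ray lemma.
-/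

universe u

namespace NAO

theorem ray_conv {X : Type u} [NormedAddCommGroup X] [NormedSpace ℂ X] (p v : X)
    (a b : ℝ) (ha : 0 ≤ a) (hb : 0 < b) (hab : a < b) (hp : ‖p‖ < 1)
    (h1 : ‖p + (b : ℂ) • v‖ ≤ 1) : ‖p + (a : ℂ) • v‖ < 1 := by
  have hbC : (b : ℂ) ≠ 0 := by exact_mod_cast hb.ne'
  have hid : p + (a : ℂ) • v
      = ((1 - a / b : ℝ) : ℂ) • p + ((a / b : ℝ) : ℂ) • (p + (b : ℂ) • v) := by
    rw [smul_add, smul_smul]
    have h2 : ((a / b : ℝ) : ℂ) * (b : ℂ) = (a : ℂ) := by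
      push_cast
      field_simp
    rw [h2]
    push_cast
    rw [sub_smul, one_smul]
    abel
  have ht0 : 0 ≤ a / b := div_nonneg ha hb.le
  have ht1 : a / b < 1 := (div_lt_one hb).2 hab
  rw [hid]
  calc ‖((1 - a / b : ℝ) : ℂ) • p + ((a / b : ℝ) : ℂ) • (p + (b : ℂ) • v)‖
      ≤ ‖((1 - a / b : ℝ) : ℂ) • p‖ + ‖((a / b : ℝ) : ℂ) • (p + (b : ℂ) • v)‖ := norm_add_le _ _
    _ = (1 - a / b) * ‖p‖ + (a / b) * ‖p + (b : ℂ) • v‖ := by
        rw [norm_smul, norm_smul, Complex.norm_real, Complex.norm_real, Real.norm_eq_abs,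
          Real.norm_eq_abs, abs_of_nonneg (by linarith), abs_of_nonneg ht0]
    _ < 1 := by
        have h3 : (1 - a / b) * ‖p‖ < (1 - a / b) * 1 :=
          mul_lt_mul_of_pos_left hp (by linarith)
        have h4 : (a / b) * ‖p + (b : ℂ) • v‖ ≤ (a / b) * 1 :=
          mul_le_mul_of_nonneg_left h1 ht0
        linarith

theorem itemA1 : SRay.{u} := by
  intro X _ _ p v hp hv
  have hv0 : 0 < ‖v‖ := norm_pos_iff.2 hv
  set φ : ℝ → ℝ := fun r => ‖p + (r : ℂ) • v‖ with hφ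
  have hcont : Continuous φ := by
    rw [hφ]
    fun_prop
  have h0 : φ 0 < 1 := by simpa [hφ] using hp
  set R : ℝ := (1 + ‖p‖) / ‖v‖ with hR
  have hR0 : 0 < R := by rw [hR]; positivity
  have hR1 : 1 ≤ φ R := by
    have h1 : ‖(R : ℂ) • v‖ = 1 + ‖p‖ := by
      rw [norm_smul, Complex.norm_real, Real.norm_eq_abs, abs_of_pos hR0, hR]
      field_simp
    have h2 : ‖(R : ℂ) • v‖ ≤ ‖p + (R : ℂ) • v‖ + ‖p‖ := by
      have h3 : (R : ℂ) • v = (p + (R : ℂ) • v) - p := by abel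
      calc ‖(R : ℂ) • v‖ = ‖(p + (R : ℂ) • v) - p‖ := by rw [← h3]
        _ ≤ _ := norm_sub_le _ _
    change 1 ≤ ‖p + (R : ℂ) • v‖
    linarith
  obtain ⟨r, ⟨hr0, _⟩, hr⟩ : (1 : ℝ) ∈ φ '' Set.Icc 0 R :=
    intermediate_value_Icc hR0.le hcont.continuousOn ⟨h0.le, hR1⟩
  have hr1 : ‖p + (r : ℂ) • v‖ = 1 := hr
  have hrpos : 0 < r := by
    rcases lt_or_eq_of_le hr0 with h | h
    · exact h
    · rw [← h] at hr
      linarith
  refine ⟨r, hrpos, hr1, fun r' hr' => ⟨fun h => ?_, fun h => ?_⟩⟩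
  · exact ray_conv p v r' r hr' hrpos h hp hr1.le
  · by_contra hcon
    push Not at hcon
    have := ray_conv p v r r' hr0 (lt_trans hrpos h) h hp hcon
    linarith

end NAO

end

section

/-!
A10. Positivity.
-/

universe u

namespace NAO

theorem a10_aux {X : Type u} [NormedAddCommGroup X] [NormedSpace ℂ X] {c e L : ℝ} {w x y : X}
    {ω : ℂ} {g : X →L[ℂ] ℂ} (hy : y = (e : ℂ) • w + (L : ℂ) • (x - (c : ℂ) • w))
    (hgy : g y = (c : ℂ)) (hgx : ω * g x = (e : ℂ)) :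
    ((L * c - e : ℝ) : ℂ) * (ω * ((c : ℂ) - (e : ℂ) * g w)) =
      (L : ℂ) * ((c : ℂ) ^ 2 * ω - (e : ℂ) ^ 2) := by
  have h : (e : ℂ) * g w + (L : ℂ) * (g x - (c : ℂ) * g w) = (c : ℂ) := by
    have h' := congrArg g hy
    rw [hgy] at h'
    simp only [map_add, map_smul, map_sub, smul_eq_mul] at h'
    exact h'.symm
  push_cast
  linear_combination (-(ω * e)) * (-1 : ℂ) * h - (e * L : ℂ) * hgx

theorem itemA10 (h1 : SAlB.{u}) (h2 : SXX.{u}) : SPos.{u} := by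
  intro X _ _ _ c e H w f x y L hAl ω hOm g hg
  obtain ⟨hLc, _, _⟩ := h1 X c e H.par w f x y L hAl
  obtain ⟨g', ψ, R, hg', hψ, hR, hgR⟩ := h2 X c e H w f x y L hAl ω hOm
  have hL := hAl.pos
  have hD : 0 < L * c - e := by linarith
  have a1 := a10_aux hAl.yeq hg.2.1 (hOm.eq g hg)
  have a2 := a10_aux hAl.yeq hg'.2.1 (hOm.eq g' hg')
  have hne : ((L * c - e : ℝ) : ℂ) ≠ 0 := Complex.ofReal_ne_zero.mpr hD.ne'
  have heq : ω * ((c : ℂ) - (e : ℂ) * g w) = ω * ((c : ℂ) - (e : ℂ) * g' w) :=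
    mul_left_cancel₀ hne (a1.trans a2.symm)
  have hv : f (x - (c : ℂ) • w) = 0 := by
    rw [map_sub, map_smul, hAl.fx, hAl.fw]; simp
  have b1 : ω * ((c : ℂ) - (e : ℂ) * g' w) = ((L * R : ℝ) : ℂ) * (1 - (c : ℂ) * ψ w) := by
    have h3 := hgR _ hv
    have h4 : (e : ℂ) * g' w + (L : ℂ) * g' (x - (c : ℂ) • w) = (c : ℂ) := by
      have h' := congrArg g' hAl.yeq
      rw [hg'.2.1, map_add, map_smul, map_smul, smul_eq_mul, smul_eq_mul] at h'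
      exact h'.symm
    have h5 : ψ (x - (c : ℂ) • w) = 1 - (c : ℂ) * ψ w := by
      rw [map_sub, map_smul, hψ.2, smul_eq_mul]
    rw [h5] at h3
    push_cast
    linear_combination (-ω) * h4 + (L : ℂ) * h3
  have hψw : ‖ψ w‖ ≤ 1 := by
    calc ‖ψ w‖ ≤ ‖ψ‖ * ‖w‖ := ψ.le_opNorm w
      _ ≤ 1 * 1 := by
          rw [hAl.nw]
          have := hψ.1
          gcongr
      _ = 1 := one_mul 1
  have hc0 : 0 < c := by linarith [H.par.e0, H.par.ec]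
  have hc1 := H.par.c1
  have hre : (ψ w).re ≤ 1 := (Complex.re_le_norm _).trans hψw
  have hpos : 0 < (ω * ((c : ℂ) - (e : ℂ) * g w)).re := by
    rw [heq, b1]
    have : (((L * R : ℝ) : ℂ) * (1 - (c : ℂ) * ψ w)).re = (L * R) * (1 - c * (ψ w).re) := by
      rw [Complex.re_ofReal_mul, Complex.sub_re, Complex.one_re, Complex.re_ofReal_mul]
    rw [this]
    have h6 : 0 < 1 - c * (ψ w).re := by nlinarith
    positivity
  refine ⟨hpos, ?_⟩
  have h7 : (L * c - e) * (ω * ((c : ℂ) - (e : ℂ) * g w)).re = L * (c ^ 2 * ω.re - e ^ 2) := by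
    have := congrArg Complex.re a1
    rw [Complex.re_ofReal_mul, Complex.re_ofReal_mul, Complex.sub_re] at this
    have e1 : ((c : ℂ) ^ 2 * ω).re = c ^ 2 * ω.re := by
      rw [← Complex.ofReal_pow, Complex.re_ofReal_mul]
    have e2 : ((e : ℂ) ^ 2).re = e ^ 2 := by
      rw [← Complex.ofReal_pow, Complex.ofReal_re]
    rw [e1, e2] at this
    exact this
  have h8 : 0 < L * (c ^ 2 * ω.re - e ^ 2) := by
    rw [← h7]; exact mul_pos hD hpos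
  have h9 : 0 < c ^ 2 * ω.re - e ^ 2 := (mul_pos_iff_of_pos_left hL).mp h8
  have h10 : 0 < c ^ 2 * ω.re := by nlinarith [sq_nonneg e]
  exact (mul_pos_iff_of_pos_left (by positivity)).mp h10

end NAO

end

section

/-!
A2. Elementary facts on aligned pairs.
-/

universe u

namespace NAO

theorem itemA2 : SAlB.{u} := by
  intro X _ _ c e hpar w f x y L hA
  have he0 := hpar.e0
  have hec := hpar.ec
  have hc1 := hpar.c1
  have hc0 : 0 < c := lt_trans he0 hec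
  have hL := hA.pos
  have hlt : e < L * c := by
    by_contra hcon
    push Not at hcon
    have hy : y = (L : ℂ) • x + ((e - L * c : ℝ) : ℂ) • w := by
      rw [hA.yeq, smul_sub, smul_smul]
      push_cast
      rw [sub_smul]
      abel
    have h1 : ‖y‖ ≤ L + (e - L * c) := by
      rw [hy]
      refine (norm_add_le _ _).trans ?_
      rw [norm_smul, norm_smul, Complex.norm_real, Complex.norm_real, Real.norm_eq_abs,
        Real.norm_eq_abs, abs_of_pos hL, abs_of_nonneg (by linarith), hA.nx, hA.nw]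
      linarith
    rw [hA.ny] at h1
    have h2 : L ≤ e / c := (le_div_iff₀ hc0).2 hcon
    have h3 : L * (1 - c) ≤ e / c * (1 - c) :=
      mul_le_mul_of_nonneg_right h2 (by linarith)
    have h4 : e / c * (1 - c) = e / c - e := by
      field_simp
    have h5 : e / c < 1 := (div_lt_one hc0).2 hec
    nlinarith
  refine ⟨hlt, ?_, ?_⟩
  · rw [hA.yeq]
    simp only [map_add, map_smul, map_sub, hA.fw, hA.fx, smul_eq_mul]
    ring
  · intro h hh hx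
    have hw : ‖h w‖ ≤ 1 := by
      have := h.le_opNorm w
      rw [hA.nw] at this
      linarith
    have hre : (h w).re ≤ 1 := (Complex.re_le_norm _).trans hw
    have hy : h y = ((e - L * c : ℝ) : ℂ) * h w + ((L * c : ℝ) : ℂ) := by
      rw [hA.yeq]
      simp only [map_add, map_smul, map_sub, hx, smul_eq_mul]
      push_cast
      ring
    rw [hy, Complex.add_re, Complex.re_ofReal_mul, Complex.ofReal_re]
    nlinarith

end NAO

end

section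

/-!
A3. Construction of aligned pairs.
-/

universe u

namespace NAO

theorem ofReal_smul_norm {X : Type u} [NormedAddCommGroup X] [NormedSpace ℂ X] (w : X) (c : ℝ)
    (hc : 0 ≤ c) (hw : ‖w‖ = 1) : ‖(c : ℂ) • w‖ = c := by
  rw [norm_smul, Complex.norm_real, Real.norm_eq_abs, abs_of_nonneg hc, hw, mul_one]

theorem ray_unique {X : Type u} [NormedAddCommGroup X] [NormedSpace ℂ X] (p v : X) (r r' : ℝ)
    (h : ∀ s : ℝ, 0 ≤ s → (s < r → ‖p + (s : ℂ) • v‖ < 1) ∧ (r < s → 1 < ‖p + (s : ℂ) • v‖))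
    (h0 : 0 < r') (h1 : ‖p + (r' : ℂ) • v‖ = 1) : r' = r := by
  rcases lt_trichotomy r' r with hlt | heq | hgt
  · have := (h r' h0.le).1 hlt
    linarith
  · exact heq
  · have := (h r' h0.le).2 hgt
    linarith

theorem itemA3a (h1 : SRay.{u}) : SAlT.{u} := by
  intro X _ _ c e hpar w f y hw hf hfw hy hfy
  have he0 := hpar.e0
  have hec := hpar.ec
  have hc1 := hpar.c1
  have hc0 : 0 < c := lt_trans he0 hec
  have hp : ‖(c : ℂ) • w‖ < 1 := by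
    rw [ofReal_smul_norm w c hc0.le hw]
    exact hc1
  have hv : y - (e : ℂ) • w ≠ 0 := by
    intro h
    have h2 : y = (e : ℂ) • w := sub_eq_zero.1 h
    have h3 := ofReal_smul_norm w e he0.le hw
    rw [← h2, hy] at h3
    linarith
  obtain ⟨T, hT, hnT, hun⟩ := h1 X ((c : ℂ) • w) (y - (e : ℂ) • w) hp hv
  have hTC : (T : ℂ) ≠ 0 := by exact_mod_cast hT.ne'
  refine ⟨T, hT, ?_, ?_⟩
  · refine ⟨hw, hf, hfw, hnT, hy, ?_, inv_pos.2 hT, ?_⟩
    · simp only [map_add, map_smul, map_sub, hfw, hfy, smul_eq_mul]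
      ring
    · rw [add_sub_cancel_left, smul_smul]
      have : ((T⁻¹ : ℝ) : ℂ) * (T : ℂ) = 1 := by
        push_cast
        exact inv_mul_cancel₀ hTC
      rw [this, one_smul]
      abel
  · intro T' hT' hn
    exact ray_unique _ _ T T' hun hT' hn

theorem itemA3b (h1 : SRay.{u}) : SAlE.{u} := by
  intro X _ _ c e hpar w f x hw hf hfw hx hfx
  have he0 := hpar.e0
  have hec := hpar.ec
  have hc1 := hpar.c1
  have hc0 : 0 < c := lt_trans he0 hec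
  have hp : ‖(e : ℂ) • w‖ < 1 := by
    rw [ofReal_smul_norm w e he0.le hw]
    linarith
  have hv : x - (c : ℂ) • w ≠ 0 := by
    intro h
    have h2 : x = (c : ℂ) • w := sub_eq_zero.1 h
    have h3 := ofReal_smul_norm w c hc0.le hw
    rw [← h2, hx] at h3
    linarith
  obtain ⟨L, hL, hnL, hun⟩ := h1 X ((e : ℂ) • w) (x - (c : ℂ) • w) hp hv
  refine ⟨(e : ℂ) • w + (L : ℂ) • (x - (c : ℂ) • w), L,
    ⟨hw, hf, hfw, hx, hnL, hfx, hL, rfl⟩, ?_⟩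
  intro y' L' hA
  have h2 : L' = L := by
    refine ray_unique _ _ L L' hun hA.pos ?_
    rw [← hA.yeq]
    exact hA.ny
  refine ⟨?_, h2⟩
  rw [← h2]
  exact hA.yeq

end NAO

end

section

/-!
A4: symmetry gives the key inequality K1.
-/

universe u

namespace NAO

section

variable {X : Type u} [NormedAddCommGroup X] [NormedSpace ℂ X]

/-- Scaling a functional down such that it takes the value `c`. -/
theorem itemA4_scale {c : ℝ} (hc : 0 < c) (g : X →L[ℂ] ℂ) (hg : ‖g‖ ≤ 1) (y : X)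
    (hy : c ≤ ‖g y‖) : ∃ g' : X →L[ℂ] ℂ, ‖g'‖ ≤ 1 ∧ g' y = (c : ℂ) ∧
      ∀ x, ‖g' x‖ = c / ‖g y‖ * ‖g x‖ := by
  have h0 : 0 < ‖g y‖ := lt_of_lt_of_le hc hy
  have h1 : g y ≠ 0 := norm_pos_iff.mp h0
  have hn : ‖(c : ℂ) / g y‖ = c / ‖g y‖ := by
    rw [norm_div, Complex.norm_real, Real.norm_eq_abs, abs_of_pos hc]
  refine ⟨((c : ℂ) / g y) • g, ?_, ?_, ?_⟩
  · rw [norm_smul, hn]
    have h2 : c / ‖g y‖ ≤ 1 := (div_le_one h0).mpr hy
    calc c / ‖g y‖ * ‖g‖ ≤ 1 * 1 := mul_le_mul h2 hg (norm_nonneg _) zero_le_one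
      _ = 1 := one_mul 1
  · change ((c : ℂ) / g y) * g y = c
    field_simp
  · intro x
    change ‖((c : ℂ) / g y) * g x‖ = _
    rw [norm_mul, hn]

/-- K1. -/
theorem itemA4_k1 (h1 : SAlB.{u}) {c e : ℝ} (hP : Par c e) (hS : Sym X c e)
    (w : X) (f : X →L[ℂ] ℂ) (x y : X) (L : ℝ) (hA : Al c e w f x y L)
    (g : X →L[ℂ] ℂ) (hg : ‖g‖ ≤ 1) (hgy : c ≤ ‖g y‖) : e ≤ ‖g x‖ := by
  have he := hP.e0
  have hec := hP.ec
  have hc1 := hP.c1
  have hc : 0 < c := he.trans hec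
  by_contra hlt
  push Not at hlt
  obtain ⟨g', hg', hg'y, hg'x⟩ := itemA4_scale hc g hg y hgy
  have hx' : ‖g' x‖ < e := by
    rw [hg'x]
    have h0 : 0 < ‖g y‖ := lt_of_lt_of_le hc hgy
    have h2 : c / ‖g y‖ ≤ 1 := (div_le_one h0).mpr hgy
    calc c / ‖g y‖ * ‖g x‖ ≤ 1 * ‖g x‖ := mul_le_mul_of_nonneg_right h2 (norm_nonneg _)
      _ < e := by linarith
  set η : ℝ := e - ‖g' x‖ with hη
  have hη0 : 0 < η := by linarith
  have hηe : η ≤ e := by linarith [norm_nonneg (g' x)]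
  have hη1 : η < 1 := by linarith
  set t : ℝ := (1 - c) * η / (c + e) with ht
  have hce : 0 < c + e := by linarith
  have ht0 : 0 < t := by
    have : 0 < 1 - c := by linarith
    positivity
  have htη : t * (c + e) = (1 - c) * η := by
    rw [ht]
    field_simp
  have ht1 : t < 1 := by
    by_contra h
    push Not at h
    nlinarith
  set v : X := y + (t : ℂ) • x with hv
  have hN1 : ‖v‖ ≤ 1 + t := by
    calc ‖v‖ ≤ ‖y‖ + ‖(t : ℂ) • x‖ := norm_add_le _ _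
      _ = 1 + t := by
        rw [norm_smul, hA.ny, hA.nx, Complex.norm_real, Real.norm_eq_abs, abs_of_pos ht0, mul_one]
  have hN0 : 0 < ‖v‖ := by
    have : ‖y‖ ≤ ‖v‖ + ‖(t : ℂ) • x‖ := by
      have e1 : y = v - (t : ℂ) • x := by rw [hv]; abel
      calc ‖y‖ = ‖v - (t : ℂ) • x‖ := by rw [← e1]
        _ ≤ _ := norm_sub_le _ _
    rw [norm_smul, hA.ny, hA.nx, Complex.norm_real, Real.norm_eq_abs, abs_of_pos ht0, mul_one]
      at this
    linarith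
  set z : X := ((‖v‖⁻¹ : ℝ) : ℂ) • v with hz
  have hz1 : ‖z‖ = 1 := by
    rw [hz, norm_smul, Complex.norm_real, Real.norm_eq_abs, abs_of_pos (inv_pos.mpr hN0)]
    exact inv_mul_cancel₀ hN0.ne'
  have hval : ∀ h : X →L[ℂ] ℂ, (h z).re = ‖v‖⁻¹ * ((h y).re + t * (h x).re) := by
    intro h
    rw [hz, hv, map_smul, map_add, map_smul, smul_eq_mul, smul_eq_mul, Complex.re_ofReal_mul,
      Complex.add_re, Complex.re_ofReal_mul]
  -- no functional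
  have hno : ¬ ∃ k : X →L[ℂ] ℂ, AA c e x z k := by
    intro hk
    obtain ⟨h, hh1, hh2, hh3⟩ := hS z x hz1 hA.nx hk
    have h4 := ((h1 X c e hP w f x y L hA).2.2 h hh1 hh2)
    have h5 := hval h
    have h6 : (h z).re ≤ e := (Complex.re_le_norm _).trans hh3
    rw [h5, hh2, Complex.ofReal_re] at h6
    have h7 : (h y).re + t * c ≤ e * ‖v‖ := by
      have := mul_le_mul_of_nonneg_left h6 hN0.le
      rw [← mul_assoc, mul_inv_cancel₀ hN0.ne', one_mul] at this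
      linarith
    have h8 : e * ‖v‖ ≤ e * (1 + t) := mul_le_mul_of_nonneg_left hN1 he.le
    nlinarith
  -- construction of a functional
  have hz0 : ‖z‖ ≠ 0 := by
    rw [hz1]
    exact one_ne_zero
  obtain ⟨ψ, hψ1, hψ2⟩ := exists_dual_vector ℂ z hz0
  rw [hz1] at hψ2
  set g1 : X →L[ℂ] ℂ := ((1 - η : ℝ) : ℂ) • g' + ((η : ℝ) : ℂ) • ψ with hg1
  have hg1n : ‖g1‖ ≤ 1 := by
    have h2 : ‖((1 - η : ℝ) : ℂ)‖ = 1 - η := by
      rw [Complex.norm_real, Real.norm_eq_abs, abs_of_pos (by linarith)]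
    have h3 : ‖((η : ℝ) : ℂ)‖ = η := by
      rw [Complex.norm_real, Real.norm_eq_abs, abs_of_pos hη0]
    calc ‖g1‖ ≤ ‖((1 - η : ℝ) : ℂ) • g'‖ + ‖((η : ℝ) : ℂ) • ψ‖ := norm_add_le _ _
      _ = (1 - η) * ‖g'‖ + η * ‖ψ‖ := by rw [norm_smul, norm_smul, h2, h3]
      _ ≤ (1 - η) * 1 + η * 1 := by
        rw [hψ1]
        have := mul_le_mul_of_nonneg_left hg' (show (0 : ℝ) ≤ 1 - η by linarith)
        linarith
      _ = 1 := by ring
  have hg'z : c - t * (c + e) ≤ (g' z).re := by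
    rw [hval g', hg'y, Complex.ofReal_re]
    have h2 : -‖g' x‖ ≤ (g' x).re := (abs_le.mp (Complex.abs_re_le_norm (g' x))).1
    have h3 : -e ≤ (g' x).re := by linarith
    have h4 : c - t * e ≤ c + t * (g' x).re := by nlinarith
    have h5 : 0 < c - t * e := by nlinarith
    have h6 : (1 + t)⁻¹ ≤ ‖v‖⁻¹ := inv_anti₀ hN0 hN1
    have h7 : (1 + t)⁻¹ * (c - t * e) ≤ ‖v‖⁻¹ * (c + t * (g' x).re) :=
      mul_le_mul h6 h4 h5.le (inv_nonneg.mpr hN0.le)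
    refine le_trans ?_ h7
    have h8 : 0 < 1 + t := by linarith
    rw [inv_mul_eq_div, le_div_iff₀ h8]
    nlinarith [mul_pos ht0 (mul_pos ht0 hce)]
  have hg1z : c ≤ ‖g1 z‖ := by
    refine le_trans ?_ (Complex.re_le_norm _)
    have h2 : (g1 z).re = (1 - η) * (g' z).re + η * (ψ z).re := by
      change (((1 - η : ℝ) : ℂ) * g' z + ((η : ℝ) : ℂ) * ψ z).re = _
      rw [Complex.add_re, Complex.re_ofReal_mul, Complex.re_ofReal_mul]
    have h3 : (ψ z).re = 1 := by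
      rw [hψ2]
      simp
    rw [h2, h3]
    have h4 := mul_le_mul_of_nonneg_left hg'z (show (0 : ℝ) ≤ 1 - η by linarith)
    have h5 : 0 ≤ η * (t * (c + e)) := by positivity
    nlinarith
  have hg1x : ‖g1 x‖ ≤ e := by
    have h2 : ‖((1 - η : ℝ) : ℂ)‖ = 1 - η := by
      rw [Complex.norm_real, Real.norm_eq_abs, abs_of_pos (by linarith)]
    have h3 : ‖((η : ℝ) : ℂ)‖ = η := by
      rw [Complex.norm_real, Real.norm_eq_abs, abs_of_pos hη0]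
    have h4 : ‖ψ x‖ ≤ 1 := by
      calc ‖ψ x‖ ≤ ‖ψ‖ * ‖x‖ := ψ.le_opNorm x
        _ = 1 := by rw [hψ1, hA.nx, one_mul]
    calc ‖g1 x‖ = ‖((1 - η : ℝ) : ℂ) * g' x + ((η : ℝ) : ℂ) * ψ x‖ := rfl
      _ ≤ ‖((1 - η : ℝ) : ℂ) * g' x‖ + ‖((η : ℝ) : ℂ) * ψ x‖ := norm_add_le _ _
      _ = (1 - η) * ‖g' x‖ + η * ‖ψ x‖ := by rw [norm_mul, norm_mul, h2, h3]
      _ ≤ 1 * ‖g' x‖ + η * 1 := by
        have h5 := mul_le_mul_of_nonneg_right (show 1 - η ≤ 1 by linarith) (norm_nonneg (g' x))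
        have h6 := mul_le_mul_of_nonneg_left h4 hη0.le
        linarith
      _ = e := by rw [hη]; ring
  obtain ⟨g2, hg2, hg2z, hg2x⟩ := itemA4_scale hc g1 hg1n z hg1z
  apply hno
  refine ⟨g2, hg2, hg2z, ?_⟩
  rw [hg2x]
  have h0 : 0 < ‖g1 z‖ := lt_of_lt_of_le hc hg1z
  have h2 : c / ‖g1 z‖ ≤ 1 := (div_le_one h0).mpr hg1z
  calc c / ‖g1 z‖ * ‖g1 x‖ ≤ 1 * ‖g1 x‖ := mul_le_mul_of_nonneg_right h2 (norm_nonneg _)
    _ ≤ e := by linarith

end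

/-- A4. K1 and K1'. -/
theorem itemA4 (h1 : SAlB.{u}) : SK1.{u} := by
  intro X _ _ c e hP hS
  have hk1 := @itemA4_k1 X _ _ h1 c e hP hS
  refine ⟨hP, hS, hk1, ?_⟩
  intro w f x y L hA g hg hgx
  have he := hP.e0
  have hc : 0 < c := he.trans hP.ec
  by_contra hlt
  push Not at hlt
  obtain ⟨g', hg', hg'y, hg'x⟩ := itemA4_scale hc g hg y hlt.le
  have h2 : c ≤ ‖g' y‖ := by
    rw [hg'y, Complex.norm_real, Real.norm_eq_abs]
    exact le_abs_self c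
  have h3 := hk1 w f x y L hA g' hg' h2
  rw [hg'x] at h3
  have h0 : 0 < ‖g y‖ := hc.trans hlt
  have h4 : c / ‖g y‖ < 1 := (div_lt_one h0).mpr hlt
  have h5 : 0 ≤ c / ‖g y‖ := by positivity
  rcases eq_or_lt_of_le (norm_nonneg (g x)) with h | h
  · rw [← h, mul_zero] at h3
    linarith
  · have := mul_lt_mul_of_pos_right h4 h
    linarith

end NAO

end

section

/-! A5: existence of the phase. -/

universe u

namespace NAO

open Filter Topology Set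

theorem itemA5 (h1 : SAlB.{u}) : SOm.{u} := by
  intro X _ _ c e hk w f x y L hal
  obtain ⟨-, hfy, -⟩ := h1 X c e hk.par w f x y L hal
  have he0 := hk.par.e0
  have hc0 : 0 < c := he0.trans hk.par.ec
  obtain ⟨g0, hg0⟩ := hk.sym x y hal.nx hal.ny ⟨f, hal.nf, hal.fx, by
    rw [hfy, Complex.norm_real, Real.norm_of_nonneg he0.le]⟩
  have hlow : ∀ g : X →L[ℂ] ℂ, ‖g‖ ≤ 1 → g y = (c : ℂ) → e ≤ ‖g x‖ := by
    intro g hg hgy
    refine hk.k1 w f x y L hal g hg ?_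
    rw [hgy, Complex.norm_real, Real.norm_of_nonneg hc0.le]
  have hn : ∀ g : X →L[ℂ] ℂ, AA c e x y g → ‖g x‖ = e := fun g hg =>
    le_antisymm hg.2.2 (hlow g hg.1 hg.2.1)
  have hg0x := hn g0 hg0
  have he' : (e : ℂ) ≠ 0 := by exact_mod_cast he0.ne'
  set ω : ℂ := (starRingEnd ℂ) (g0 x) / (e : ℂ) with hω
  have hωn : ‖ω‖ = 1 := by
    rw [hω, norm_div, RCLike.norm_conj, hg0x, Complex.norm_real, Real.norm_of_nonneg he0.le,
      div_self he0.ne']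
  have hωg : ω * g0 x = (e : ℂ) := by
    rw [hω, div_mul_eq_mul_div, mul_comm, Complex.mul_conj, Complex.normSq_eq_norm_sq, hg0x,
      div_eq_iff he']
    push_cast
    ring
  refine ⟨ω, hωn, ⟨g0, hg0⟩, fun g hg => ?_, fun g hg hgy => ?_⟩
  · have hgx := hn g hg
    have hmid : e ≤ ‖((1 / 2 : ℂ) • (g0 + g)) x‖ := by
      refine hlow _ ?_ ?_
      · rw [norm_smul]
        have h2 : ‖g0 + g‖ ≤ 2 := (norm_add_le _ _).trans (by linarith [hg0.1, hg.1])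
        have h3 : ‖(1 / 2 : ℂ)‖ = 1 / 2 := by norm_num
        rw [h3]
        linarith
      · rw [ContinuousLinearMap.smul_apply, ContinuousLinearMap.add_apply, hg0.2.1, hg.2.1,
          smul_eq_mul]
        ring
    have h4 : ‖((1 / 2 : ℂ) • (g0 + g)) x‖ = 1 / 2 * ‖g0 x + g x‖ := by
      rw [ContinuousLinearMap.smul_apply, ContinuousLinearMap.add_apply, norm_smul]
      norm_num
    rw [h4] at hmid
    have hpar := parallelogram_law_with_norm ℝ (g0 x) (g x)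
    rw [hg0x, hgx] at hpar
    have h5 : ‖g0 x - g x‖ * ‖g0 x - g x‖ ≤ 0 := by nlinarith
    have h6 : ‖g0 x - g x‖ = 0 := by
      have := norm_nonneg (g0 x - g x)
      nlinarith
    have h7 : g0 x = g x := sub_eq_zero.mp (norm_eq_zero.mp h6)
    rw [← h7]
    exact hωg
  · by_contra hcon
    rw [not_le] at hcon
    set z : ℂ := ω * g x - (e : ℂ) with hz
    have hzre : z.re < 0 := by
      rw [hz, Complex.sub_re, Complex.ofReal_re]
      linarith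
    set s : ℝ := min (1 / 2) (-(e * z.re) / (‖z‖ ^ 2 + 1)) with hs
    have hs0 : 0 < s := by
      refine lt_min (by norm_num) (div_pos (by nlinarith) (by positivity))
    have hs1 : s ≤ 1 / 2 := min_le_left _ _
    have hs2 : s * ‖z‖ ^ 2 ≤ -(e * z.re) := by
      have h2 : s * (‖z‖ ^ 2 + 1) ≤ -(e * z.re) := by
        have h3 : s ≤ -(e * z.re) / (‖z‖ ^ 2 + 1) := min_le_right _ _
        rwa [le_div_iff₀ (by positivity)] at h3
      nlinarith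
    have hgs : e ≤ ‖(((1 - s : ℝ) : ℂ) • g0 + (s : ℂ) • g) x‖ := by
      refine hlow _ ?_ ?_
      · refine (norm_add_le _ _).trans ?_
        rw [norm_smul, norm_smul, Complex.norm_real, Complex.norm_real,
          Real.norm_of_nonneg (by linarith : (0 : ℝ) ≤ 1 - s), Real.norm_of_nonneg hs0.le]
        have ha := hg0.1
        nlinarith [norm_nonneg g0, norm_nonneg g]
      · rw [ContinuousLinearMap.add_apply, ContinuousLinearMap.smul_apply,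
          ContinuousLinearMap.smul_apply, hg0.2.1, hgy, smul_eq_mul, smul_eq_mul]
        push_cast
        ring
    have hes : ω * ((((1 - s : ℝ) : ℂ) • g0 + (s : ℂ) • g) x) = (e : ℂ) + (s : ℂ) * z := by
      rw [ContinuousLinearMap.add_apply, ContinuousLinearMap.smul_apply,
        ContinuousLinearMap.smul_apply, smul_eq_mul, smul_eq_mul, hz]
      have : ω * (((1 - s : ℝ) : ℂ) * g0 x + (s : ℂ) * g x) =
          ((1 - s : ℝ) : ℂ) * (ω * g0 x) + (s : ℂ) * (ω * g x) := by ring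
      rw [this, hωg]
      push_cast
      ring
    have hns : e ≤ ‖(e : ℂ) + (s : ℂ) * z‖ := by
      rw [← hes, norm_mul, hωn, one_mul]
      exact hgs
    have hsq : e ^ 2 ≤ ‖(e : ℂ) + (s : ℂ) * z‖ ^ 2 := pow_le_pow_left₀ he0.le hns 2
    have hexp : ‖(e : ℂ) + (s : ℂ) * z‖ ^ 2 = e ^ 2 + 2 * s * (e * z.re) + s ^ 2 * ‖z‖ ^ 2 := by
      rw [← Complex.normSq_eq_norm_sq, ← Complex.normSq_eq_norm_sq, Complex.normSq_apply,
        Complex.normSq_apply]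
      simp only [Complex.add_re, Complex.add_im, Complex.mul_re, Complex.mul_im, Complex.ofReal_re,
        Complex.ofReal_im]
      ring
    rw [hexp] at hsq
    have h8 : s * (s * ‖z‖ ^ 2) ≤ s * (-(e * z.re)) := mul_le_mul_of_nonneg_left hs2 hs0.le
    have h9 : s * (e * z.re) < 0 := mul_neg_of_pos_of_neg hs0 (mul_neg_of_pos_of_neg he0 hzre)
    nlinarith

end NAO

end

section

/-! A6: real linear functionals on the dual of a finite dimensional space. -/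

universe u

namespace NAO

open Filter Topology Set

theorem itemA6 : SDual.{u} := by
  intro X _ _ _ Φ
  let Φc : Module.Dual ℂ (X →L[ℂ] ℂ) := Module.Dual.extendRCLike (𝕜 := ℂ) Φ.toLinearMap
  let T : (X →ₗ[ℂ] ℂ) ≃ₗ[ℂ] (X →L[ℂ] ℂ) := LinearMap.toContinuousLinearMap
  let z : X := (Module.evalEquiv ℂ X).symm (Φc ∘ₗ T.toLinearMap)
  refine ⟨z, fun ℓ => ?_⟩
  have h1 : (Module.evalEquiv ℂ X) z = Φc ∘ₗ T.toLinearMap :=
    (Module.evalEquiv ℂ X).apply_symm_apply _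
  have h2 : (ℓ : X →ₗ[ℂ] ℂ) z = Φc (T (ℓ : X →ₗ[ℂ] ℂ)) := by
    have h3 := LinearMap.congr_fun h1 (ℓ : X →ₗ[ℂ] ℂ)
    exact h3
  have h4 : T (ℓ : X →ₗ[ℂ] ℂ) = ℓ := by
    ext v
    rfl
  rw [h4] at h2
  have h5 : ℓ z = Φc ℓ := h2
  rw [h5]
  have h6 : RCLike.re (Φc ℓ) = Φ.toLinearMap ℓ :=
    Module.Dual.re_extendRCLike_apply (𝕜 := ℂ) Φ.toLinearMap ℓ
  exact h6.symm

end NAO

end

section

/-!
A7: separation of a compact convex set from a cone, modulo a functional.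
-/

universe u

namespace NAO

open Filter Topology

section sep

variable {X : Type u} [NormedAddCommGroup X] [NormedSpace ℂ X]

/-- the cone over `P` plus the line `S`. -/
def a7C (S : Submodule ℂ (X →L[ℂ] ℂ)) (P : Set (X →L[ℂ] ℂ)) : Set (X →L[ℂ] ℂ) :=
  {l | ∃ R : ℝ, 0 ≤ R ∧ ∃ ψ ∈ P, l - R • ψ ∈ S}

theorem a7_zero_r (f : X →L[ℂ] ℂ) : (0 : ℝ) • f = 0 := zero_smul ℝ f

theorem a7_zero_c (f : X →L[ℂ] ℂ) : (0 : ℂ) • f = 0 := zero_smul ℂ f

theorem a7_app_r (R : ℝ) (f : X →L[ℂ] ℂ) (v : X) : (R • f) v = (R : ℂ) * f v := by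
  rw [← Complex.real_smul]
  rfl

theorem a7_app_c (z : ℂ) (f : X →L[ℂ] ℂ) (v : X) : (z • f) v = z * f v := rfl

theorem a7_smul_mem {S : Submodule ℂ (X →L[ℂ] ℂ)} {v : X →L[ℂ] ℂ} (a : ℝ) (h : v ∈ S) :
    a • v ∈ S := by
  have := S.smul_mem (a : ℂ) h
  rwa [Complex.coe_smul] at this

theorem a7_convex (S : Submodule ℂ (X →L[ℂ] ℂ)) (P : Set (X →L[ℂ] ℂ)) (hP : Convex ℝ P) :
    Convex ℝ (a7C S P) := by
  rintro l₁ ⟨R₁, hR₁, ψ₁, hψ₁, h₁⟩ l₂ ⟨R₂, hR₂, ψ₂, hψ₂, h₂⟩ a b ha hb -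
  have hR : 0 ≤ a * R₁ + b * R₂ := by positivity
  have hS : a • (l₁ - R₁ • ψ₁) + b • (l₂ - R₂ • ψ₂) ∈ S :=
    S.add_mem (a7_smul_mem a h₁) (a7_smul_mem b h₂)
  rcases hR.eq_or_lt with h0 | h0
  · have e1 : a * R₁ = 0 := by nlinarith [mul_nonneg ha hR₁, mul_nonneg hb hR₂]
    have e2 : b * R₂ = 0 := by nlinarith [mul_nonneg ha hR₁, mul_nonneg hb hR₂]
    refine ⟨0, le_rfl, ψ₁, hψ₁, ?_⟩
    have : a • l₁ + b • l₂ - (0 : ℝ) • ψ₁ = a • (l₁ - R₁ • ψ₁) + b • (l₂ - R₂ • ψ₂) := by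
      rw [smul_sub, smul_sub, smul_smul, smul_smul, e1, e2]
      simp only [a7_zero_r, sub_zero]
    rw [this]
    exact hS
  · refine ⟨a * R₁ + b * R₂, hR, ((a * R₁) / (a * R₁ + b * R₂)) • ψ₁ +
      ((b * R₂) / (a * R₁ + b * R₂)) • ψ₂, ?_, ?_⟩
    · refine hP hψ₁ hψ₂ (by positivity) (by positivity) ?_
      field_simp
    · have : a • l₁ + b • l₂ - (a * R₁ + b * R₂) • (((a * R₁) / (a * R₁ + b * R₂)) • ψ₁ +
          ((b * R₂) / (a * R₁ + b * R₂)) • ψ₂) = a • (l₁ - R₁ • ψ₁) + b • (l₂ - R₂ • ψ₂) := by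
        rw [smul_add, smul_smul, smul_smul, mul_div_cancel₀ _ h0.ne', mul_div_cancel₀ _ h0.ne',
          smul_sub, smul_sub, smul_smul, smul_smul]
        abel
      rw [this]
      exact hS

theorem a7_closed (S : Submodule ℂ (X →L[ℂ] ℂ)) (hS : IsClosed (S : Set (X →L[ℂ] ℂ)))
    (P : Set (X →L[ℂ] ℂ)) (hPc : IsCompact P) (hPn : P.Nonempty) (hPS : ∀ ψ ∈ P, ψ ∉ S) :
    IsClosed (a7C S P) := by
  have hSn : (S : Set (X →L[ℂ] ℂ)).Nonempty := ⟨0, S.zero_mem⟩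
  obtain ⟨ψ₀, hψ₀, hmin⟩ := hPc.exists_isMinOn hPn
    (Metric.continuous_infDist_pt (S : Set (X →L[ℂ] ℂ))).continuousOn
  set m := Metric.infDist ψ₀ (S : Set (X →L[ℂ] ℂ)) with hm
  have hm0 : 0 < m := (hS.notMem_iff_infDist_pos hSn).1 (hPS ψ₀ hψ₀)
  have hbound : ∀ (l : X →L[ℂ] ℂ) (R : ℝ) (ψ : X →L[ℂ] ℂ), 0 ≤ R → ψ ∈ P → l - R • ψ ∈ S →
      R * m ≤ ‖l‖ := by
    intro l R ψ hR hψ h
    rcases hR.eq_or_lt with h0 | h0
    · rw [← h0, zero_mul]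
      exact norm_nonneg _
    · have h1 : m ≤ Metric.infDist ψ (S : Set (X →L[ℂ] ℂ)) := hmin hψ
      have h2 : -(R⁻¹ • (l - R • ψ)) ∈ S := S.neg_mem (a7_smul_mem _ h)
      have h3 := Metric.infDist_le_dist_of_mem (x := ψ) (SetLike.mem_coe.2 h2)
      have h4 : dist ψ (-(R⁻¹ • (l - R • ψ))) = R⁻¹ * ‖l‖ := by
        rw [dist_eq_norm, sub_neg_eq_add, smul_sub, smul_smul, inv_mul_cancel₀ h0.ne', one_smul,
          add_sub_cancel, norm_smul, Real.norm_eq_abs, abs_of_pos (inv_pos.2 h0)]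
      rw [h4] at h3
      have h5 : m ≤ R⁻¹ * ‖l‖ := h1.trans h3
      calc R * m ≤ R * (R⁻¹ * ‖l‖) := mul_le_mul_of_nonneg_left h5 hR
        _ = ‖l‖ := by rw [← mul_assoc, mul_inv_cancel₀ h0.ne', one_mul]
  refine isClosed_of_closure_subset fun l hl => ?_
  obtain ⟨u, hu, hul⟩ := mem_closure_iff_seq_limit.1 hl
  choose R hR ψ hψ hRS using hu
  obtain ⟨B, hB⟩ := hul.norm.bddAbove_range
  have hRB : ∀ n, R n ∈ Set.Icc 0 (B / m) := by
    intro n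
    refine ⟨hR n, ?_⟩
    rw [le_div_iff₀ hm0]
    exact (hbound _ _ _ (hR n) (hψ n) (hRS n)).trans (hB ⟨n, rfl⟩)
  have hK : IsCompact (Set.Icc 0 (B / m) ×ˢ P) := isCompact_Icc.prod hPc
  obtain ⟨⟨R₀, ψ'⟩, hmem, φ, hφ, hlim⟩ := hK.tendsto_subseq
    (x := fun n => (R n, ψ n)) (fun n => ⟨hRB n, hψ n⟩)
  have hR' : Tendsto (fun n => R (φ n)) atTop (𝓝 R₀) :=
    (continuous_fst.tendsto (R₀, ψ')).comp hlim
  have hψ' : Tendsto (fun n => ψ (φ n)) atTop (𝓝 ψ') :=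
    (continuous_snd.tendsto (R₀, ψ')).comp hlim
  have hu' : Tendsto (fun n => u (φ n)) atTop (𝓝 l) := hul.comp hφ.tendsto_atTop
  refine ⟨R₀, hmem.1.1, ψ', hmem.2, ?_⟩
  exact hS.mem_of_tendsto (hu'.sub (hR'.smul hψ')) (Eventually.of_forall fun n => hRS (φ n))

end sep

theorem itemA7 (h1 : SDual.{u}) : SSep.{u} := by
  intro X _ _ _ f K P hKc hKv hKn hPc hPv hPn hPf hKP
  set S : Submodule ℂ (X →L[ℂ] ℂ) := Submodule.span ℂ {f} with hSdef
  have hfS : ∀ z : ℂ, z • f ∈ S := fun z => S.smul_mem z (Submodule.mem_span_singleton_self f)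
  have hScl : IsClosed (S : Set (X →L[ℂ] ℂ)) := S.closed_of_finiteDimensional
  have hPS : ∀ ψ ∈ P, ψ ∉ S := by
    intro ψ hψ hmem
    obtain ⟨z, hz⟩ := Submodule.mem_span_singleton.1 hmem
    exact hPf ψ hψ z hz.symm
  have hC := a7_closed S hScl P hPc hPn hPS
  have hdis : Disjoint K (a7C S P) := by
    rw [Set.disjoint_left]
    rintro g hg ⟨R, hR, ψ, hψ, hmem⟩
    obtain ⟨v, hv, hne⟩ := hKP g hg ψ hψ R hR
    obtain ⟨z, hz⟩ := Submodule.mem_span_singleton.1 hmem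
    apply hne
    have h2 : (z • f) v = (g - R • ψ) v := by rw [hz]
    rw [a7_app_c, hv, mul_zero, ContinuousLinearMap.sub_apply, a7_app_r] at h2
    exact (sub_eq_zero.1 h2.symm)
  obtain ⟨Φ, u, v, hΦK, huv, hΦC⟩ :=
    geometric_hahn_banach_compact_closed hKv hKc (a7_convex S P hPv) hC hdis
  obtain ⟨z₀, hz₀⟩ := h1 X Φ
  obtain ⟨ψ₁, hψ₁⟩ := hPn
  have hmem : ∀ (R : ℝ) (ψ : X →L[ℂ] ℂ) (z : ℂ), 0 ≤ R → ψ ∈ P → R • ψ + z • f ∈ a7C S P := by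
    intro R ψ z hR hψ
    refine ⟨R, hR, ψ, hψ, ?_⟩
    rw [add_sub_cancel_left]
    exact hfS z
  have hv0 : v < 0 := by
    have := hΦC _ (hmem 0 ψ₁ 0 le_rfl hψ₁)
    rwa [a7_zero_r, a7_zero_c, add_zero, map_zero] at this
  have hf0 : f z₀ = 0 := by
    by_contra hne
    have hpos : 0 < ‖f z₀‖ ^ 2 := by positivity
    have h3 := hΦC _ (hmem 0 ψ₁ (((v / ‖f z₀‖ ^ 2 : ℝ) : ℂ) * (starRingEnd ℂ) (f z₀)) le_rfl hψ₁)
    rw [hz₀, a7_zero_r, zero_add, a7_app_c] at h3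
    rw [mul_assoc, ← Complex.normSq_eq_conj_mul_self, ← Complex.ofReal_mul, Complex.ofReal_re,
      Complex.normSq_eq_norm_sq, div_mul_cancel₀ _ hpos.ne'] at h3
    exact lt_irrefl _ h3
  refine ⟨z₀, hf0, fun g hg => ?_, fun ψ hψ => ?_⟩
  · have := hΦK g hg
    rw [hz₀] at this
    linarith
  · by_contra hneg
    push Not at hneg
    have h3 := hΦC _ (hmem (v / (ψ z₀).re) ψ 0 (by
      apply le_of_lt
      exact div_pos_of_neg_of_neg hv0 hneg) hψ)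
    rw [hz₀, a7_zero_c, add_zero, a7_app_r, Complex.re_ofReal_mul] at h3
    rw [div_mul_cancel₀ _ hneg.ne] at h3
    exact lt_irrefl _ h3

end NAO

end

section

/-!
# MP_9dede5_an, item A8: (S)
-/

universe u

namespace NAO

open Filter Topology

namespace A8

variable {X : Type u} [NormedAddCommGroup X] [NormedSpace ℂ X]

theorem tendsto_eval {g : ℕ → (X →L[ℂ] ℂ)} {g0 : X →L[ℂ] ℂ} (h : Tendsto g atTop (𝓝 g0))
    (v : X) : Tendsto (fun n => g n v) atTop (𝓝 (g0 v)) :=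
  ((ContinuousLinearMap.apply ℂ ℂ v).continuous.tendsto g0).comp h

theorem subseq [FiniteDimensional ℂ X] (g : ℕ → (X →L[ℂ] ℂ)) (h : ∀ n, ‖g n‖ ≤ 1) :
    ∃ g0 : X →L[ℂ] ℂ, ‖g0‖ ≤ 1 ∧ ∃ φ : ℕ → ℕ, StrictMono φ ∧
      Tendsto (g ∘ φ) atTop (𝓝 g0) := by
  haveI : ProperSpace (X →L[ℂ] ℂ) := FiniteDimensional.proper ℂ _
  obtain ⟨a, ha, φ, hφ, hl⟩ := (isCompact_closedBall (0 : X →L[ℂ] ℂ) 1).tendsto_subseq
    (x := g) (fun n => by simpa using h n)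
  exact ⟨a, by simpa using ha, φ, hφ, hl⟩

theorem compactAA [FiniteDimensional ℂ X] (c e : ℝ) (x y : X) :
    IsCompact {g : X →L[ℂ] ℂ | AA c e x y g} := by
  haveI : ProperSpace (X →L[ℂ] ℂ) := FiniteDimensional.proper ℂ _
  refine Metric.isCompact_of_isClosed_isBounded ?_ ?_
  · have h1 : IsClosed {g : X →L[ℂ] ℂ | ‖g‖ ≤ 1} := isClosed_le continuous_norm continuous_const
    have h2 : IsClosed {g : X →L[ℂ] ℂ | g y = (c : ℂ)} :=
      isClosed_eq (ContinuousLinearMap.apply ℂ ℂ y).continuous continuous_const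
    have h3 : IsClosed {g : X →L[ℂ] ℂ | ‖g x‖ ≤ e} :=
      isClosed_le (ContinuousLinearMap.apply ℂ ℂ x).continuous.norm continuous_const
    exact h1.inter (h2.inter h3)
  · refine (Metric.isBounded_closedBall (x := (0 : X →L[ℂ] ℂ)) (r := 1)).subset ?_
    intro g hg
    simpa using hg.1

theorem convexAA (c e : ℝ) (x y : X) : Convex ℝ {g : X →L[ℂ] ℂ | AA c e x y g} := by
  intro g hg h hh a b ha hb hab
  refine ⟨?_, ?_, ?_⟩
  · calc ‖a • g + b • h‖ ≤ ‖a • g‖ + ‖b • h‖ := norm_add_le _ _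
      _ = a * ‖g‖ + b * ‖h‖ := by
        rw [norm_smul, norm_smul, Real.norm_of_nonneg ha, Real.norm_of_nonneg hb]
      _ ≤ a * 1 + b * 1 := by
        gcongr
        · exact hg.1
        · exact hh.1
      _ = 1 := by linarith
  · change a • g y + b • h y = _
    rw [hg.2.1, hh.2.1, ← add_smul, hab, one_smul]
  · change ‖a • g x + b • h x‖ ≤ e
    calc ‖a • g x + b • h x‖ ≤ ‖a • g x‖ + ‖b • h x‖ := norm_add_le _ _
      _ = a * ‖g x‖ + b * ‖h x‖ := by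
        rw [norm_smul, norm_smul, Real.norm_of_nonneg ha, Real.norm_of_nonneg hb]
      _ ≤ a * e + b * e := by
        gcongr
        · exact hg.2.2
        · exact hh.2.2
      _ = e := by rw [← add_mul, hab, one_mul]

theorem nonemptyAA {c e : ℝ} (hk : HK X c e) (h1 : SAlB.{u}) {w : X} {f : X →L[ℂ] ℂ} {x y : X}
    {L : ℝ} (ha : Al c e w f x y L) : ∃ g : X →L[ℂ] ℂ, AA c e x y g := by
  obtain ⟨_, hfy, _⟩ := h1 X c e hk.par w f x y L ha
  refine hk.sym x y ha.nx ha.ny ⟨f, ha.nf, ha.fx, ?_⟩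
  rw [hfy, Complex.norm_of_nonneg hk.par.e0.le]

theorem norm_apply_le_one {g : X →L[ℂ] ℂ} {v : X} (hg : ‖g‖ ≤ 1) (hv : ‖v‖ ≤ 1) : ‖g v‖ ≤ 1 :=
  (g.le_opNorm v).trans (mul_le_one₀ hg (norm_nonneg _) hv)

end A8

open A8 in
theorem itemA8 (h1 : SAlB.{u}) (h2 : SSep.{u}) : SS.{u} := by
  intro X _ _ _ c e hk w f x y L ha ψ hψ
  obtain ⟨_, hfy, _⟩ := h1 X c e hk.par w f x y L ha
  have he0 : 0 < e := hk.par.e0
  have hec : e < c := hk.par.ec
  have hc1 : c < 1 := hk.par.c1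
  have heC : (e : ℂ) ≠ 0 := by exact_mod_cast he0.ne'
  have he1 : e < 1 := hec.trans hc1
  by_cases hm : ∃ g : X →L[ℂ] ℂ, AA c e x y g ∧ ∃ R : ℝ, 0 ≤ R ∧
      ∀ v : X, f v = 0 → g v = (R : ℂ) * ψ v
  · obtain ⟨g, hg, R, hR, hv⟩ := hm
    refine ⟨g, R, hg, ?_, hv⟩
    rcases hR.lt_or_eq with h | h
    · exact h
    · exfalso
      have h3 := hv (y - (e : ℂ) • w) (by
        rw [map_sub, map_smul, hfy, ha.fw, smul_eq_mul, mul_one, sub_self])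
      rw [← h, Complex.ofReal_zero, zero_mul, map_sub, map_smul, hg.2.1, smul_eq_mul] at h3
      have h4 : (c : ℂ) = (e : ℂ) * g w := sub_eq_zero.1 h3
      have h5 : c = e * ‖g w‖ := by
        have := congrArg norm h4
        rwa [norm_mul, Complex.norm_of_nonneg (he0.trans hec).le,
          Complex.norm_of_nonneg he0.le] at this
      have h6 := norm_apply_le_one hg.1 ha.nw.le
      nlinarith
  · exfalso
    push Not at hm
    obtain ⟨z, hfz, hz1, hz2⟩ := h2 X f {g | AA c e x y g} {ψ} (compactAA c e x y)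
      (convexAA c e x y) (nonemptyAA hk h1 ha) isCompact_singleton (convex_singleton ψ)
      (Set.singleton_nonempty ψ)
      (by
        intro ψ' hψ' z hz
        rw [Set.mem_singleton_iff] at hψ'
        subst hψ'
        have e1 : ψ' y = z * (e : ℂ) := by rw [hz]; simp [hfy]
        have e2 : ψ' w = z := by rw [hz]; simp [ha.fw]
        rw [hψ.2] at e1
        have e3 := norm_apply_le_one hψ.1 ha.nw.le
        rw [e2] at e3
        have e4 := congrArg norm e1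
        rw [norm_mul, norm_one, Complex.norm_of_nonneg he0.le] at e4
        nlinarith)
      (by
        intro g hg ψ' hψ' R hR
        rw [Set.mem_singleton_iff] at hψ'
        subst hψ'
        obtain ⟨v, hv1, hv2⟩ := hm g hg R hR
        exact ⟨v, hv1, hv2⟩)
    have hψz : 0 ≤ (ψ z).re := hz2 ψ rfl
    -- the perturbed functionals
    have hstep : ∀ t : ℝ, 0 < t → ∃ g : X →L[ℂ] ℂ, ‖g‖ ≤ 1 ∧
        g (y + (t : ℂ) • z) = ((c * ‖y + (t : ℂ) • z‖ : ℝ) : ℂ) ∧ ‖g x‖ ≤ e ∧ 0 ≤ (g z).re := by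
      intro t ht
      set N : ℝ := ‖y + (t : ℂ) • z‖ with hN
      have hN1 : 1 ≤ N := by
        have h3 : (ψ (y + (t : ℂ) • z)).re = 1 + t * (ψ z).re := by
          rw [map_add, map_smul, hψ.2, smul_eq_mul, Complex.add_re, Complex.one_re,
            Complex.re_ofReal_mul]
        have h4 : (ψ (y + (t : ℂ) • z)).re ≤ N :=
          (Complex.re_le_norm _).trans ((ψ.le_opNorm _).trans (by
            calc ‖ψ‖ * ‖y + (t : ℂ) • z‖ ≤ 1 * ‖y + (t : ℂ) • z‖ := by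
                  gcongr; exact hψ.1
              _ = N := by rw [one_mul]))
        nlinarith [mul_nonneg ht.le hψz]
      have hN0 : 0 < N := by linarith
      have hNC : (N : ℂ) ≠ 0 := by exact_mod_cast hN0.ne'
      set yt : X := ((N⁻¹ : ℝ) : ℂ) • (y + (t : ℂ) • z) with hyt
      have hytn : ‖yt‖ = 1 := by
        rw [hyt, norm_smul, Complex.norm_of_nonneg (by positivity), ← hN,
          inv_mul_cancel₀ hN0.ne']
      have hfyt : f yt = ((N⁻¹ * e : ℝ) : ℂ) := by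
        rw [hyt, map_smul, map_add, map_smul, hfz, hfy, smul_zero, add_zero, smul_eq_mul]
        push_cast; ring
      obtain ⟨g, hg1, hg2, hg3⟩ := hk.sym x yt ha.nx hytn ⟨f, ha.nf, ha.fx, by
        rw [hfyt, Complex.norm_of_nonneg (by positivity)]
        have : N⁻¹ ≤ 1 := inv_le_one_of_one_le₀ hN1
        nlinarith⟩
      have hg4 : g (y + (t : ℂ) • z) = ((c * N : ℝ) : ℂ) := by
        rw [hyt, map_smul, smul_eq_mul] at hg2
        have : (N : ℂ) * (((N⁻¹ : ℝ) : ℂ) * g (y + (t : ℂ) • z)) = (N : ℂ) * (c : ℂ) := by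
          rw [hg2]
        rw [← mul_assoc] at this
        push_cast at this ⊢
        rw [mul_inv_cancel₀ hNC, one_mul] at this
        rw [this]; ring
      refine ⟨g, hg1, hg4, hg3, ?_⟩
      have h5 : ‖g y‖ ≤ c := hk.k1' w f x y L ha g hg1 hg3
      have h6 : (g y).re ≤ c := (Complex.re_le_norm _).trans h5
      have h7 : (g (y + (t : ℂ) • z)).re = (g y).re + t * (g z).re := by
        rw [map_add, map_smul, smul_eq_mul, Complex.add_re, Complex.re_ofReal_mul]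
      rw [hg4, Complex.ofReal_re] at h7
      by_contra hneg
      push Not at hneg
      have h8 : t * (g z).re < 0 := mul_neg_of_pos_of_neg ht hneg
      have h9 : c ≤ c * N := by nlinarith
      linarith
    let t : ℕ → ℝ := fun n => 1 / ((n : ℝ) + 1)
    have ht0 : ∀ n, 0 < t n := fun n => Nat.one_div_pos_of_nat
    have htl : Tendsto t atTop (𝓝 0) := tendsto_one_div_add_atTop_nhds_zero_nat
    choose g hg1 hg2 hg3 hg4 using fun n => hstep (t n) (ht0 n)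
    obtain ⟨g0, hg0, φ, hφ, hlim⟩ := subseq g hg1
    have htφ : Tendsto (fun n => t (φ n)) atTop (𝓝 0) := htl.comp hφ.tendsto_atTop
    have hev : ∀ v, Tendsto (fun n => g (φ n) v) atTop (𝓝 (g0 v)) := fun v =>
      tendsto_eval hlim v
    have hx : ‖g0 x‖ ≤ e := le_of_tendsto (hev x).norm (Eventually.of_forall fun n => hg3 _)
    have hz : 0 ≤ (g0 z).re := ge_of_tendsto ((Complex.continuous_re.tendsto _).comp (hev z))
      (Eventually.of_forall fun n => hg4 _)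
    have hy : g0 y = (c : ℂ) := by
      have hl1 : Tendsto (fun n => g (φ n) y + ((t (φ n) : ℝ) : ℂ) * g (φ n) z) atTop
          (𝓝 (g0 y + ((0 : ℝ) : ℂ) * g0 z)) :=
        (hev y).add (((Complex.continuous_ofReal.tendsto _).comp htφ).mul (hev z))
      have hl2 : Tendsto (fun n => ((c * ‖y + ((t (φ n) : ℝ) : ℂ) • z‖ : ℝ) : ℂ)) atTop
          (𝓝 (((c * ‖y + ((0 : ℝ) : ℂ) • z‖ : ℝ) : ℂ))) := by
        refine (Complex.continuous_ofReal.tendsto _).comp ?_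
        refine Tendsto.const_mul c ?_
        refine Tendsto.norm ?_
        exact tendsto_const_nhds.add
          (((Complex.continuous_ofReal.tendsto _).comp htφ).smul_const z)
      have heq : (fun n => g (φ n) y + ((t (φ n) : ℝ) : ℂ) * g (φ n) z) =
          fun n => ((c * ‖y + ((t (φ n) : ℝ) : ℂ) • z‖ : ℝ) : ℂ) := by
        funext n
        rw [← hg2 (φ n), map_add, map_smul, smul_eq_mul]
      rw [heq] at hl1
      have := tendsto_nhds_unique hl1 hl2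
      simpa [ha.ny] using this
    exact absurd (hz1 g0 ⟨hg0, hy, hx⟩) (not_lt.2 hz)

end NAO

end

section

/-!
# MP_9dede5_an, item A9: (XX)
-/

universe u

namespace NAO

open Filter Topology

namespace A9

variable {X : Type u} [NormedAddCommGroup X] [NormedSpace ℂ X]

theorem tendsto_eval {g : ℕ → (X →L[ℂ] ℂ)} {g0 : X →L[ℂ] ℂ} (h : Tendsto g atTop (𝓝 g0))
    (v : X) : Tendsto (fun n => g n v) atTop (𝓝 (g0 v)) :=
  ((ContinuousLinearMap.apply ℂ ℂ v).continuous.tendsto g0).comp h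

theorem subseq [FiniteDimensional ℂ X] (g : ℕ → (X →L[ℂ] ℂ)) (h : ∀ n, ‖g n‖ ≤ 1) :
    ∃ g0 : X →L[ℂ] ℂ, ‖g0‖ ≤ 1 ∧ ∃ φ : ℕ → ℕ, StrictMono φ ∧
      Tendsto (g ∘ φ) atTop (𝓝 g0) := by
  have : ProperSpace (X →L[ℂ] ℂ) := FiniteDimensional.proper ℂ _
  obtain ⟨a, ha, φ, hφ, hl⟩ := (isCompact_closedBall (0 : X →L[ℂ] ℂ) 1).tendsto_subseq
    (x := g) (fun n => by simpa using h n)
  exact ⟨a, by simpa using ha, φ, hφ, hl⟩

theorem compactAA [FiniteDimensional ℂ X] (c e : ℝ) (x y : X) :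
    IsCompact {g : X →L[ℂ] ℂ | AA c e x y g} := by
  have : ProperSpace (X →L[ℂ] ℂ) := FiniteDimensional.proper ℂ _
  refine Metric.isCompact_of_isClosed_isBounded ?_ ?_
  · have h1 : IsClosed {g : X →L[ℂ] ℂ | ‖g‖ ≤ 1} := isClosed_le continuous_norm continuous_const
    have h2 : IsClosed {g : X →L[ℂ] ℂ | g y = (c : ℂ)} :=
      isClosed_eq (ContinuousLinearMap.apply ℂ ℂ y).continuous continuous_const
    have h3 : IsClosed {g : X →L[ℂ] ℂ | ‖g x‖ ≤ e} :=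
      isClosed_le (ContinuousLinearMap.apply ℂ ℂ x).continuous.norm continuous_const
    exact h1.inter (h2.inter h3)
  · refine (Metric.isBounded_closedBall (x := (0 : X →L[ℂ] ℂ)) (r := 1)).subset ?_
    intro g hg
    simpa using hg.1

theorem convexAA (c e : ℝ) (x y : X) : Convex ℝ {g : X →L[ℂ] ℂ | AA c e x y g} := by
  intro g hg h hh a b ha hb hab
  refine ⟨?_, ?_, ?_⟩
  · calc ‖a • g + b • h‖ ≤ ‖a • g‖ + ‖b • h‖ := norm_add_le _ _
      _ = a * ‖g‖ + b * ‖h‖ := by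
        rw [norm_smul, norm_smul, Real.norm_of_nonneg ha, Real.norm_of_nonneg hb]
      _ ≤ a * 1 + b * 1 := by
        gcongr
        · exact hg.1
        · exact hh.1
      _ = 1 := by linarith
  · change a • g y + b • h y = _
    rw [hg.2.1, hh.2.1, ← add_smul, hab, one_smul]
  · change ‖a • g x + b • h x‖ ≤ e
    calc ‖a • g x + b • h x‖ ≤ ‖a • g x‖ + ‖b • h x‖ := norm_add_le _ _
      _ = a * ‖g x‖ + b * ‖h x‖ := by
        rw [norm_smul, norm_smul, Real.norm_of_nonneg ha, Real.norm_of_nonneg hb]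
      _ ≤ a * e + b * e := by
        gcongr
        · exact hg.2.2
        · exact hh.2.2
      _ = e := by rw [← add_mul, hab, one_mul]

theorem compactNm [FiniteDimensional ℂ X] (x : X) :
    IsCompact {g : X →L[ℂ] ℂ | Nm g x} := by
  have : ProperSpace (X →L[ℂ] ℂ) := FiniteDimensional.proper ℂ _
  refine Metric.isCompact_of_isClosed_isBounded ?_ ?_
  · have h1 : IsClosed {g : X →L[ℂ] ℂ | ‖g‖ ≤ 1} := isClosed_le continuous_norm continuous_const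
    have h2 : IsClosed {g : X →L[ℂ] ℂ | g x = 1} :=
      isClosed_eq (ContinuousLinearMap.apply ℂ ℂ x).continuous continuous_const
    exact h1.inter h2
  · refine (Metric.isBounded_closedBall (x := (0 : X →L[ℂ] ℂ)) (r := 1)).subset ?_
    intro g hg
    simpa using hg.1

theorem convexNm (x : X) : Convex ℝ {g : X →L[ℂ] ℂ | Nm g x} := by
  intro g hg h hh a b ha hb hab
  refine ⟨?_, ?_⟩
  · calc ‖a • g + b • h‖ ≤ ‖a • g‖ + ‖b • h‖ := norm_add_le _ _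
      _ = a * ‖g‖ + b * ‖h‖ := by
        rw [norm_smul, norm_smul, Real.norm_of_nonneg ha, Real.norm_of_nonneg hb]
      _ ≤ a * 1 + b * 1 := by
        gcongr
        · exact hg.1
        · exact hh.1
      _ = 1 := by linarith
  · change a • g x + b • h x = _
    rw [hg.2, hh.2, ← add_smul, hab, one_smul]

theorem nonemptyNm (x : X) (hx : ‖x‖ = 1) : {g : X →L[ℂ] ℂ | Nm g x}.Nonempty := by
  obtain ⟨g, hg1, hg2⟩ := exists_dual_vector ℂ x (by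
    intro h; rw [h] at hx; exact zero_ne_one hx)
  refine ⟨g, hg1.le, ?_⟩
  rw [hg2, hx]; simp

theorem norm_apply_le_one {g : X →L[ℂ] ℂ} {v : X} (hg : ‖g‖ ≤ 1) (hv : ‖v‖ ≤ 1) : ‖g v‖ ≤ 1 :=
  (g.le_opNorm v).trans (mul_le_one₀ hg (norm_nonneg _) hv)

theorem norm_apply_le {g : X →L[ℂ] ℂ} {v : X} (hg : ‖g‖ ≤ 1) : ‖g v‖ ≤ ‖v‖ :=
  (g.le_opNorm v).trans (by
    calc ‖g‖ * ‖v‖ ≤ 1 * ‖v‖ := by gcongr
      _ = ‖v‖ := one_mul _)

/-- the claim: the norm decreases in a direction in which all norming functionals are negative -/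
theorem decr [FiniteDimensional ℂ X] (x z : X) (hx : ‖x‖ = 1)
    (h : ∀ ψ : X →L[ℂ] ℂ, Nm ψ x → (ψ z).re < 0) :
    ∀ᶠ n : ℕ in atTop, ‖x + ((1 / ((n : ℝ) + 1) : ℝ) : ℂ) • z‖ < 1 := by
  by_contra hcon
  rw [not_eventually] at hcon
  -- frequently ≥ 1
  obtain ⟨τ, hτm, hτ⟩ := extraction_of_frequently_atTop hcon
  let t : ℕ → ℝ := fun n => 1 / ((τ n : ℝ) + 1)
  have ht0 : ∀ n, 0 < t n := fun n => Nat.one_div_pos_of_nat
  have htl : Tendsto t atTop (𝓝 0) :=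
    (tendsto_one_div_add_atTop_nhds_zero_nat (𝕜 := ℝ)).comp hτm.tendsto_atTop
  have hge : ∀ n, 1 ≤ ‖x + ((t n : ℝ) : ℂ) • z‖ := fun n => not_lt.1 (hτ n)
  have hex : ∀ n, ∃ ψ : X →L[ℂ] ℂ, ‖ψ‖ ≤ 1 ∧
      ψ (x + ((t n : ℝ) : ℂ) • z) = ((‖x + ((t n : ℝ) : ℂ) • z‖ : ℝ) : ℂ) := by
    intro n
    obtain ⟨g, hg1, hg2⟩ := exists_dual_vector ℂ (x + ((t n : ℝ) : ℂ) • z) (by
      intro h0
      have := hge n
      rw [h0] at this
      linarith)
    exact ⟨g, hg1.le, hg2⟩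
  choose ψ hψ1 hψ2 using hex
  have hψ3 : ∀ n, 0 ≤ (ψ n z).re := by
    intro n
    have h1 : (ψ n (x + ((t n : ℝ) : ℂ) • z)).re = (ψ n x).re + t n * (ψ n z).re := by
      rw [map_add, map_smul, smul_eq_mul, Complex.add_re, Complex.re_ofReal_mul]
    rw [hψ2 n, Complex.ofReal_re] at h1
    have h2 : (ψ n x).re ≤ 1 :=
      (Complex.re_le_norm _).trans (norm_apply_le_one (hψ1 n) hx.le)
    have h3 := hge n
    by_contra hneg
    push Not at hneg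
    have := mul_neg_of_pos_of_neg (ht0 n) hneg
    linarith
  obtain ⟨ψ0, hψ0, φ, hφ, hlim⟩ := subseq ψ hψ1
  have htφ : Tendsto (fun n => t (φ n)) atTop (𝓝 0) := htl.comp hφ.tendsto_atTop
  have hev : ∀ v, Tendsto (fun n => ψ (φ n) v) atTop (𝓝 (ψ0 v)) := fun v =>
    tendsto_eval hlim v
  have hz : 0 ≤ (ψ0 z).re := ge_of_tendsto ((Complex.continuous_re.tendsto _).comp (hev z))
    (Eventually.of_forall fun n => hψ3 _)
  have hxx : ψ0 x = 1 := by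
    have hl1 : Tendsto (fun n => ψ (φ n) x + ((t (φ n) : ℝ) : ℂ) * ψ (φ n) z) atTop
        (𝓝 (ψ0 x + ((0 : ℝ) : ℂ) * ψ0 z)) :=
      (hev x).add (((Complex.continuous_ofReal.tendsto _).comp htφ).mul (hev z))
    have hl2 : Tendsto (fun n => ((‖x + ((t (φ n) : ℝ) : ℂ) • z‖ : ℝ) : ℂ)) atTop
        (𝓝 (((‖x + ((0 : ℝ) : ℂ) • z‖ : ℝ) : ℂ))) := by
      refine (Complex.continuous_ofReal.tendsto _).comp ?_
      refine Tendsto.norm ?_
      exact tendsto_const_nhds.add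
        (((Complex.continuous_ofReal.tendsto _).comp htφ).smul_const z)
    have heq : (fun n => ψ (φ n) x + ((t (φ n) : ℝ) : ℂ) * ψ (φ n) z) =
        fun n => ((‖x + ((t (φ n) : ℝ) : ℂ) • z‖ : ℝ) : ℂ) := by
      funext n
      rw [← hψ2 (φ n), map_add, map_smul, smul_eq_mul]
    rw [heq] at hl1
    have := tendsto_nhds_unique hl1 hl2
    simpa [hx] using this
  exact absurd (h ψ0 ⟨hψ0, hxx⟩) (not_lt.2 hz)

end A9

open A9 in
theorem itemA9 (_h1 : SAlB.{u}) (h2 : SSep.{u}) : SXX.{u} := by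
  intro X _ _ _ c e hk w f x y L ha ω hω
  obtain ⟨_, hfy, _⟩ := _h1 X c e hk.par w f x y L ha
  have he0 : 0 < e := hk.par.e0
  have hec : e < c := hk.par.ec
  have hc1 : c < 1 := hk.par.c1
  have hc0 : 0 < c := he0.trans hec
  have hcC : (c : ℂ) ≠ 0 := by exact_mod_cast hc0.ne'
  have he1 : e < 1 := hec.trans hc1
  have hωn := hω.nrm
  by_cases hm : ∃ g ψ : X →L[ℂ] ℂ, AA c e x y g ∧ Nm ψ x ∧ ∃ R : ℝ, 0 ≤ R ∧
      ∀ v : X, f v = 0 → ω * g v = (R : ℂ) * ψ v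
  · obtain ⟨g, ψ, hg, hψ, R, hR, hv⟩ := hm
    refine ⟨g, ψ, R, hg, hψ, ?_, hv⟩
    rcases hR.lt_or_eq with h | h
    · exact h
    · exfalso
      have h3 := hv (y - (e : ℂ) • w) (by
        rw [map_sub, map_smul, hfy, ha.fw, smul_eq_mul, mul_one, sub_self])
      rw [← h, Complex.ofReal_zero, zero_mul, map_sub, map_smul, hg.2.1, smul_eq_mul] at h3
      have h4 : ‖(c : ℂ) - (e : ℂ) * g w‖ = 0 := by
        have := congrArg norm h3
        rwa [norm_mul, hωn, one_mul, norm_zero] at this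
      have h4' : (c : ℂ) = (e : ℂ) * g w := sub_eq_zero.1 (norm_eq_zero.1 h4)
      have h5 : c = e * ‖g w‖ := by
        have := congrArg norm h4'
        rwa [norm_mul, Complex.norm_of_nonneg (he0.trans hec).le,
          Complex.norm_of_nonneg he0.le] at this
      have h6 := norm_apply_le_one hg.1 ha.nw.le
      nlinarith
  · exfalso
    push Not at hm
    have hKc : IsCompact ((fun g : X →L[ℂ] ℂ => ω • g) '' {g : X →L[ℂ] ℂ | AA c e x y g}) :=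
      (compactAA c e x y).image (continuous_const_smul ω)
    have hKx : Convex ℝ ((fun g : X →L[ℂ] ℂ => ω • g) '' {g : X →L[ℂ] ℂ | AA c e x y g}) := by
      rintro _ ⟨g, hg, rfl⟩ _ ⟨h, hh, rfl⟩ a b ha' hb hab
      refine ⟨a • g + b • h, convexAA c e x y hg hh ha' hb hab, ?_⟩
      change ω • (a • g + b • h) = a • (ω • g) + b • (ω • h)
      rw [smul_add, smul_comm ω a g, smul_comm ω b h]
    obtain ⟨z0, hfz0, hz1, hz2⟩ := h2 X f _ {ψ | Nm ψ x} hKc hKx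
      (by obtain ⟨g, hg⟩ := hω.ex; exact ⟨_, g, hg, rfl⟩) (compactNm x) (convexNm x)
      (nonemptyNm x ha.nx)
      (by
        intro ψ' hψ' z hz
        have e1 : ψ' x = z * (c : ℂ) := by rw [hz]; simp [ha.fx]
        have e2 : ψ' w = z := by rw [hz]; simp [ha.fw]
        rw [hψ'.2] at e1
        have e3 := norm_apply_le_one hψ'.1 ha.nw.le
        rw [e2] at e3
        have e4 := congrArg norm e1
        rw [norm_mul, norm_one, Complex.norm_of_nonneg hc0.le] at e4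
        nlinarith)
      (by
        rintro _ ⟨g, hg, rfl⟩ ψ' hψ' R hR
        obtain ⟨v, hv1, hv2⟩ := hm g ψ' hg hψ' R hR
        exact ⟨v, hv1, hv2⟩)
    -- the direction z
    set z : X := -z0 with hz
    have hfz : f z = 0 := by rw [hz, map_neg, hfz0, neg_zero]
    have hzK : ∀ g : X →L[ℂ] ℂ, AA c e x y g → 0 < (ω * g z).re := by
      intro g hg
      have := hz1 _ ⟨g, hg, rfl⟩
      have e1 : ((ω • g) z0).re < 0 := this
      have e2 : ω * g z = -((ω • g) z0) := by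
        rw [hz, map_neg]; simp
      rw [e2, Complex.neg_re]; linarith
    have hzP : ∀ ψ : X →L[ℂ] ℂ, Nm ψ x → (ψ z).re ≤ 0 := by
      intro ψ hψ
      have := hz2 ψ hψ
      rw [hz, map_neg, Complex.neg_re]; linarith
    -- compactness: a uniform lower bound
    have hη : ∃ η : ℝ, 0 < η ∧ ∀ g : X →L[ℂ] ℂ, AA c e x y g → η ≤ (ω * g z).re := by
      obtain ⟨g0, hg0, hmin⟩ := (compactAA c e x y).exists_isMinOn hω.ex
        (f := fun g : X →L[ℂ] ℂ => (ω * g z).re)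
        (Complex.continuous_re.comp (continuous_const.mul
          (ContinuousLinearMap.apply ℂ ℂ z).continuous)).continuousOn
      exact ⟨_, hzK g0 hg0, fun g hg => hmin hg⟩
    obtain ⟨η, hη0, hη⟩ := hη
    set s : ℝ := η / 4 with hs
    have hs0 : 0 < s := by positivity
    set z' : X := z - (s : ℂ) • (x - (c : ℂ) • w) with hz'
    have hfz' : f z' = 0 := by
      rw [hz', map_sub, map_smul, map_sub, map_smul, hfz, ha.fx, ha.fw]
      simp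
    have hz'P : ∀ ψ : X →L[ℂ] ℂ, Nm ψ x → (ψ z').re < 0 := by
      intro ψ hψ
      have h3 := hzP ψ hψ
      have h4 : (ψ w).re ≤ 1 := (Complex.re_le_norm _).trans (norm_apply_le_one hψ.1 ha.nw.le)
      have h5 : (ψ z').re = (ψ z).re - s * (1 - c * (ψ w).re) := by
        rw [hz', map_sub, map_smul, map_sub, map_smul, hψ.2, smul_eq_mul, smul_eq_mul,
          Complex.sub_re, Complex.re_ofReal_mul, Complex.sub_re, Complex.re_ofReal_mul,
          Complex.one_re]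
      rw [h5]
      have h6 : c * (ψ w).re ≤ c := by nlinarith
      have h7 : 0 < s * (1 - c * (ψ w).re) := mul_pos hs0 (by linarith)
      linarith
    have hz'K : ∀ g : X →L[ℂ] ℂ, AA c e x y g → 0 < (ω * g z').re := by
      intro g hg
      have h3 := hη g hg
      have h4 : (ω * g (x - (c : ℂ) • w)).re ≤ 2 := by
        refine (Complex.re_le_norm _).trans ?_
        rw [norm_mul, hωn, one_mul]
        refine (norm_apply_le hg.1).trans ((norm_sub_le _ _).trans ?_)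
        rw [norm_smul, ha.nw, ha.nx, Complex.norm_of_nonneg hc0.le]
        linarith
      have h5 : (ω * g z').re = (ω * g z).re - s * (ω * g (x - (c : ℂ) • w)).re := by
        have : ω * g z' = ω * g z - (s : ℂ) * (ω * g (x - (c : ℂ) • w)) := by
          rw [hz', map_sub, map_smul, smul_eq_mul]; ring
        rw [this, Complex.sub_re, Complex.re_ofReal_mul]
      rw [h5]
      have h6 : s * (ω * g (x - (c : ℂ) • w)).re ≤ s * 2 := mul_le_mul_of_nonneg_left h4 hs0.le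
      rw [hs] at h6 ⊢
      linarith
    -- the norm decreases
    obtain ⟨n0, hn0⟩ := eventually_atTop.1 (decr x z' ha.nx hz'P)
    let t : ℕ → ℝ := fun n => 1 / (((n + n0 : ℕ) : ℝ) + 1)
    have ht0 : ∀ n, 0 < t n := fun n => Nat.one_div_pos_of_nat
    have htl : Tendsto t atTop (𝓝 0) :=
      (tendsto_one_div_add_atTop_nhds_zero_nat (𝕜 := ℝ)).comp (tendsto_add_atTop_nat n0)
    have hlt : ∀ n, ‖x + ((t n : ℝ) : ℂ) • z'‖ < 1 := fun n => hn0 (n + n0) (by omega)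
    have hstep : ∀ n, ∃ g : X →L[ℂ] ℂ, ‖g‖ ≤ 1 ∧ g y = (c : ℂ) ∧
        ‖g (x + ((t n : ℝ) : ℂ) • z')‖ ≤ e ∧ (ω * g z').re ≤ 0 := by
      intro n
      set M : ℝ := ‖x + ((t n : ℝ) : ℂ) • z'‖ with hM
      have hM1 : M < 1 := hlt n
      have hfM : f (x + ((t n : ℝ) : ℂ) • z') = (c : ℂ) := by
        rw [map_add, map_smul, hfz', smul_zero, add_zero, ha.fx]
      have hM0 : 0 < M := by
        rw [hM, norm_pos_iff]
        intro h0
        rw [h0, map_zero] at hfM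
        exact hcC hfM.symm
      have hMC : (M : ℂ) ≠ 0 := by exact_mod_cast hM0.ne'
      set xt : X := ((M⁻¹ : ℝ) : ℂ) • (x + ((t n : ℝ) : ℂ) • z') with hxt
      have hxtn : ‖xt‖ = 1 := by
        rw [hxt, norm_smul, Complex.norm_of_nonneg (by positivity), ← hM,
          inv_mul_cancel₀ hM0.ne']
      obtain ⟨g, hg1, hg2, hg3⟩ := hk.sym xt y hxtn ha.ny ⟨(M : ℂ) • f, by
        rw [norm_smul, Complex.norm_of_nonneg hM0.le]
        exact mul_le_one₀ hM1.le (norm_nonneg _) ha.nf, by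
        change (M : ℂ) • f xt = _
        rw [hxt, map_smul, hfM, smul_eq_mul, smul_eq_mul]
        push_cast
        rw [← mul_assoc, mul_inv_cancel₀ hMC, one_mul], by
        change ‖(M : ℂ) • f y‖ ≤ e
        rw [hfy, norm_smul, Complex.norm_of_nonneg hM0.le, Complex.norm_of_nonneg he0.le]
        nlinarith⟩
      have hgx : ‖g (x + ((t n : ℝ) : ℂ) • z')‖ ≤ e * M := by
        have e1 : x + ((t n : ℝ) : ℂ) • z' = (M : ℂ) • xt := by
          rw [hxt, smul_smul]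
          push_cast
          rw [mul_inv_cancel₀ hMC, one_smul]
        rw [e1, map_smul, norm_smul, Complex.norm_of_nonneg hM0.le]
        nlinarith
      refine ⟨g, hg1, hg2, hgx.trans (by nlinarith), ?_⟩
      have h3 := hω.lb g hg1 hg2
      have h4 : (ω * g (x + ((t n : ℝ) : ℂ) • z')).re = (ω * g x).re + t n * (ω * g z').re := by
        have : ω * g (x + ((t n : ℝ) : ℂ) • z') = ω * g x + ((t n : ℝ) : ℂ) * (ω * g z') := by
          rw [map_add, map_smul, smul_eq_mul]; ring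
        rw [this, Complex.add_re, Complex.re_ofReal_mul]
      have h5 : (ω * g (x + ((t n : ℝ) : ℂ) • z')).re ≤ e * M := by
        refine (Complex.re_le_norm _).trans ?_
        rwa [norm_mul, hωn, one_mul]
      by_contra hneg
      push Not at hneg
      have h6 := mul_pos (ht0 n) hneg
      nlinarith
    choose g hg1 hg2 hg3 hg4 using hstep
    obtain ⟨g0, hg0, φ, hφ, hlim⟩ := subseq g hg1
    have htφ : Tendsto (fun n => t (φ n)) atTop (𝓝 0) := htl.comp hφ.tendsto_atTop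
    have hev : ∀ v, Tendsto (fun n => g (φ n) v) atTop (𝓝 (g0 v)) := fun v =>
      tendsto_eval hlim v
    have hy : g0 y = (c : ℂ) := by
      refine tendsto_nhds_unique (hev y) ?_
      have : (fun n => g (φ n) y) = fun _ => (c : ℂ) := funext fun n => hg2 _
      rw [this]; exact tendsto_const_nhds
    have hx : ‖g0 x‖ ≤ e := by
      have hl1 : Tendsto (fun n => g (φ n) x + ((t (φ n) : ℝ) : ℂ) * g (φ n) z') atTop
          (𝓝 (g0 x + ((0 : ℝ) : ℂ) * g0 z')) :=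
        (hev x).add (((Complex.continuous_ofReal.tendsto _).comp htφ).mul (hev z'))
      rw [Complex.ofReal_zero, zero_mul, add_zero] at hl1
      refine le_of_tendsto hl1.norm (Eventually.of_forall fun n => ?_)
      have := hg3 (φ n)
      rwa [map_add, map_smul, smul_eq_mul] at this
    have hz'0 : (ω * g0 z').re ≤ 0 :=
      le_of_tendsto ((Complex.continuous_re.tendsto _).comp ((hev z').const_mul ω))
        (Eventually.of_forall fun n => hg4 _)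
    exact absurd (hz'K g0 ⟨hg0, hy, hx⟩) (not_lt.2 hz'0)

end NAO

end

section

/-!
B1: the functions T and Om on the slice, with continuity.
-/

universe u

namespace NAO

open Filter Topology Set

/-- Limits along an ultrafilter of a function with values in a compact set. -/
theorem itemB1_lim {X Y : Type*} [TopologicalSpace Y] {K : Set Y} (hK : IsCompact K)
    (F : X → Y) (U : Ultrafilter X) (hF : ∀ᶠ x in (U : Filter X), F x ∈ K) :
    ∃ y ∈ K, Tendsto F U (𝓝 y) := by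
  have h1 : ((U.map F : Ultrafilter Y) : Filter Y) ≤ 𝓟 K := by
    rw [le_principal_iff]
    exact hF
  obtain ⟨y, hy, hyU⟩ := hK.ultrafilter_le_nhds (U.map F) h1
  exact ⟨y, hy, hyU⟩

/-- B1. -/
theorem itemB1 (h1 : SAlT.{u}) (h2 : SOm.{u}) : SFib.{u} := by
  intro X _ _ _ c e hK w f hw hf hfw
  have hP := hK.par
  have he := hP.e0
  have hec := hP.ec
  have hc1 := hP.c1
  have hc : 0 < c := he.trans hec
  have : ProperSpace X := FiniteDimensional.proper ℂ X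
  have : ProperSpace (X →L[ℂ] ℂ) := FiniteDimensional.proper ℂ _
  have exT : ∀ y : X, ∃ T : ℝ, ‖y‖ = 1 → f y = (e : ℂ) → 0 < T ∧
      Al c e w f ((c : ℂ) • w + (T : ℂ) • (y - (e : ℂ) • w)) y T⁻¹ ∧
      ∀ T' : ℝ, 0 < T' → ‖(c : ℂ) • w + (T' : ℂ) • (y - (e : ℂ) • w)‖ = 1 → T' = T := by
    intro y
    by_cases h : ‖y‖ = 1 ∧ f y = (e : ℂ)
    · obtain ⟨T, hT⟩ := h1 X c e hP w f y hw hf hfw h.1 h.2
      exact ⟨T, fun _ _ => hT⟩
    · exact ⟨0, fun h3 h4 => absurd ⟨h3, h4⟩ h⟩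
  choose T hT using exT
  have exO : ∀ y : X, ∃ ω : ℂ, ‖y‖ = 1 → f y = (e : ℂ) →
      IsOm c e ((c : ℂ) • w + (T y : ℂ) • (y - (e : ℂ) • w)) y ω := by
    intro y
    by_cases h : ‖y‖ = 1 ∧ f y = (e : ℂ)
    · obtain ⟨ω, hω⟩ := h2 X c e hK w f _ y _ (hT y h.1 h.2).2.1
      exact ⟨ω, fun _ _ => hω⟩
    · exact ⟨0, fun h3 h4 => absurd ⟨h3, h4⟩ h⟩
  choose Om hOm using exO
  set S : Set X := {y : X | ‖y‖ = 1 ∧ f y = (e : ℂ)} with hS
  have hne : ‖(e : ℂ)‖ = e := by rw [Complex.norm_real, Real.norm_eq_abs, abs_of_pos he]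
  have hnc : ‖(c : ℂ)‖ = c := by rw [Complex.norm_real, Real.norm_eq_abs, abs_of_pos hc]
  have h1e : 0 < 1 - e := by linarith
  have hTb : ∀ y ∈ S, T y ∈ Icc (0 : ℝ) ((1 + c) / (1 - e)) := by
    intro y hy
    obtain ⟨hTp, hAl, -⟩ := hT y hy.1 hy.2
    refine ⟨hTp.le, ?_⟩
    rw [le_div_iff₀ h1e]
    have hx := hAl.nx
    have hd : 1 - e ≤ ‖y - (e : ℂ) • w‖ := by
      have h3 := norm_sub_norm_le y ((e : ℂ) • w)
      rw [norm_smul, hne, hw, hy.1, mul_one] at h3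
      exact h3
    have h4 : ‖(T y : ℂ) • (y - (e : ℂ) • w)‖ = T y * ‖y - (e : ℂ) • w‖ := by
      rw [norm_smul, Complex.norm_real, Real.norm_eq_abs, abs_of_pos hTp]
    have h5 : ‖(T y : ℂ) • (y - (e : ℂ) • w)‖ ≤ 1 + c := by
      have h6 : (T y : ℂ) • (y - (e : ℂ) • w) =
          ((c : ℂ) • w + (T y : ℂ) • (y - (e : ℂ) • w)) - (c : ℂ) • w := by abel
      rw [h6]
      refine (norm_sub_le _ _).trans ?_
      rw [hx, norm_smul, hnc, hw, mul_one]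
    calc T y * (1 - e) ≤ T y * ‖y - (e : ℂ) • w‖ := mul_le_mul_of_nonneg_left hd hTp.le
      _ ≤ 1 + c := by rw [← h4]; exact h5
  have hcT : ContinuousOn T S := by
    intro y hy
    rw [ContinuousWithinAt, tendsto_iff_ultrafilter]
    intro U hU
    have hUS : ∀ᶠ y' in (U : Filter X), y' ∈ S := hU self_mem_nhdsWithin
    have hUy : Tendsto (fun y' : X => y') (U : Filter X) (𝓝 y) := hU.trans nhdsWithin_le_nhds
    obtain ⟨T', hT'1, hT'2⟩ := itemB1_lim isCompact_Icc T U (hUS.mono hTb)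
    have hlim : Tendsto (fun y' => ‖(c : ℂ) • w + (T y' : ℂ) • (y' - (e : ℂ) • w)‖)
        (U : Filter X) (𝓝 ‖(c : ℂ) • w + (T' : ℂ) • (y - (e : ℂ) • w)‖) := by
      have h3 : Tendsto (fun y' => (T y' : ℂ)) (U : Filter X) (𝓝 (T' : ℂ)) :=
        (Complex.continuous_ofReal.tendsto T').comp hT'2
      exact (tendsto_const_nhds.add (h3.smul (hUy.sub tendsto_const_nhds))).norm
    have hone : ‖(c : ℂ) • w + (T' : ℂ) • (y - (e : ℂ) • w)‖ = 1 := by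
      refine tendsto_nhds_unique hlim ?_
      refine tendsto_const_nhds.congr' ?_
      filter_upwards [hUS] with y' hy'
      exact ((hT y' hy'.1 hy'.2).2.1.nx).symm
    have hT'0 : T' ≠ 0 := by
      intro h0
      rw [h0] at hone
      simp only [Complex.ofReal_zero, zero_smul, add_zero] at hone
      rw [norm_smul, hnc, hw, mul_one] at hone
      linarith
    have hT'p : 0 < T' := lt_of_le_of_ne hT'1.1 (Ne.symm hT'0)
    have := (hT y hy.1 hy.2).2.2 T' hT'p hone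
    rw [← this]
    exact hT'2
  refine ⟨T, Om, ?_, ?_, ?_, hcT, ?_⟩
  · intro y hy1 hy2
    exact (hT y hy1 hy2).1
  · intro y hy1 hy2
    exact (hT y hy1 hy2).2.1
  · intro y hy1 hy2
    exact hOm y hy1 hy2
  · intro y hy
    rw [ContinuousWithinAt, tendsto_iff_ultrafilter]
    intro U hU
    have hUS : ∀ᶠ y' in (U : Filter X), y' ∈ S := hU self_mem_nhdsWithin
    have hUy : Tendsto (fun y' : X => y') (U : Filter X) (𝓝 y) := hU.trans nhdsWithin_le_nhds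
    have hUT : Tendsto T (U : Filter X) (𝓝 (T y)) := (hcT y hy).mono_left hU
    have hUx : Tendsto (fun y' => (c : ℂ) • w + (T y' : ℂ) • (y' - (e : ℂ) • w))
        (U : Filter X) (𝓝 ((c : ℂ) • w + (T y : ℂ) • (y - (e : ℂ) • w))) := by
      have h3 : Tendsto (fun y' => (T y' : ℂ)) (U : Filter X) (𝓝 (T y : ℂ)) :=
        (Complex.continuous_ofReal.tendsto (T y)).comp hUT
      exact tendsto_const_nhds.add (h3.smul (hUy.sub tendsto_const_nhds))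
    -- functionals
    have exG : ∀ y' : X, ∃ g : X →L[ℂ] ℂ, y' ∈ S →
        AA c e ((c : ℂ) • w + (T y' : ℂ) • (y' - (e : ℂ) • w)) y' g := by
      intro y'
      by_cases h : y' ∈ S
      · obtain ⟨g, hg⟩ := (hOm y' h.1 h.2).ex
        exact ⟨g, fun _ => hg⟩
      · exact ⟨0, fun h3 => absurd h3 h⟩
    choose G hG using exG
    obtain ⟨g, hg1, hg2⟩ := itemB1_lim (isCompact_closedBall (0 : X →L[ℂ] ℂ) 1) G U
      (hUS.mono fun y' hy' => by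
        rw [mem_closedBall_zero_iff]
        exact (hG y' hy').1)
    have hap : ∀ (F : X → X) (a : X), Tendsto F (U : Filter X) (𝓝 a) →
        Tendsto (fun y' => (G y') (F y')) (U : Filter X) (𝓝 (g a)) := by
      intro F a hF
      have hb : Continuous fun q : (X →L[ℂ] ℂ) × X => q.1 q.2 :=
        isBoundedBilinearMap_apply.continuous
      exact (hb.tendsto (g, a)).comp (hg2.prodMk_nhds hF)
    have hgA : AA c e ((c : ℂ) • w + (T y : ℂ) • (y - (e : ℂ) • w)) y g := by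
      refine ⟨mem_closedBall_zero_iff.mp hg1, ?_, ?_⟩
      · refine tendsto_nhds_unique (hap _ _ hUy) ?_
        refine tendsto_const_nhds.congr' ?_
        filter_upwards [hUS] with y' hy'
        exact ((hG y' hy').2.1).symm
      · refine le_of_tendsto (hap _ _ hUx).norm ?_
        filter_upwards [hUS] with y' hy'
        exact (hG y' hy').2.2
    have hec0 : (e : ℂ) ≠ 0 := by exact_mod_cast he.ne'
    have hgy := (hOm y hy.1 hy.2).eq g hgA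
    have hgx0 : g ((c : ℂ) • w + (T y : ℂ) • (y - (e : ℂ) • w)) ≠ 0 := by
      intro h0
      rw [h0, mul_zero] at hgy
      exact hec0 hgy.symm
    have hlim : Tendsto (fun y' => (e : ℂ) / (G y') ((c : ℂ) • w + (T y' : ℂ) • (y' - (e : ℂ) • w)))
        (U : Filter X) (𝓝 ((e : ℂ) / g ((c : ℂ) • w + (T y : ℂ) • (y - (e : ℂ) • w)))) :=
      tendsto_const_nhds.div (hap _ _ hUx) hgx0
    have hfin : (e : ℂ) / g ((c : ℂ) • w + (T y : ℂ) • (y - (e : ℂ) • w)) = Om y := by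
      rw [div_eq_iff hgx0]
      exact hgy.symm
    rw [hfin] at hlim
    refine hlim.congr' ?_
    filter_upwards [hUS] with y' hy'
    have h3 := (hOm y' hy'.1 hy'.2).eq (G y') (hG y' hy')
    have h4 : (G y') ((c : ℂ) • w + (T y' : ℂ) • (y' - (e : ℂ) • w)) ≠ 0 := by
      intro h0
      rw [h0, mul_zero] at h3
      exact hec0 h3.symm
    rw [div_eq_iff h4]
    exact h3.symm

end NAO

end

section

/-!
B2. (FC) face constancy.
-/

universe u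

namespace NAO

/-- the computation behind the gap. -/
theorem fc_gap (e δ : ℝ) (E : ℂ) (hδ : 0 < δ)
    (h : e ≤ ‖(e : ℂ) - (δ : ℂ) * E‖) (he : 0 < e) :
    2 * e * E.re ≤ δ * ‖E‖ ^ 2 := by
  have h1 : e ^ 2 ≤ ‖(e : ℂ) - (δ : ℂ) * E‖ ^ 2 := pow_le_pow_left₀ he.le h 2
  rw [← Complex.normSq_eq_norm_sq, Complex.normSq_apply] at h1
  rw [← Complex.normSq_eq_norm_sq, Complex.normSq_apply]
  simp only [Complex.sub_re, Complex.sub_im, Complex.ofReal_re, Complex.ofReal_im,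
    Complex.re_ofReal_mul, Complex.im_ofReal_mul] at h1
  have h2 : δ * (2 * e * E.re) ≤ δ * (δ * (E.re * E.re + E.im * E.im)) := by nlinarith
  exact le_of_mul_le_mul_left h2 hδ

theorem itemB2 (h2 : SS.{u}) (h3 : SPos.{u}) : SFC.{u} := by
  intro X _ _ _ c e hK w f T Om hw hf hfw hF ψ y₀ y₁ hy₀ hf₀ hy₁ hf₁ hψ₀ hψ₁
  have he0 := hK.par.e0
  have hec := hK.par.ec
  have hc1 := hK.par.c1
  have hc0 : 0 < c := lt_trans he0 hec
  -- the segment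
  set Y : ℝ → X := fun s => ((1 - s : ℝ) : ℂ) • y₀ + (s : ℂ) • y₁ with hY
  have hY0 : Y 0 = y₀ := by simp [hY]
  have hY1 : Y 1 = y₁ := by simp [hY]
  have hψY : ∀ s, ψ (Y s) = 1 := by
    intro s
    simp only [hY, map_add, map_smul, hψ₀.2, hψ₁.2, smul_eq_mul, mul_one]
    push_cast
    ring
  have hfY : ∀ s, f (Y s) = (e : ℂ) := by
    intro s
    simp only [hY, map_add, map_smul, hf₀, hf₁, smul_eq_mul]
    push_cast
    ring
  have hnY : ∀ s ∈ Set.Icc (0 : ℝ) 1, ‖Y s‖ = 1 := by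
    rintro s ⟨hs0, hs1⟩
    apply le_antisymm
    · refine (norm_add_le _ _).trans ?_
      rw [norm_smul, norm_smul, Complex.norm_real, Complex.norm_real, Real.norm_eq_abs,
        Real.norm_eq_abs, abs_of_nonneg (by linarith), abs_of_nonneg hs0, hy₀, hy₁]
      linarith
    · have h := ψ.le_opNorm (Y s)
      rw [hψY s, norm_one] at h
      have h4 : ‖ψ‖ * ‖Y s‖ ≤ 1 * ‖Y s‖ :=
        mul_le_mul_of_nonneg_right hψ₀.1 (norm_nonneg _)
      linarith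
  have hdiff : ∀ r s, f (Y r - Y s) = 0 ∧ ψ (Y r - Y s) = 0 := by
    intro r s
    constructor
    · rw [map_sub, hfY, hfY, sub_self]
    · rw [map_sub, hψY, hψY, sub_self]
  set x : ℝ → X := fun s => (c : ℂ) • w + (T (Y s) : ℂ) • (Y s - (e : ℂ) • w) with hx
  -- key identity and inequality
  have hkey : ∀ s ∈ Set.Icc (0 : ℝ) 1, ∃ (g : X →L[ℂ] ℂ) (E : ℂ), AA c e (x s) (Y s) g ∧
      0 < E.re ∧ (∀ r, g (Y r) = (c : ℂ)) ∧
      (∀ r, Om (Y s) * g (x r) = (e : ℂ) + ((T (Y r) - T (Y s) : ℝ) : ℂ) * E) := by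
    intro s hs
    have hAl := hF.al (Y s) (hnY s hs) (hfY s)
    have hOm := hF.om (Y s) (hnY s hs) (hfY s)
    obtain ⟨g, R, hAA, hR, hg⟩ := h2 X c e hK w f _ (Y s) _ hAl ψ ⟨hψ₀.1, hψY s⟩
    have hpos := (h3 X c e hK w f _ (Y s) _ hAl (Om (Y s)) hOm g hAA).1
    have hgY : ∀ r, g (Y r) = (c : ℂ) := by
      intro r
      have h4 : g (Y r - Y s) = 0 := by
        rw [hg _ (hdiff r s).1, (hdiff r s).2, mul_zero]
      rw [map_sub, sub_eq_zero] at h4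
      rw [h4]
      exact hAA.2.1
    refine ⟨g, Om (Y s) * ((c : ℂ) - (e : ℂ) * g w), hAA, hpos, hgY, ?_⟩
    intro r
    have h5 : Om (Y s) * g (x s) = (e : ℂ) := hOm.eq g hAA
    have h6 : ∀ r, g (x r) = (c : ℂ) * g w + (T (Y r) : ℂ) * ((c : ℂ) - (e : ℂ) * g w) := by
      intro r
      simp only [hx, map_add, map_smul, map_sub, smul_eq_mul, hgY]
    rw [h6 s] at h5
    rw [h6 r]
    push_cast
    linear_combination h5
  have hgap : ∀ s ∈ Set.Icc (0 : ℝ) 1, ∃ γ : ℝ, 0 < γ ∧ ∀ r ∈ Set.Icc (0 : ℝ) 1,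
      T (Y r) < T (Y s) → T (Y r) + γ ≤ T (Y s) := by
    intro s hs
    obtain ⟨g, E, hAA, hE, hgY, hgx⟩ := hkey s hs
    have hEn : 0 < ‖E‖ ^ 2 := by
      have : E ≠ 0 := by
        intro h
        rw [h] at hE
        simp at hE
      positivity
    refine ⟨2 * e * E.re / ‖E‖ ^ 2, by positivity, ?_⟩
    intro r hr hlt
    have hAlr := hF.al (Y r) (hnY r hr) (hfY r)
    have h4 := hK.k1 w f _ (Y r) _ hAlr g hAA.1 (by
      rw [hgY r, Complex.norm_real, Real.norm_eq_abs, abs_of_pos hc0])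
    have hOm := hF.om (Y s) (hnY s hs) (hfY s)
    have h5 : ‖Om (Y s) * g (x r)‖ = ‖g (x r)‖ := by
      rw [norm_mul, hOm.nrm, one_mul]
    have h6 : e ≤ ‖(e : ℂ) - ((T (Y s) - T (Y r) : ℝ) : ℂ) * E‖ := by
      have h7 : (e : ℂ) - ((T (Y s) - T (Y r) : ℝ) : ℂ) * E
          = (e : ℂ) + ((T (Y r) - T (Y s) : ℝ) : ℂ) * E := by
        push_cast
        ring
      rw [h7, ← hgx r, h5]
      exact h4
    have h8 := fc_gap e (T (Y s) - T (Y r)) E (by linarith) h6 he0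
    have h9 : 2 * e * E.re / ‖E‖ ^ 2 ≤ T (Y s) - T (Y r) := (div_le_iff₀ hEn).2 h8
    linarith
  -- continuity of the stretch along the segment
  have hYc : Continuous Y := by
    rw [hY]
    fun_prop
  have hTc : ContinuousOn (fun s => T (Y s)) (Set.Icc (0 : ℝ) 1) := by
    refine ContinuousOn.comp (t := {y : X | ‖y‖ = 1 ∧ f y = (e : ℂ)}) hF.contT
      hYc.continuousOn ?_
    intro s hs
    exact ⟨hnY s hs, hfY s⟩
  obtain ⟨s, hs, hmax⟩ := isCompact_Icc.exists_isMaxOn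
    (Set.nonempty_Icc.2 (zero_le_one (α := ℝ))) hTc
  have hconst : ∀ r ∈ Set.Icc (0 : ℝ) 1, T (Y r) = T (Y s) := by
    intro r hr
    by_contra hne
    have hlt : T (Y r) < T (Y s) := lt_of_le_of_ne (hmax hr) hne
    obtain ⟨γ, hγ, hg⟩ := hgap s hs
    have h4 := hg r hr hlt
    have hsub : Set.uIcc s r ⊆ Set.Icc (0 : ℝ) 1 := by
      rw [← Set.uIcc_of_le (zero_le_one (α := ℝ))] at hs hr ⊢
      exact Set.uIcc_subset_uIcc hs hr
    have h5 := intermediate_value_uIcc (hTc.mono hsub)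
    have h6 : T (Y s) - γ / 2 ∈ Set.uIcc (T (Y s)) (T (Y r)) := by
      rw [Set.uIcc_of_ge hlt.le]
      constructor <;> linarith
    obtain ⟨q, hq, hqe⟩ := h5 h6
    have hqe' : T (Y q) = T (Y s) - γ / 2 := hqe
    have h7 := hg q (hsub hq) (by linarith)
    linarith
  have h0 : (0 : ℝ) ∈ Set.Icc (0 : ℝ) 1 := ⟨le_rfl, zero_le_one⟩
  have h1 : (1 : ℝ) ∈ Set.Icc (0 : ℝ) 1 := ⟨zero_le_one, le_rfl⟩
  have hT01 : T (Y 0) = T (Y 1) := by rw [hconst 0 h0, hconst 1 h1]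
  obtain ⟨g, E, hAA, hE, hgY, hgx⟩ := hkey 0 h0
  have h4 : Om (Y 0) * g (x 1) = (e : ℂ) := by
    rw [hgx 1, hT01]
    simp
  have hOm0 := hF.om (Y 0) (hnY 0 h0) (hfY 0)
  have hOm1 := hF.om (Y 1) (hnY 1 h1) (hfY 1)
  have hnorm : ‖g (x 1)‖ = e := by
    have h5 : ‖Om (Y 0) * g (x 1)‖ = ‖g (x 1)‖ := by
      rw [norm_mul, hOm0.nrm, one_mul]
    rw [← h5, h4, Complex.norm_real, Real.norm_eq_abs, abs_of_pos he0]
  have hAA1 : AA c e (x 1) (Y 1) g := ⟨hAA.1, hgY 1, hnorm.le⟩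
  have h6 : Om (Y 1) * g (x 1) = (e : ℂ) := hOm1.eq g hAA1
  have hgne : g (x 1) ≠ 0 := by
    intro h
    rw [h, norm_zero] at hnorm
    linarith
  have h7 : Om (Y 0) = Om (Y 1) := mul_right_cancel₀ hgne (h4.trans h6.symm)
  rw [hY0, hY1] at hT01 h7
  exact ⟨hT01, h7⟩

end NAO

end
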